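import Mathlib

/-!
# MP_c5238b_co : bounded embeddings on the cylinder -- shared definitions

Plan (all modules live in `Pool/Agent/Lib/MP_c5238b_co/`):

* `M4` (topology → grid)     : `CylEmb D γ → Nonempty (GridFlow D γ)`
* `M3` (discrete Stokes)     : `GridFlow D γ → HypH D γ`
* `M1` (free group algebra)  : `HypH D γ → ∃ l, … ∧ Movie D l [] []`
* `M2` (realisation)         : `Movie D l [] [] → radial CylEmb D γ`
-/

namespace CylB

/-! ## Part 0 : the notions of the problem -/

/-- The cylinder `[0,1] × S¹`. -/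
abbrev Cyl : Type := unitInterval × UnitAddCircle

/-- `(pos, arc)` is a drawing of `G` on the cylinder: the vertices are distinct points of the
interior, each edge `uv` is (the range of) a simple curve joining `u` and `v`, and it avoids all
other vertices. -/
structure IsDrawing {V : Type*} (G : SimpleGraph V) (pos : V → Cyl) (arc : Sym2 V → Set Cyl) :
    Prop where
  inj : Function.Injective pos
  interior : ∀ v, 0 < (pos v).1 ∧ (pos v).1 < 1
  curve : ∀ u v, G.Adj u v → ∃ φ : unitInterval → Cyl, Continuous φ ∧ Function.Injective φ ∧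
    φ 0 = pos u ∧ φ 1 = pos v ∧ Set.range φ = arc s(u, v)
  avoid : ∀ u v w, G.Adj u v → w ≠ u → w ≠ v → pos w ∉ arc s(u, v)

/-- An embedding is a drawing in which two edges meet only at a common endpoint. -/
structure IsEmb {V : Type*} (G : SimpleGraph V) (pos : V → Cyl) (arc : Sym2 V → Set Cyl) :
    Prop where
  drawing : IsDrawing G pos arc
  meet : ∀ e ∈ G.edgeSet, ∀ f ∈ G.edgeSet, e ≠ f → ∀ q ∈ arc e, q ∈ arc f →
    ∃ v, v ∈ e ∧ v ∈ f ∧ q = pos v

/-- The two conditions of `γ`-boundedness. -/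
structure GammaBounded {V : Type*} (G : SimpleGraph V) (γ : V → ℕ) (pos : V → Cyl)
    (arc : Sym2 V → Set Cyl) : Prop where
  order : ∀ u v, γ u < γ v → (pos u).1 < (pos v).1
  bdd : ∀ u v w, G.Adj u v → γ u ≤ γ v → (pos w).1 ∈ Prod.fst '' arc s(u, v) →
    γ u ≤ γ w ∧ γ w ≤ γ v

/-- Every edge is radial: the projection to `I` restricted to it is injective. -/
def Radial {V : Type*} (G : SimpleGraph V) (arc : Sym2 V → Set Cyl) : Prop :=
  ∀ e ∈ G.edgeSet, Set.InjOn Prod.fst (arc e)

/-! ## Part 1 : oriented multigraphs and cylinder embeddings with parametrised edges -/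

/-- An oriented loopless multigraph. -/
structure Gr (V E : Type*) where
  src : E → V
  tgt : E → V
  ne : ∀ e, src e ≠ tgt e

/-- A `γ`-bounded embedding of `D` on the cylinder, with parametrised edges
(`γ (src e) ≤ γ (tgt e)` for all edges is included). -/
structure CylEmb {V E : Type*} (D : Gr V E) (γ : V → ℕ) (pos : V → Cyl)
    (φ : E → unitInterval → Cyl) : Prop where
  le : ∀ e, γ (D.src e) ≤ γ (D.tgt e)
  pos_inj : Function.Injective pos
  interior : ∀ v, 0 < (pos v).1 ∧ (pos v).1 < 1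
  cont : ∀ e, Continuous (φ e)
  inj : ∀ e, Function.Injective (φ e)
  start : ∀ e, φ e 0 = pos (D.src e)
  finish : ∀ e, φ e 1 = pos (D.tgt e)
  avoid : ∀ e t w, φ e t = pos w → w = D.src e ∨ w = D.tgt e
  disj : ∀ e f, e ≠ f → ∀ s t, φ e s = φ f t →
    ∃ v, φ e s = pos v ∧ (v = D.src e ∨ v = D.tgt e) ∧ (v = D.src f ∨ v = D.tgt f)
  order : ∀ u v, γ u < γ v → (pos u).1 < (pos v).1
  bdd : ∀ e t w, (φ e t).1 = (pos w).1 → γ (D.src e) ≤ γ w ∧ γ w ≤ γ (D.tgt e)

/-! ## Part 2 : words, rotations, movies -/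

/-- The letters of the outgoing half-edges at `z`. -/
def star {V E : Type*} (D : Gr V E) (z : V) : Set (E × Bool) :=
  {a | (a.2 = true ∧ D.src a.1 = z) ∨ (a.2 = false ∧ D.tgt a.1 = z)}

/-- `ρ` lists the outgoing half-edges at `z`, each exactly once (a rotation at `z`). -/
def IsRot {V E : Type*} (D : Gr V E) (z : V) (ρ : List (E × Bool)) : Prop :=
  ρ.Nodup ∧ ∀ a, a ∈ ρ ↔ a ∈ star D z

/-- Bend-free movies of cyclic words: at each step, the vertex `z` is passed: the cyclic word
`x ++ s` becomes `y ++ s`, where `x` are the half-edges of `z` to the left and `y` the half-edges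
of `z` to the right.  Letters: `(e,true)` if `e` is crossed from left to right. -/
inductive Movie {V E : Type*} (D : Gr V E) :
    List V → List (E × Bool) → List (E × Bool) → Prop
  | nil {w w' : List (E × Bool)} : w.IsRotated w' → Movie D [] w w'
  | cons {z : V} {l : List V} {w x y s w' : List (E × Bool)} :
      IsRot D z (FreeGroup.invRev x ++ y) → w.IsRotated (x ++ s) → Movie D l (y ++ s) w' →
      Movie D (z :: l) w w'

/-! ## Part 3 : products of conjugates and the algebraic hypothesis -/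

/-- `PC σ S c`: `c` is a product, in some order, of exactly one conjugate of `σ z` for each
`z ∈ S`. -/
inductive PC {V F : Type*} [DecidableEq V] [Group F] (σ : V → F) : Finset V → F → Prop
  | empty : PC σ ∅ 1
  | insert {z : V} {S : Finset V} {c : F} (g : F) : z ∉ S → PC σ S c →
      PC σ (insert z S) (g * σ z * g⁻¹ * c)

/-- The endomorphism of the free group that keeps the generators in `P` and kills the others. -/
noncomputable def keep {E : Type*} (P : E → Prop) [DecidablePred P] :
    FreeGroup E →* FreeGroup E :=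
  FreeGroup.lift (fun e => if P e then FreeGroup.of e else 1)

/-- The algebraic hypothesis extracted from a `γ`-bounded embedding. -/
def HypH {V E : Type*} [Fintype V] [DecidableEq V] (D : Gr V E) (γ : V → ℕ) : Prop :=
  ∃ (ρ : V → List (E × Bool)) (g : ℕ → FreeGroup E),
    (∀ z, IsRot D z (ρ z)) ∧
    (∀ j, keep (fun e => γ (D.src e) < j ∧ j ≤ γ (D.tgt e)) (g j) = g j) ∧
    (∀ j, ∃ c, PC (fun z => FreeGroup.mk (ρ z)) (Finset.univ.filter (fun z => γ z = j)) c ∧
      IsConj (g (j + 1)) (g j * c))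

/-! ## Part 4 : the grid -/

/-- The list of outward flow functions along the boundary of a block with columns `i0..i1` and
rows `k0..k1`: left side from top to bottom, bottom side from left to right, right side from
bottom to top, top side from right to left. `nh e i k` is the flow of `e` from cell `(i-1,k)` to
cell `(i,k)` and `nv e i k` is the flow of `e` from cell `(i,k-1)` to cell `(i,k)`. -/
def bdryFlow {E : Type*} (nh nv : E → ℕ → ℕ → ℤ) (i0 i1 k0 k1 : ℕ) : List (E → ℤ) :=
  ((List.Ico k0 (k1 + 1)).reverse.map (fun k e => - nh e i0 k)) ++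
  ((List.Ico i0 (i1 + 1)).map (fun i e => - nv e i k0)) ++
  ((List.Ico k0 (k1 + 1)).map (fun k e => nh e (i1 + 1) k)) ++
  ((List.Ico i0 (i1 + 1)).reverse.map (fun i e => nv e i (k1 + 1)))

open Classical in
/-- Discrete picture of a `γ`-bounded embedding: a grid with columns `0..M-1` and cyclic rows
`0..N-1`, a rectangular block of cells for each vertex, and an integer flow for each edge.
`nh e i k` is the flow of `e` from cell `(i-1,k)` to cell `(i,k)`, `nv e i k` is the flow of `e`
from cell `(i,k-1)` to cell `(i,k)` (where `nv e i N = nv e i 0` is the flow from `(i,N-1)` to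
`(i,0)`). -/
structure GridFlow {V E : Type*} (D : Gr V E) (γ : V → ℕ) where
  M : ℕ
  N : ℕ
  i0 : V → ℕ
  i1 : V → ℕ
  k0 : V → ℕ
  k1 : V → ℕ
  i01 : ∀ z, i0 z ≤ i1 z
  i1M : ∀ z, i1 z < M
  k01 : ∀ z, k0 z ≤ k1 z
  k1N : ∀ z, k1 z < N
  /-- distinct blocks are disjoint and not adjacent -/
  sep : ∀ u v, u ≠ v → i1 u + 1 < i0 v ∨ i1 v + 1 < i0 u ∨ k1 u + 1 < k0 v ∨ k1 v + 1 < k0 u
  order : ∀ u v, γ u < γ v → i1 u < i0 v
  nh : E → ℕ → ℕ → ℤ
  nv : E → ℕ → ℕ → ℤ
  nh0 : ∀ e k, nh e 0 k = 0
  nhM : ∀ e k, nh e M k = 0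
  nvN : ∀ e i, nv e i N = nv e i 0
  /-- conservation at the cells outside the blocks -/
  cons : ∀ i k, i < M → k < N → (∀ z, ¬ (i0 z ≤ i ∧ i ≤ i1 z ∧ k0 z ≤ k ∧ k ≤ k1 z)) →
    ∀ e, nh e i k + nv e i k = nh e (i + 1) k + nv e i (k + 1)
  /-- at most one edge has nonzero flow on the sides of a cell outside the blocks -/
  excl : ∀ i k, i < M → k < N → (∀ z, ¬ (i0 z ≤ i ∧ i ≤ i1 z ∧ k0 z ≤ k ∧ k ≤ k1 z)) →
    ∀ e f, e ≠ f →
      (nh e i k ≠ 0 ∨ nv e i k ≠ 0 ∨ nh e (i + 1) k ≠ 0 ∨ nv e i (k + 1) ≠ 0) →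
      nh f i k = 0 ∧ nv f i k = 0 ∧ nh f (i + 1) k = 0 ∧ nv f i (k + 1) = 0
  exh : ∀ i k e f, nh e i k ≠ 0 → nh f i k ≠ 0 → e = f
  exv : ∀ i k e f, nv e i k ≠ 0 → nv f i k ≠ 0 → e = f
  /-- each edge leaves the block of its source exactly once, with flow `1`, enters the block of
  its target exactly once, with flow `1`, and does not cross the boundary of other blocks -/
  bdry : ∀ z e, (((bdryFlow nh nv (i0 z) (i1 z) (k0 z) (k1 z)).map (fun f => f e)).filter
      (fun n => n ≠ 0)) =
    if D.src e = z then [1] else if D.tgt e = z then [-1] else []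
  left : ∀ e i k w, nh e i k ≠ 0 → γ w < γ (D.src e) → i1 w + 1 < i
  right : ∀ e i k w, nh e i k ≠ 0 → γ (D.tgt e) < γ w → i < i0 w

end CylB
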