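import Pool.Agent.Lib.MP_c5238b_co.T2lin

/-!
# Stage 2, cyclic version, and the main algebraic theorem `M1`
-/

namespace CylB

open WG

section Cyclic

variable (V E : Type*) [DecidableEq V] [DecidableEq E]

/-- the cyclic statement for sets of size at most `n` -/
def T2C (n : ℕ) : Prop :=
  ∀ (D : Gr V E) (S : Finset V), S.card ≤ n → ∀ ρ : V → List (E × Bool),
    (∀ z ∈ S, IsRot D z (ρ z)) → ∀ (w w' : List (E × Bool)) (c : FreeGroup E),
    ED w → ED w' → NoInt D S w → NoInt D S w' → PC (fun z => FreeGroup.mk (ρ z)) S c →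
    IsConj (FreeGroup.mk w') (FreeGroup.mk w * c) → ∃ l, Lst l S ∧ Movie D l w w'

variable {V E}

theorem coord_conj {p : E} {w : FreeGroup E} (hw : Phi p w = io w) (g : FreeGroup E) (k : ℤ) :
    (Phi p (g * w * g⁻¹)).f k =
      if k = (Phi p g).n then (Phi p g).f k * w * ((Phi p g).f k)⁻¹ else 1 := by
  rw [map_mul, map_mul, map_inv, hw]
  simp only [mul_f, mul_n, inv_f, io_f, io_n, add_zero, sub_add_cancel, sub_eq_zero]
  split_ifs <;> simp

theorem blockC {n : ℕ} (hT : T2L V E n) (hC : T2C V E n) (D : Gr V E) (k : ℕ) :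
    ∀ (S : Finset V) (z : V) (ρ : V → List (E × Bool)) (X V2 r w' : List (E × Bool))
      (c : FreeGroup E), V2.length ≤ k → S.card ≤ n → z ∉ S → (∀ v ∈ S, IsRot D v (ρ v)) →
      IsRot D z (FreeGroup.invRev X ++ r) →
      ED (X ++ V2) → ED w' → NoInt D (insert z S) (X ++ V2) →
      NoInt D (insert z S) w' → PC (fun v => FreeGroup.mk (ρ v)) S c →
      IsConj (FreeGroup.mk w') (FreeGroup.mk (r ++ V2) * c) →
      ∃ l, Lst l (insert z S) ∧ Movie D l (X ++ V2) w' := by
  induction k using Nat.strong_induction_on with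
  | _ k ih =>
  intro S z ρ X V2 r w' c hk hS hz hρ hrot hED hED' hNI hNI' hc heq
  have hed := hrot.ed
  by_cases hex : ∃ m ∈ V2, Inc D z m.1
  · -- collect one more leg
    obtain ⟨A, m, B, rfl, hm, hA⟩ := exists_first hex
    have hleg : ∀ b ∈ A ++ m :: B, Inc D z b.1 → (b.1, !b.2) ∈ r ∧ ∀ a ∈ w', a.1 ≠ b.1 := by
      intro b hb hinc
      refine leg hrot hinc ?_ hED' ?_
      · intro a ha
        rw [ED_append] at hED
        exact hED.2.2 a ha b hb
      · have hoth := other_not_mem (hNI b (List.mem_append_right _ hb)) hinc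
        have h2 : D.src b.1 ∉ S := fun h => hoth _ h (by rintro h'; exact hz (h' ▸ h)) (Or.inl rfl)
        have h3 : D.tgt b.1 ∉ S := fun h => hoth _ h (by rintro h'; exact hz (h' ▸ h)) (Or.inr rfl)
        rw [ex_isConj heq, ex_mul, mk_append, ex_mul, hc.exS hρ, if_neg h2, if_neg h3,
          ex_of_mem (hED.sub (List.sublist_append_right _ _)) hb]
        ring
    obtain ⟨hmr, hmw'⟩ := hleg m (by simp) hm
    obtain ⟨r1, r2, rfl⟩ := List.append_of_mem hmr
    obtain ⟨p, β⟩ := m
    simp only at hm hmr hmw'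
    -- freeness
    have hfr : (∀ a ∈ r1, a.1 ≠ p) ∧ (∀ a ∈ r2, a.1 ≠ p) := by
      rw [ED_append, ED_append, ED_cons] at hed
      exact ⟨fun a ha => hed.2.1.2.2 a ha (p, !β) (by simp), fun a ha => hed.2.1.2.1.1 a ha⟩
    have hfA : (∀ a ∈ A, a.1 ≠ p) ∧ (∀ a ∈ B, a.1 ≠ p) := by
      refine ⟨fun a ha h => hA a ha (h ▸ hm), ?_⟩
      rw [ED_append, ED_append, ED_cons] at hED
      exact fun a ha => hED.2.1.2.1.1 a ha
    have hoth := other_not_mem (hNI (p, β) (by simp)) hm
    have hσ : ∀ v ∈ S, Phi p (FreeGroup.mk (ρ v)) = io (FreeGroup.mk (ρ v)) := by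
      intro v hv
      exact (hρ v hv).free (hoth v hv (by rintro rfl; exact hz hv))
    -- coordinates
    have hu : Phi p (FreeGroup.mk r1) = io (FreeGroup.mk r1) := Phi_mk hfr.1
    have hv : Phi p (FreeGroup.mk (r2 ++ A)) = io (FreeGroup.mk (r2 ++ A)) := by
      apply Phi_mk
      intro a ha
      rcases List.mem_append.1 ha with ha | ha
      · exact hfr.2 a ha
      · exact hfA.1 a ha
    have hb : Phi p (FreeGroup.mk B) = io (FreeGroup.mk B) := Phi_mk hfA.2
    have hwf : Phi p (FreeGroup.mk w') = io (FreeGroup.mk w') := Phi_mk hmw'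
    obtain ⟨g, hg⟩ := isConj_iff.1 heq
    have heq2 : g * FreeGroup.mk w' * g⁻¹ = FreeGroup.mk r1 *
        FreeGroup.mk [(p, !β)] * FreeGroup.mk (r2 ++ A) * FreeGroup.mk [(p, !!β)] *
        FreeGroup.mk B * c := by
      rw [hg, Bool.not_not]
      simp only [← mk_append, List.append_assoc, List.cons_append, List.nil_append]
    have hcoord := coord_lin (c := c) (!β) hu hv hb
    have hcj := coord_conj hwf g
    rw [heq2] at hcj
    obtain ⟨-, ht, hPC⟩ := hc.split hσ
    set κ : ℤ → FreeGroup E := fun k => (Phi p c).f k with hκ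
    set n0 := (Phi p g).n with hn0
    have ha0 : sg (!β) ≠ 0 := sg_ne _
    have hcc : ∀ k, (if k = n0 then (Phi p g).f k * FreeGroup.mk w' * ((Phi p g).f k)⁻¹ else 1) =
        (if k = 0 then FreeGroup.mk r1 else 1) *
        (if k = sg (!β) then FreeGroup.mk (r2 ++ A) else 1) *
        (if k = 0 then FreeGroup.mk B else 1) * κ k := by
      intro k
      rw [← hcj, hcoord]
    clear hcj hcoord heq2
    have hS0 : S.filter (fun z => ht z = 0) ⊆ S := Finset.filter_subset _ _
    have hS1 : S.filter (fun z => ht z ≠ 0) ⊆ S := Finset.filter_subset _ _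
    have hz0 : z ∉ S.filter (fun z => ht z = 0) := fun h => hz (hS0 h)
    have hz1 : z ∉ S.filter (fun z => ht z ≠ 0) := fun h => hz (hS1 h)
    have hinc2 : ∀ a ∈ r2, Inc D z a.1 := fun a ha => hrot.inc (by simp [ha])
    have hinc1 : ∀ a ∈ r1, Inc D z a.1 := fun a ha => hrot.inc (by simp [ha])
    have hedr1 : ED r1 := hed.sub ((List.sublist_append_left r1 _).trans
      (List.sublist_append_right _ _))
    have hedr2 : ED r2 := hed.sub (((List.sublist_cons_self _ r2).trans
          (List.sublist_append_right r1 _)).trans (List.sublist_append_right _ _))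
    have hEDA : ED A := hED.sub ((List.sublist_append_left A _).trans
      (List.sublist_append_right _ _))
    have hEDB : ED B := hED.sub (((List.sublist_cons_self _ B).trans
          (List.sublist_append_right A _)).trans (List.sublist_append_right _ _))
    have hNIA : ∀ T : Finset V, T ⊆ S → NoInt D T A := fun T hT' a ha hcc =>
      hNI a (by simp [ha]) ⟨Finset.mem_insert_of_mem (hT' hcc.1),
        Finset.mem_insert_of_mem (hT' hcc.2)⟩
    have hNIB : ∀ T : Finset V, T ⊆ S → NoInt D T B := fun T hT' a ha hcc =>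
      hNI a (by simp [ha]) ⟨Finset.mem_insert_of_mem (hT' hcc.1),
        Finset.mem_insert_of_mem (hT' hcc.2)⟩
    have hP0 := hPC 0
    by_cases hn : n0 = 0
    · -- `w'` is at height `0`
      have h0 : IsConj (FreeGroup.mk w') (FreeGroup.mk (r1 ++ B) * κ 0) := by
        have := hcc 0
        simp only [hn, if_true, if_neg (Ne.symm ha0), mul_one] at this
        rw [mk_append, ← this]
        exact isConj_iff.2 ⟨_, rfl⟩
      have h1 : (FreeGroup.mk (FreeGroup.invRev r2) : FreeGroup E) =
          FreeGroup.mk A * κ (sg (!β)) := by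
        have := hcc (sg (!β))
        simp only [hn, if_true, if_neg ha0, mul_one, one_mul, mk_append] at this
        rw [mk_invRev, inv_eq_iff_mul_eq_one, ← mul_assoc]
        exact this.symm
      have h2 : ∀ k, k ≠ 0 → k ≠ sg (!β) → κ k = 1 := by
        intro k hk1 hk2
        have := hcc k
        simp only [hn, if_neg hk1, if_neg hk2, mul_one, one_mul] at this
        exact this.symm
      have hP1 := PC.fold hPC ha0 h2
      -- first part: A ⇝ invRev r2
      obtain ⟨l1, hl1, hL1⟩ := hT D _ ((Finset.card_le_card hS1).trans hS) ρ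
        (fun v hv => hρ v (hS1 hv)) A (FreeGroup.invRev r2) _ hEDA (ED_invRev.2 hedr2)
        (hNIA _ hS1)
        (NoInt.of_inc hz1 (fun a ha => by
          rw [mem_invRev] at ha
          exact hinc2 (a.1, !a.2) ha)) hP1 h1
      -- new state
      have hns := new_state (V1 := []) hz hS0 hρ hrot (by simp) (by simpa using hED)
        (by simpa using hNI) hNI' (fun b hb hinc => (hleg b (by simp [hb]) hinc).2) hP0 (by
          intro e
          have h3 := ex_isConj (p := e) h0
          rw [ex_mul, mk_append, ex_mul] at h3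
          rw [h3, mk_nil, ex_one, zero_add])
      have hrot' : IsRot D z (FreeGroup.invRev (X ++ FreeGroup.invRev r2 ++ [(p, β)]) ++ r1) := by
        refine hrot.perm ?_
        rw [invRev_append, invRev_append, FreeGroup.invRev_invRev]
        have h3 : FreeGroup.invRev [(p, β)] = [(p, !β)] := rfl
        rw [h3]
        have h4 : (FreeGroup.invRev X ++ (r1 ++ (p, !β) :: r2)).Perm
            ((r1 ++ (p, !β) :: r2) ++ FreeGroup.invRev X) := List.perm_append_comm
        refine h4.trans ?_
        rw [List.append_assoc]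
        refine List.perm_append_comm.trans ?_
        simp
      obtain ⟨l2, hl2, hL2⟩ := ih B.length (by
          have := hk
          rw [List.length_append, List.length_cons] at this
          omega) _ z ρ (X ++ FreeGroup.invRev r2 ++ [(p, β)]) B r1 w' _ le_rfl
        ((Finset.card_le_card hS0).trans hS) hz0 (fun v hv => hρ v (hS0 hv)) hrot'
        (by simpa using hns.1) hED'
        (by simpa using hns.2) (hNI'.mono (Finset.insert_subset_insert _ hS0)) hP0 h0
      refine ⟨l1 ++ l2, (hl1.append hl2 ?_).cast ?_, ?_⟩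
      · rw [Finset.disjoint_insert_right]
        refine ⟨hz1, ?_⟩
        rw [Finset.disjoint_left]
        intro v hv hv'
        rw [Finset.mem_filter] at hv hv'
        exact hv.2 hv'.2
      · ext v
        simp only [Finset.mem_union, Finset.mem_insert, Finset.mem_filter]
        tauto
      · refine Movie.trans ?_ hL2
        have := (hL1.ctx X ((p, β) :: B)).movie
        simpa using this
    · -- `w'` is at another height
      have h0 : (FreeGroup.mk (FreeGroup.invRev r1) : FreeGroup E) = FreeGroup.mk B * κ 0 := by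
        have := hcc 0
        simp only [if_neg (Ne.symm hn), if_true, if_neg (Ne.symm ha0), mul_one] at this
        rw [mk_invRev, inv_eq_iff_mul_eq_one, ← mul_assoc]
        exact this.symm
      have h1 : ∃ c1, PC (fun v => FreeGroup.mk (ρ v)) (S.filter (fun z => ht z ≠ 0)) c1 ∧
          IsConj (FreeGroup.mk w') (FreeGroup.mk (r2 ++ A) * c1) := by
        by_cases hna : n0 = sg (!β)
        · refine ⟨κ (sg (!β)), PC.fold hPC ha0 ?_, ?_⟩
          · intro k hk1 hk2
            have := hcc k
            simp only [hna, if_neg hk1, if_neg hk2, mul_one, one_mul] at this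
            exact this.symm
          · have := hcc (sg (!β))
            simp only [hna, if_true, if_neg ha0, mul_one, one_mul] at this
            rw [← this]
            exact isConj_iff.2 ⟨_, rfl⟩
        · refine ⟨κ (sg (!β)) * κ n0, PC.fold2 hPC ha0 hn (Ne.symm hna) ?_, ?_⟩
          · intro k hk1 hk2 hk3
            have := hcc k
            simp only [if_neg hk1, if_neg hk2, if_neg hk3, mul_one, one_mul] at this
            exact this.symm
          · have h2 := hcc (sg (!β))
            simp only [if_neg (Ne.symm hna), if_true, if_neg ha0, mul_one, one_mul] at h2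
            have h3 := hcc n0
            simp only [if_true, if_neg hn, if_neg hna, mul_one, one_mul] at h3
            rw [← mul_assoc, ← h2, one_mul, ← h3]
            exact isConj_iff.2 ⟨_, rfl⟩
      obtain ⟨c1, hP1, hcon⟩ := h1
      -- first part: B ⇝ invRev r1
      obtain ⟨l0, hl0, hL0⟩ := hT D _ ((Finset.card_le_card hS0).trans hS) ρ
        (fun v hv => hρ v (hS0 hv)) B (FreeGroup.invRev r1) _ hEDB (ED_invRev.2 hedr1)
        (hNIB _ hS0)
        (NoInt.of_inc hz0 (fun a ha => by
          rw [mem_invRev] at ha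
          exact hinc1 (a.1, !a.2) ha)) hP0 h0
      -- last part
      have hEDrA : ED (r2 ++ A) := by
        rw [ED_append]
        exact ⟨hedr2, hEDA, fun a ha b hb hab => hA b hb (hab ▸ hinc2 a ha)⟩
      obtain ⟨l1, hl1, hL1⟩ := hC D _ ((Finset.card_le_card hS1).trans hS) ρ
        (fun v hv => hρ v (hS1 hv)) (r2 ++ A) w' c1 hEDrA hED' (by
          intro a ha
          rcases List.mem_append.1 ha with ha | ha
          · exact NoInt.of_inc hz1 hinc2 a ha
          · exact hNIA _ hS1 a ha)
        (hNI'.mono (hS1.trans (Finset.subset_insert _ _))) hP1 hcon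
      refine ⟨l0 ++ z :: l1, (hl0.append (hl1.cons hz1) ?_).cast ?_, ?_⟩
      · rw [Finset.disjoint_insert_right]
        refine ⟨hz0, ?_⟩
        rw [Finset.disjoint_left]
        intro v hv hv'
        rw [Finset.mem_filter] at hv hv'
        exact hv'.2 hv.2
      · ext v
        simp only [Finset.mem_union, Finset.mem_insert, Finset.mem_filter]
        tauto
      · have hM0 := (hL0.ctx (X ++ A ++ [(p, β)]) []).movie
        have e1 : X ++ A ++ [(p, β)] ++ B ++ [] = X ++ (A ++ (p, β) :: B) := by simp
        rw [e1] at hM0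
        refine hM0.trans (Movie.cons (x := (p, β) :: FreeGroup.invRev r1 ++ X) (y := r2) (s := A)
          ?_ ?_ hL1)
        · have e2 : FreeGroup.invRev ((p, β) :: FreeGroup.invRev r1 ++ X) ++ r2 =
              FreeGroup.invRev X ++ (r1 ++ (p, !β) :: r2) := by
            have e3 : (p, β) :: FreeGroup.invRev r1 ++ X = ([(p, β)] ++ FreeGroup.invRev r1) ++ X :=
              by simp
            have h3 : FreeGroup.invRev [(p, β)] = [(p, !β)] := rfl
            rw [e3, invRev_append, invRev_append, FreeGroup.invRev_invRev, h3]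
            simp
          rw [e2]
          exact hrot
        · have := isRotated_append (X ++ A) ((p, β) :: FreeGroup.invRev r1)
          simpa using this
  · -- no more legs: event
    push Not at hex
    have hincr : ∀ a ∈ r, Inc D z a.1 := fun a ha => hrot.inc (by simp [ha])
    obtain ⟨l, hl, hL⟩ := hC D S hS ρ hρ (r ++ V2) w' c (by
        rw [ED_append]
        exact ⟨hed.sub (List.sublist_append_right _ _), hED.sub (List.sublist_append_right _ _),
          fun a ha b hb hab => hex b hb (hab ▸ hincr a ha)⟩) hED'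
      (by
        intro a ha hcc
        rcases List.mem_append.1 ha with ha | ha
        · exact NoInt.of_inc hz hincr a ha hcc
        · exact hNI a (by simp [ha]) ⟨Finset.mem_insert_of_mem hcc.1, Finset.mem_insert_of_mem hcc.2⟩)
      (hNI'.mono (Finset.subset_insert _ _)) hc heq
    exact ⟨z :: l, hl.cons hz, Movie.cons hrot (List.IsRotated.refl _) hL⟩

theorem caseC {n : ℕ} (hT : T2L V E n) (hC : T2C V E n) (D : Gr V E) (S : Finset V)
    (hS : S.card ≤ n + 1)
    (ρ : V → List (E × Bool)) (hρ : ∀ z ∈ S, IsRot D z (ρ z)) (w w' : List (E × Bool))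
    (c : FreeGroup E) (hED : ED w) (hED' : ED w') (hNI : NoInt D S w) (hNI' : NoInt D S w')
    (hc : PC (fun z => FreeGroup.mk (ρ z)) S c)
    (heq : IsConj (FreeGroup.mk w') (FreeGroup.mk w * c))
    (hex : ∃ z ∈ S, ∃ a ∈ w, Inc D z a.1) : ∃ l, Lst l S ∧ Movie D l w w' := by
  obtain ⟨z, hz, ⟨p, b⟩, hmem, hm⟩ := hex
  obtain ⟨V1, V2, rfl⟩ := List.append_of_mem hmem
  simp only at hm
  have hins : insert z (S.erase z) = S := Finset.insert_erase hz
  have hoth : ∀ v ∈ S, v ≠ z → ¬ Inc D v p := by
    intro v hv hvz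
    refine other_not_mem (S := S.erase z) (z := z) ?_ hm v (Finset.mem_erase.2 ⟨hvz, hv⟩) hvz
    rw [hins]
    exact hNI (p, b) (by simp)
  have hexc : ex p c = ex p (FreeGroup.mk (ρ z)) := by
    rw [hc.exS hρ, (hρ z hz).ex]
    have h1 : D.src p ∈ S ↔ D.src p = z := by
      constructor
      · intro h
        by_contra hcon
        exact hoth _ h hcon (Or.inl rfl)
      · rintro rfl; exact hz
    have h2 : D.tgt p ∈ S ↔ D.tgt p = z := by
      constructor
      · intro h
        by_contra hcon
        exact hoth _ h hcon (Or.inr rfl)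
      · rintro rfl; exact hz
    simp only [h1, h2]
  obtain ⟨hmr, hmw'⟩ := leg (D := D) (z := z) (X := []) (r := ρ z) (m := (p, b)) (w' := w')
    (by simpa using hρ z hz) hm (by simp) hED' (by
      rw [ex_isConj heq, ex_mul, hexc, ex_of_mem hED (a := (p, b)) (by simp)]
      ring)
  simp only at hmr hmw'
  obtain ⟨ra, rb, hr⟩ := List.append_of_mem hmr
  -- rotate
  have hperm : (V1 ++ (p, b) :: V2).Perm ((p, b) :: (V2 ++ V1)) := by
    refine List.perm_append_comm.trans ?_
    simp
  have hc' : PC (fun z => FreeGroup.mk (ρ z)) S ((FreeGroup.mk V1)⁻¹ * c * FreeGroup.mk V1) := by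
    simpa using hc.conj (FreeGroup.mk V1)⁻¹
  have heq' : IsConj (FreeGroup.mk w') (FreeGroup.mk ((p, b) :: (V2 ++ V1)) *
      ((FreeGroup.mk V1)⁻¹ * c * FreeGroup.mk V1)) := by
    refine heq.trans (isConj_iff.2 ⟨(FreeGroup.mk V1)⁻¹, ?_⟩)
    rw [mk_append, mk_cons, mk_cons _ (V2 ++ V1), mk_append V2]
    group
  obtain ⟨v, hv1, hv2⟩ := pull hz hρ hc' hr hoth
  have hED2 := hED.perm hperm
  have hED3 := hED2
  rw [ED_cons] at hED3
  have heq2 : IsConj (FreeGroup.mk w') (FreeGroup.mk ((rb ++ ra) ++ (V2 ++ V1)) *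
      subst p v ((FreeGroup.mk V1)⁻¹ * c * FreeGroup.mk V1)) := by
    obtain ⟨g, hg⟩ := isConj_iff.1 heq'
    have h3 := congrArg (subst p v) hg
    rw [map_mul, map_mul, subst_mk p v hmw', map_mul _ (FreeGroup.mk ((p, b) :: (V2 ++ V1))),
      mk_cons, map_mul _ (FreeGroup.mk [(p, b)]), hv1, subst_mk p v (fun a ha => hED3.1 a ha),
      map_inv] at h3
    refine isConj_iff.2 ⟨subst p v g, ?_⟩
    rw [h3, mk_append (rb ++ ra)]
  obtain ⟨l, hl, hL⟩ := blockC hT hC D (V2 ++ V1).length (S.erase z) z ρ [(p, b)] (V2 ++ V1)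
    (rb ++ ra) w'
    (subst p v ((FreeGroup.mk V1)⁻¹ * c * FreeGroup.mk V1)) le_rfl
    (by rw [Finset.card_erase_of_mem hz]; omega) (Finset.notMem_erase z S)
    (fun v hv => hρ v (Finset.mem_of_mem_erase hv))
    ((hρ z hz).perm (by
      rw [hr]
      have h3 : FreeGroup.invRev [(p, b)] = [(p, !b)] := rfl
      rw [h3]
      refine List.perm_append_comm.trans ?_
      simp))
    (by simpa using hED2) hED' (by
      rw [hins]
      intro a ha
      exact hNI a (hperm.mem_iff.2 (by simpa using ha))) (by rw [hins]; exact hNI') hv2 heq2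
  refine ⟨l, hl.cast hins, Movie.rotl ?_ hL⟩
  have := isRotated_append V1 ((p, b) :: V2)
  simpa using this

theorem T2C_zero : T2C V E 0 := by
  intro D S hS ρ hρ w w' c hED hED' _ _ hc heq
  have hS0 : S = ∅ := Finset.card_eq_zero.1 (by omega)
  subst hS0
  have hc1 : c = 1 := hc.eq_one (by simp)
  rw [hc1, mul_one] at heq
  exact ⟨[], ⟨List.nodup_nil, by simp⟩, Movie.nil (cycED hED hED' heq)⟩

theorem T2C_all (n : ℕ) : T2C V E n := by
  classical
  induction n with
  | zero => exact T2C_zero
  | succ n ih =>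
    intro D S hS ρ hρ w w' c hED hED' hNI hNI' hc heq
    by_cases hL : ∃ z ∈ S, ∃ a ∈ w, Inc D z a.1
    · exact caseC (T2L_all n) ih D S hS ρ hρ w w' c hED hED' hNI hNI' hc heq hL
    by_cases hR : ∃ z ∈ S, ∃ a ∈ w', Inc D z a.1
    · obtain ⟨g, hg⟩ := isConj_iff.1 heq
      obtain ⟨l, hl, hLin⟩ := caseC (T2L_all n) ih D.swap S hS (fun z => FreeGroup.invRev (ρ z))
        (fun z hz => (hρ z hz).swap) w' w (g⁻¹ * c⁻¹ * g) hED' hED hNI'.swap hNI.swap
        (by
          have := (hc.inv.congr' (σ' := fun z => FreeGroup.mk (FreeGroup.invRev (ρ z)))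
            (fun z _ => (mk_invRev _).symm)).conj g⁻¹
          simpa using this)
        (isConj_iff.2 ⟨g⁻¹, by
          have : FreeGroup.mk w = g * FreeGroup.mk w' * g⁻¹ * c⁻¹ := by rw [hg]; group
          rw [this]; group⟩)
        (by
          obtain ⟨z, hz, a, ha, h⟩ := hR
          exact ⟨z, hz, a, ha, h.symm⟩)
      exact ⟨l.reverse, hl.reverse, hLin.rev⟩
    · push Not at hL hR
      have hk := keep_closed (D := D) (S := S) (ρ := ρ) (fun e => ∀ z ∈ S, ¬ Inc D z e)
        (fun e h => h) hρ
      obtain ⟨g, hg⟩ := isConj_iff.1 heq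
      have h1 := congrArg (keep (fun e => ∀ z ∈ S, ¬ Inc D z e)) hg
      rw [map_mul, map_mul, map_mul, (hc.map _).eq_one hk, mul_one,
        keep_eq_self _ (fun a ha z hz => hR z hz a ha),
        keep_eq_self _ (fun a ha z hz => hL z hz a ha), map_inv] at h1
      have h2 : w.IsRotated w' := cycED hED hED' (isConj_iff.2 ⟨_, h1⟩)
      have h3 := congrArg (keep (fun e => ∃ z ∈ S, Inc D z e)) hg
      rw [map_mul, map_mul, map_mul,
        keep_eq_one _ (fun a ha h => by
          obtain ⟨z, hz, h⟩ := h
          exact hR z hz a ha h),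
        keep_eq_one _ (fun a ha h => by
          obtain ⟨z, hz, h⟩ := h
          exact hL z hz a ha h), map_inv] at h3
      have h4 : keep (fun e => ∃ z ∈ S, Inc D z e) c = 1 := by
        simpa using h3.symm
      have h5 : PC (fun z => (FreeGroup.mk (ρ z) : FreeGroup E)) S 1 := by
        have := hc.map (keep (fun e => ∃ z ∈ S, Inc D z e))
        rw [h4] at this
        refine this.congr' ?_
        intro z hz
        exact keep_eq_self _ (fun a ha => ⟨z, hz, (hρ z hz).inc ha⟩)
      obtain ⟨l, hl, hLin⟩ := closed_core (T2L_all n) D S hS ρ hρ h5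
      refine ⟨l, hl, Movie.rotr ?_ h2⟩
      simpa using (hLin.ctx w []).movie

end Cyclic

section Main

variable {V E : Type*} [Fintype V] [DecidableEq V] [Finite E]

theorem M1 (D : Gr V E) (γ : V → ℕ) (h : HypH D γ) :
    ∃ l : List V, l.Nodup ∧ (∀ v, v ∈ l) ∧ l.Pairwise (fun u v => γ u ≤ γ v) ∧
      Movie D l [] [] := by
  classical
  obtain ⟨ρ, W, hρ, hW⟩ := stage1 h
  have hED : ∀ j, ED (W j) := by
    intro j
    unfold ED
    rw [List.nodup_iff_count_le_one]
    intro e
    rw [List.count_eq_countP, List.countP_map, List.countP_eq_length_filter]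
    by_cases he : ∃ a ∈ W j, a.1 = e
    · obtain ⟨a, ha, rfl⟩ := he
      have h1 := hW.mem j a ha
      have h2 := hW.pr a.1 (Set.mem_univ _) j h1.1 h1.2
      have h3 : (List.filter ((fun x => x == a.1) ∘ Prod.fst) (W j)) =
          (W j).filter (fun x => decide (x.1 = a.1)) := by
        apply List.filter_congr
        intro x _
        by_cases hx : x.1 = a.1
        · simp [hx]
        · simp [hx]
      rw [h3, h2]; simp
    · push Not at he
      rw [List.filter_eq_nil_iff.2]
      · simp
      · intro a ha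
        simpa using he a ha
  have key : ∀ j, ∃ l : List V, l.Nodup ∧ (∀ v, v ∈ l ↔ γ v < j) ∧
      l.Pairwise (fun u v => γ u ≤ γ v) ∧ Movie D l (W 0) (W j) := by
    intro j
    induction j with
    | zero => exact ⟨[], List.nodup_nil, by simp, List.Pairwise.nil, Movie.nil (List.IsRotated.refl _)⟩
    | succ j ih =>
      obtain ⟨l, h1, h2, h3, h4⟩ := ih
      obtain ⟨c, hc, hcon⟩ := hW.rel j
      obtain ⟨l', hl', hM⟩ := T2C_all (V := V) (E := E) _ D
        (Finset.univ.filter (fun z => γ z = j)) le_rfl ρ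
        (fun z _ => hρ z) (W j) (W (j + 1)) c (hED j) (hED (j + 1))
        (by
          rintro a ha ⟨h5, h6⟩
          have := hW.mem j a ha
          rw [Finset.mem_filter] at h5
          omega)
        (by
          rintro a ha ⟨h5, h6⟩
          have := hW.mem (j + 1) a ha
          rw [Finset.mem_filter] at h6
          omega) hc hcon
      have hl'' : ∀ v, v ∈ l' ↔ γ v = j := by
        intro v
        rw [hl'.2]
        simp
      refine ⟨l ++ l', ?_, ?_, ?_, h4.trans hM⟩
      · rw [List.nodup_append']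
        refine ⟨h1, hl'.1, ?_⟩
        intro v hv hv'
        rw [h2] at hv
        rw [hl''] at hv'
        omega
      · intro v
        rw [List.mem_append, h2, hl'']
        omega
      · rw [List.pairwise_append]
        refine ⟨h3, ?_, ?_⟩
        · refine List.Pairwise.imp_of_mem ?_ hl'.1
          intro a b ha hb _
          rw [hl''] at ha hb
          omega
        · intro a ha b hb
          rw [h2] at ha
          rw [hl''] at hb
          omega
  obtain ⟨l, h1, h2, h3, h4⟩ := key (Finset.univ.sup γ + 1)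
  have hW0 : W 0 = [] := by
    rw [List.eq_nil_iff_forall_not_mem]
    intro a ha
    have := hW.mem 0 a ha
    omega
  have hsup : ∀ v, γ v < Finset.univ.sup γ + 1 := fun v =>
    Nat.lt_succ_of_le (Finset.le_sup (f := γ) (Finset.mem_univ v))
  have hWJ : W (Finset.univ.sup γ + 1) = [] := by
    rw [List.eq_nil_iff_forall_not_mem]
    intro a ha
    have := hW.mem _ a ha
    have := hsup (D.tgt a.1)
    omega
  rw [hW0, hWJ] at h4
  exact ⟨l, h1, fun v => (h2 v).2 (hsup v), h3, h4⟩

end Main

end CylB
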