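import Mathlib
import Pool.Agent.Lib.MP_c5238b_co.Defs

/-!
# MP_c5238b_co, module M2: realisation of a bend-free movie as a radial embedding
-/

namespace CylB
namespace Real2

variable {V E : Type*}

theorem unfold {D : Gr V E} {l : List V} {w w' : List (E × Bool)} (h : Movie D l w w') :
    ∃ (W x y s : ℕ → List (E × Bool)), W 0 = w ∧ (W l.length).IsRotated w' ∧
      ∀ k (hk : k < l.length), IsRot D l[k] (FreeGroup.invRev (x k) ++ y k) ∧
        (W k).IsRotated (x k ++ s k) ∧ W (k + 1) = y k ++ s k := by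
  induction h with
  | @nil w w' h =>
    exact ⟨fun _ => w, fun _ => [], fun _ => [], fun _ => [], rfl, h, fun k hk => by simp at hk⟩
  | @cons z l w x y s w' h1 h2 h3 ih =>
    obtain ⟨W, X, Y, S, hW0, hWn, hstep⟩ := ih
    refine ⟨fun k => Nat.casesOn k w W, fun k => Nat.casesOn k x X, fun k => Nat.casesOn k y Y,
      fun k => Nat.casesOn k s S, rfl, hWn, ?_⟩
    intro k hk
    cases k with
    | zero => exact ⟨h1, h2, hW0⟩
    | succ k => exact hstep k (by simpa using hk)

lemma isRot_fst {D : Gr V E} {z : V} {x y : List (E × Bool)}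
    (h : IsRot D z (FreeGroup.invRev x ++ y)) :
    (x.map Prod.fst ++ y.map Prod.fst).Nodup ∧
      ∀ e, e ∈ x.map Prod.fst ++ y.map Prod.fst ↔ (D.src e = z ∨ D.tgt e = z) := by
  obtain ⟨h1, h2⟩ := h
  have e1 : (FreeGroup.invRev x ++ y).map Prod.fst = (x.map Prod.fst).reverse ++ y.map Prod.fst := by
    simp [FreeGroup.invRev, List.map_reverse, Function.comp_def]
  have hp : ((x.map Prod.fst).reverse ++ y.map Prod.fst).Perm
      (x.map Prod.fst ++ y.map Prod.fst) := (List.reverse_perm _).append_right _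
  constructor
  · rw [← hp.nodup_iff, ← e1]
    refine List.Nodup.map_on ?_ h1
    rintro ⟨e, b⟩ hb ⟨e', b'⟩ hb' hee
    simp only at hee
    subst hee
    rw [h2] at hb hb'
    rcases hb with ⟨r1, r2⟩ | ⟨r1, r2⟩ <;> rcases hb' with ⟨r3, r4⟩ | ⟨r3, r4⟩ <;>
      simp only at r1 r2 r3 r4
    · rw [r1, r3]
    · exact absurd (r2.trans r4.symm) (D.ne e)
    · exact absurd (r4.trans r2.symm) (D.ne e)
    · rw [r1, r3]
  · intro e
    rw [← hp.mem_iff, ← e1, List.mem_map]
    constructor
    · rintro ⟨⟨e', b⟩, hb, rfl⟩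
      rw [h2] at hb
      rcases hb with ⟨-, r2⟩ | ⟨-, r2⟩
      · exact Or.inl r2
      · exact Or.inr r2
    · rintro (h | h)
      · exact ⟨(e, true), (h2 _).2 (Or.inl ⟨rfl, h⟩), rfl⟩
      · exact ⟨(e, false), (h2 _).2 (Or.inr ⟨rfl, h⟩), rfl⟩

/-- The edge sequence of a movie. -/
structure EM (D : Gr V E) (l : List V) (W A B S : ℕ → List E) : Prop where
  w0 : W 0 = []
  wn : W l.length = []
  nd : ∀ k, k < l.length → (A k ++ B k).Nodup
  inc : ∀ k (hk : k < l.length), ∀ e, e ∈ A k ++ B k ↔ (D.src e = l[k] ∨ D.tgt e = l[k])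
  rot : ∀ k, k < l.length → (W k).IsRotated (A k ++ S k)
  next : ∀ k, k < l.length → W (k + 1) = B k ++ S k

theorem exists_EM {D : Gr V E} {l : List V} (h : Movie D l [] []) :
    ∃ W A B S, EM D l W A B S := by
  obtain ⟨W, x, y, s, h0, h1, h2⟩ := unfold h
  refine ⟨fun k => (W k).map Prod.fst, fun k => (x k).map Prod.fst, fun k => (y k).map Prod.fst,
    fun k => (s k).map Prod.fst, ?_, ?_, ?_, ?_, ?_, ?_⟩
  · simp [h0]
  · rw [List.isRotated_nil_iff] at h1
    simp [h1]
  · intro k hk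
    exact (isRot_fst (h2 k hk).1).1
  · intro k hk
    exact (isRot_fst (h2 k hk).1).2
  · intro k hk
    have := (h2 k hk).2.1.map Prod.fst
    rwa [List.map_append] at this
  · intro k hk
    show (W (k + 1)).map Prod.fst = _
    rw [(h2 k hk).2.2, List.map_append]

section angles

variable [DecidableEq E]

/-- generic angle -/
noncomputable def gen (L : List E) (e : E) : ℝ := (L.idxOf e + 1 : ℝ) / (L.length + 1)

/-- angle at an event line -/
noncomputable def ev (S : List E) (e : E) : ℝ := if e ∈ S then gen S e else 0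

lemma gen_pos (L : List E) (e : E) : 0 < gen L e := by
  unfold gen
  positivity

lemma gen_lt_one {L : List E} {e : E} (he : e ∈ L) : gen L e < 1 := by
  unfold gen
  rw [div_lt_one (by positivity)]
  have : L.idxOf e < L.length := List.idxOf_lt_length_iff.2 he
  have : (L.idxOf e : ℝ) < L.length := by exact_mod_cast this
  linarith

lemma gen_pairwise {L : List E} (hL : L.Nodup) : L.Pairwise fun e f => gen L e < gen L f := by
  rw [List.pairwise_iff_getElem]
  intro i j hi hj hij
  unfold gen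
  rw [hL.idxOf_getElem i hi, hL.idxOf_getElem j hj]
  have : (i:ℝ) < j := by exact_mod_cast hij
  gcongr

lemma ev_nonneg (S : List E) (e : E) : 0 ≤ ev S e := by
  unfold ev
  split_ifs
  · exact (gen_pos _ _).le
  · exact le_rfl

lemma ev_lt_one (S : List E) (e : E) : ev S e < 1 := by
  unfold ev
  split_ifs with h
  · exact gen_lt_one h
  · exact one_pos

lemma ev_pairwise {A S : List E} (hL : (A ++ S).Nodup) :
    (A ++ S).Pairwise fun e f => ev S e ≤ ev S f := by
  rw [List.nodup_append'] at hL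
  obtain ⟨h1, h2, h3⟩ := hL
  rw [List.pairwise_append]
  have hA : ∀ e ∈ A, ev S e = 0 := by
    intro e he
    unfold ev
    rw [if_neg (fun h => h3 he h)]
  refine ⟨?_, ?_, ?_⟩
  · refine List.Pairwise.imp_of_mem (R := fun _ _ => True) ?_
      (List.pairwise_of_forall fun _ _ => trivial)
    intro a b ha hb _
    rw [hA a ha, hA b hb]
  · refine (gen_pairwise h2).imp_of_mem ?_
    intro a b ha hb hab
    unfold ev
    rw [if_pos ha, if_pos hb]
    exact hab.le
  · intro a ha b hb
    rw [hA a ha]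
    exact ev_nonneg _ _

lemma mk_ne {a b : ℝ} (h0 : 0 < a - b) (h1 : a - b < 1) : (a : UnitAddCircle) ≠ (b : ℝ) := by
  intro h
  have h2 : ((a - b : ℝ) : UnitAddCircle) = 0 := by rw [AddCircle.coe_sub, h, sub_self]
  rw [AddCircle.coe_eq_zero_iff] at h2
  obtain ⟨n, hn⟩ := h2
  rw [zsmul_eq_mul, mul_one] at hn
  rw [← hn] at h0 h1
  have h3 : 0 < n := by exact_mod_cast h0
  have h4 : n < 1 := by exact_mod_cast h1
  omega

lemma slab_even {w A S : List E} (hnd : (A ++ S).Nodup) (hrot : w.IsRotated (A ++ S)) :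
    ∃ β : E → ℝ, (∀ e, ((β e : ℝ) : UnitAddCircle) = (ev S e : ℝ)) ∧
      w.Pairwise fun e f => 0 ≤ β f - β e ∧ β f - β e ≤ 1 := by
  rw [List.isRotated_iff_mod] at hrot
  obtain ⟨n, hn, hr⟩ := hrot
  rw [List.rotate_eq_drop_append_take hn] at hr
  have hw : w = w.take n ++ w.drop n := (List.take_append_drop n w).symm
  obtain ⟨u, hu⟩ : ∃ u, u = w.take n := ⟨_, rfl⟩
  obtain ⟨v, hv⟩ : ∃ v, v = w.drop n := ⟨_, rfl⟩
  rw [← hu, ← hv] at hr hw
  have hp := ev_pairwise hnd
  rw [← hr] at hp hnd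
  rw [List.pairwise_append] at hp
  rw [List.nodup_append'] at hnd
  obtain ⟨hpv, hpu, hpc⟩ := hp
  obtain ⟨-, -, hdis⟩ := hnd
  refine ⟨fun e => if e ∈ u then ev S e - 1 else ev S e, ?_, ?_⟩
  · intro e
    by_cases he : e ∈ u
    · simp only [if_pos he]
      rw [AddCircle.coe_sub]
      have : ((1:ℝ) : UnitAddCircle) = 0 := AddCircle.coe_period 1
      rw [this, sub_zero]
    · simp only [if_neg he]
  · rw [hw, List.pairwise_append]
    refine ⟨?_, ?_, ?_⟩
    · refine hpu.imp_of_mem ?_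
      intro a b ha hb hab
      simp only [if_pos ha, if_pos hb]
      have := ev_nonneg S a
      have := ev_lt_one S b
      constructor <;> linarith
    · refine hpv.imp_of_mem ?_
      intro a b ha hb hab
      simp only [if_neg (hdis ha), if_neg (hdis hb)]
      have := ev_nonneg S a
      have := ev_lt_one S b
      constructor <;> linarith
    · intro a ha b hb
      simp only [if_pos ha, if_neg (hdis hb)]
      have := hpc b hb a ha
      have := ev_nonneg S b
      have := ev_lt_one S a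
      constructor <;> linarith

/-- two strands do not meet strictly inside a slab -/
lemma conv_ne {a a' b b' t : ℝ} (h1 : 0 < a' - a) (h2 : a' - a < 1) (h3 : 0 ≤ b' - b)
    (h4 : b' - b ≤ 1) (ht : 0 ≤ t) (ht1 : t < 1) :
    ((a' + (b' - a') * t : ℝ) : UnitAddCircle) ≠ (a + (b - a) * t : ℝ) := by
  have e : a' + (b' - a') * t - (a + (b - a) * t) = (1 - t) * (a' - a) + t * (b' - b) := by ring
  refine mk_ne ?_ ?_
  · rw [e]
    have := mul_pos (sub_pos.2 ht1) h1
    have := mul_nonneg ht h3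
    linarith
  · rw [e]
    have : (1 - t) * (a' - a) < (1 - t) * 1 := mul_lt_mul_of_pos_left h2 (sub_pos.2 ht1)
    have : t * (b' - b) ≤ t * 1 := mul_le_mul_of_nonneg_left h4 ht
    linarith

lemma gen_sub_lt {L : List E} {e f : E} (hf : f ∈ L) : gen L f - gen L e < 1 := by
  have := gen_pos L e
  have := gen_lt_one hf
  linarith

/-- the strands of an even slab (generic line to event line) -/
lemma even_ne {w : List E} (hw : w.Nodup) {β : E → ℝ}
    (hβ : w.Pairwise fun e f => 0 ≤ β f - β e ∧ β f - β e ≤ 1) {e f : E} (he : e ∈ w)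
    (hf : f ∈ w) (hef : e ≠ f) {t : ℝ} (ht : 0 ≤ t) (ht1 : t < 1) :
    ((gen w e + (β e - gen w e) * t : ℝ) : UnitAddCircle) ≠
      (gen w f + (β f - gen w f) * t : ℝ) := by
  have key : w.Pairwise fun e f => ((gen w e + (β e - gen w e) * t : ℝ) : UnitAddCircle) ≠
      (gen w f + (β f - gen w f) * t : ℝ) := by
    refine ((gen_pairwise hw).and hβ).imp_of_mem ?_
    intro a b ha hb hab
    exact (conv_ne (by linarith [hab.1]) (gen_sub_lt hb) hab.2.1 hab.2.2 ht ht1).symm
  have : Std.Symm fun e f => ((gen w e + (β e - gen w e) * t : ℝ) : UnitAddCircle) ≠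
      (gen w f + (β f - gen w f) * t : ℝ) := ⟨fun _ _ h => h.symm⟩
  exact key.forall he hf hef

/-- the strands of an odd slab (event line to generic line) -/
lemma odd_ne {B S : List E} (hw : (B ++ S).Nodup) {e f : E} (he : e ∈ B ++ S)
    (hf : f ∈ B ++ S) (hef : e ≠ f) {t : ℝ} (ht : 0 < t) (ht1 : t ≤ 1) :
    ((ev S e + (gen (B ++ S) e - ev S e) * t : ℝ) : UnitAddCircle) ≠
      (ev S f + (gen (B ++ S) f - ev S f) * t : ℝ) := by
  have key : (B ++ S).Pairwise fun e f =>
      ((ev S e + (gen (B ++ S) e - ev S e) * t : ℝ) : UnitAddCircle) ≠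
      (ev S f + (gen (B ++ S) f - ev S f) * t : ℝ) := by
    refine ((gen_pairwise hw).and (ev_pairwise hw)).imp_of_mem ?_
    intro a b ha hb hab
    have h1 := conv_ne (a := gen (B ++ S) a) (a' := gen (B ++ S) b) (b := ev S a) (b' := ev S b)
      (t := 1 - t) (by linarith [hab.1]) (gen_sub_lt hb) (by linarith [hab.2])
      (by linarith [ev_nonneg S a, ev_lt_one S b]) (by linarith) (by linarith)
    have e1 : gen (B ++ S) b + (ev S b - gen (B ++ S) b) * (1 - t) =
        ev S b + (gen (B ++ S) b - ev S b) * t := by ring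
    have e2 : gen (B ++ S) a + (ev S a - gen (B ++ S) a) * (1 - t) =
        ev S a + (gen (B ++ S) a - ev S a) * t := by ring
    rw [e1, e2] at h1
    exact h1.symm
  have : Std.Symm fun e f =>
      ((ev S e + (gen (B ++ S) e - ev S e) * t : ℝ) : UnitAddCircle) ≠
      (ev S f + (gen (B ++ S) f - ev S f) * t : ℝ) := ⟨fun _ _ h => h.symm⟩
  exact key.forall he hf hef

lemma ev_ne_zero {S : List E} {e : E} (he : e ∈ S) : ((ev S e : ℝ) : UnitAddCircle) ≠ 0 := by
  have h1 : 0 < ev S e := by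
    unfold ev
    rw [if_pos he]
    exact gen_pos _ _
  have := mk_ne (a := ev S e) (b := 0) (by linarith) (by linarith [ev_lt_one S e])
  simpa using this

lemma ev_ne {S : List E} (hS : S.Nodup) {e f : E} (he : e ∈ S) (hf : f ∈ S) (hef : e ≠ f) :
    ((ev S e : ℝ) : UnitAddCircle) ≠ (ev S f : ℝ) := by
  have key : S.Pairwise fun e f => ((ev S e : ℝ) : UnitAddCircle) ≠ (ev S f : ℝ) := by
    refine (gen_pairwise hS).imp_of_mem ?_
    intro a b ha hb hab
    unfold ev
    rw [if_pos ha, if_pos hb]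
    exact (mk_ne (by linarith) (gen_sub_lt hb)).symm
  have : Std.Symm fun e f => ((ev S e : ℝ) : UnitAddCircle) ≠ (ev S f : ℝ) :=
    ⟨fun _ _ h => h.symm⟩
  exact key.forall he hf hef

end angles

section counting

/-- the counting lemma -/
lemma count_aux {c : ℕ → ℕ} {n a b : ℕ} (hab : a < b) (hb : b < n) (h0 : c 0 = 0) (hn : c n = 0)
    (hs : ∀ k, k < n → k ≠ a → k ≠ b → c (k + 1) = c k) (ha : c a = 0 → c (a + 1) = 1) :
    ∀ k, k ≤ n → c k = if a < k ∧ k ≤ b then 1 else 0 := by
  have h1 : ∀ k, k ≤ a → c k = 0 := by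
    intro k
    induction k with
    | zero => intro _; exact h0
    | succ k ih => intro hk; rw [hs k (by omega) (by omega) (by omega)]; exact ih (by omega)
  have h2 : ∀ d, a + 1 + d ≤ b → c (a + 1 + d) = 1 := by
    intro d
    induction d with
    | zero => intro _; exact ha (h1 a le_rfl)
    | succ d ih =>
      intro hd
      have := hs (a + 1 + d) (by omega) (by omega) (by omega)
      rw [← add_assoc, this]
      exact ih (by omega)
  have h3 : ∀ d, d + b < n → c (n - d) = 0 := by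
    intro d
    induction d with
    | zero => intro _; simpa using hn
    | succ d ih =>
      intro hd
      have h4 := hs (n - (d + 1)) (by omega) (by omega) (by omega)
      have h5 : n - (d + 1) + 1 = n - d := by omega
      rw [h5] at h4
      rw [← h4]
      exact ih (by omega)
  intro k hk
  split_ifs with h
  · have := h2 (k - (a + 1)) (by omega)
    have e : a + 1 + (k - (a + 1)) = k := by omega
    rwa [e] at this
  · by_cases hka : k ≤ a
    · exact h1 k hka
    · have := h3 (n - k) (by omega)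
      have e : n - (n - k) = k := by omega
      rwa [e] at this

variable [DecidableEq E] [DecidableEq V] {D : Gr V E} {l : List V} {W A B S : ℕ → List E}

/-- first end -/
def lo (D : Gr V E) (l : List V) (e : E) : ℕ := min (l.idxOf (D.src e)) (l.idxOf (D.tgt e))
/-- last end -/
def hi (D : Gr V E) (l : List V) (e : E) : ℕ := max (l.idxOf (D.src e)) (l.idxOf (D.tgt e))

lemma lo_lt_hi (hmem : ∀ v, v ∈ l) (e : E) : lo D l e < hi D l e := by
  have : l.idxOf (D.src e) ≠ l.idxOf (D.tgt e) := fun h =>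
    D.ne e ((List.idxOf_inj (hmem _)).1 h)
  unfold lo hi
  omega

lemma hi_lt (hmem : ∀ v, v ∈ l) (e : E) : hi D l e < l.length := by
  have h1 := List.idxOf_lt_length_iff.2 (hmem (D.src e))
  have h2 := List.idxOf_lt_length_iff.2 (hmem (D.tgt e))
  unfold hi
  omega

lemma inc_iff (hnd : l.Nodup) (hmem : ∀ v, v ∈ l) (e : E) {k : ℕ} (hk : k < l.length) :
    (D.src e = l[k] ∨ D.tgt e = l[k]) ↔ (k = lo D l e ∨ k = hi D l e) := by
  have h1 : ∀ v, (v = l[k] ↔ l.idxOf v = k) := by
    intro v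
    constructor
    · rintro rfl
      exact hnd.idxOf_getElem k hk
    · rintro rfl
      exact (List.getElem_idxOf hk).symm
  rw [h1, h1]
  unfold lo hi
  omega

lemma EM.count (M : EM D l W A B S) (hnd : l.Nodup) (hmem : ∀ v, v ∈ l) (e : E) :
    ∀ k, k ≤ l.length → (W k).count e = if lo D l e < k ∧ k ≤ hi D l e then 1 else 0 := by
  have hab := lo_lt_hi (D := D) hmem e
  have hbn := hi_lt (D := D) hmem e
  have c1 : ∀ k, k < l.length → (W k).count e = (A k).count e + (S k).count e := by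
    intro k hk
    rw [(M.rot k hk).perm.count_eq, List.count_append]
  have c2 : ∀ k, k < l.length → (W (k + 1)).count e = (B k).count e + (S k).count e := by
    intro k hk
    rw [M.next k hk, List.count_append]
  refine count_aux hab hbn (by rw [M.w0]; rfl) (by rw [M.wn]; rfl) ?_ ?_
  · intro k hk h1 h2
    have h3 : e ∉ A k ++ B k := by
      rw [M.inc k hk, inc_iff hnd hmem e hk]
      omega
    rw [List.mem_append, not_or] at h3
    rw [c1 k hk, c2 k hk, List.count_eq_zero_of_not_mem h3.1, List.count_eq_zero_of_not_mem h3.2]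
  · intro h0
    have hk : lo D l e < l.length := hab.trans hbn
    rw [c1 _ hk] at h0
    rw [c2 _ hk]
    have h3 : e ∈ A (lo D l e) ++ B (lo D l e) := by
      rw [M.inc _ hk, inc_iff hnd hmem e hk]
      exact Or.inl rfl
    have h4 : (A (lo D l e) ++ B (lo D l e)).count e = 1 :=
      List.count_eq_one_of_mem (M.nd _ hk) h3
    rw [List.count_append] at h4
    omega

lemma EM.mem (M : EM D l W A B S) (hnd : l.Nodup) (hmem : ∀ v, v ∈ l) (e : E) {k : ℕ}
    (hk : k ≤ l.length) : e ∈ W k ↔ lo D l e < k ∧ k ≤ hi D l e := by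
  rw [← List.count_pos_iff, M.count hnd hmem e k hk]
  split_ifs with h <;> simp [h]

lemma EM.nodup (M : EM D l W A B S) (hnd : l.Nodup) (hmem : ∀ v, v ∈ l) {k : ℕ}
    (hk : k ≤ l.length) : (W k).Nodup := by
  rw [List.nodup_iff_count_le_one]
  intro e
  rw [M.count hnd hmem e k hk]
  split_ifs <;> omega

lemma EM.nodup1 (M : EM D l W A B S) (hnd : l.Nodup) (hmem : ∀ v, v ∈ l) {k : ℕ}
    (hk : k < l.length) : (A k ++ S k).Nodup := by
  rw [← (M.rot k hk).perm.nodup_iff]
  exact M.nodup hnd hmem hk.le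

lemma EM.nodup2 (M : EM D l W A B S) (hnd : l.Nodup) (hmem : ∀ v, v ∈ l) {k : ℕ}
    (hk : k < l.length) : (B k ++ S k).Nodup := by
  rw [← M.next k hk]
  exact M.nodup hnd hmem hk

lemma EM.memS (M : EM D l W A B S) (hnd : l.Nodup) (hmem : ∀ v, v ∈ l) (e : E) {k : ℕ}
    (hk : k < l.length) : e ∈ S k ↔ lo D l e < k ∧ k < hi D l e := by
  constructor
  · intro h
    have h1 : e ∈ W k := by
      rw [(M.rot k hk).perm.mem_iff]
      exact List.mem_append_right _ h
    have h2 : e ∈ W (k + 1) := by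
      rw [M.next k hk]
      exact List.mem_append_right _ h
    rw [M.mem hnd hmem e hk.le] at h1
    rw [M.mem hnd hmem e hk] at h2
    omega
  · intro h
    have h1 : e ∈ W k := by
      rw [M.mem hnd hmem e hk.le]
      omega
    rw [(M.rot k hk).perm.mem_iff, List.mem_append] at h1
    rcases h1 with h1 | h1
    · have h2 : e ∈ A k ++ B k := List.mem_append_left _ h1
      rw [M.inc k hk, inc_iff hnd hmem e hk] at h2
      omega
    · exact h1

end counting

section curves

/-- clamp to `[0,1]` -/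
noncomputable def cl (x : ℝ) : ℝ := max 0 (min x 1)

lemma cl_of_nonpos {x : ℝ} (h : x ≤ 0) : cl x = 0 := by
  unfold cl
  rw [min_eq_left (by linarith), max_eq_left h]

lemma cl_of_one_le {x : ℝ} (h : 1 ≤ x) : cl x = 1 := by
  unfold cl
  rw [min_eq_right h, max_eq_right zero_le_one]

lemma cl_of_mem {x : ℝ} (h0 : 0 ≤ x) (h1 : x ≤ 1) : cl x = x := by
  unfold cl
  rw [min_eq_left h1, max_eq_right h0]

lemma continuous_cl : Continuous cl := by
  unfold cl
  fun_prop

lemma sum_cl (δ : ℕ → ℝ) {j N : ℕ} (hj : j < N) {u : ℝ} (h0 : (j:ℝ) ≤ u) (h1 : u ≤ j + 1) :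
    ∑ i ∈ Finset.range N, δ i * cl (u - i) = ∑ i ∈ Finset.range j, δ i + δ j * (u - j) := by
  induction N, hj using Nat.le_induction with
  | base =>
    rw [Finset.sum_range_succ, cl_of_mem (by linarith) (by linarith)]
    congr 1
    refine Finset.sum_congr rfl fun i hi => ?_
    rw [Finset.mem_range] at hi
    have : (i:ℝ) + 1 ≤ j := by exact_mod_cast hi
    rw [cl_of_one_le (by linarith), mul_one]
  | succ N hN ih =>
    rw [Finset.sum_range_succ, ih, cl_of_nonpos, mul_zero, add_zero]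
    have : (j:ℝ) + 1 ≤ N := by exact_mod_cast hN
    linarith

variable [DecidableEq E] [DecidableEq V] {D : Gr V E} {l : List V} {W A B S : ℕ → List E}

theorem exists_delta (M : EM D l W A B S) (hnd : l.Nodup) (hmem : ∀ v, v ∈ l) :
    ∃ δ : E → ℕ → ℝ,
      (∀ e k, k = lo D l e ∨ k = hi D l e →
        ((∑ i ∈ Finset.range (2 * k + 1), δ e i : ℝ) : UnitAddCircle) = 0) ∧
      (∀ e k, lo D l e < k → k < hi D l e →
        ((∑ i ∈ Finset.range (2 * k + 1), δ e i : ℝ) : UnitAddCircle) ≠ 0) ∧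
      (∀ e f k, e ≠ f → lo D l e < k → k < hi D l e → lo D l f < k → k < hi D l f →
        ((∑ i ∈ Finset.range (2 * k + 1), δ e i : ℝ) : UnitAddCircle) ≠
          (∑ i ∈ Finset.range (2 * k + 1), δ f i : ℝ)) ∧
      (∀ e f k, e ≠ f → lo D l e < k → k ≤ hi D l e → lo D l f < k → k ≤ hi D l f →
        ∀ t : ℝ, 0 ≤ t → t < 1 →
        ((∑ i ∈ Finset.range (2 * k), δ e i + δ e (2 * k) * t : ℝ) : UnitAddCircle) ≠
          (∑ i ∈ Finset.range (2 * k), δ f i + δ f (2 * k) * t : ℝ)) ∧
      (∀ e f k, e ≠ f → lo D l e ≤ k → k < hi D l e → lo D l f ≤ k → k < hi D l f →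
        ∀ t : ℝ, 0 < t → t ≤ 1 →
        ((∑ i ∈ Finset.range (2 * k + 1), δ e i + δ e (2 * k + 1) * t : ℝ) : UnitAddCircle) ≠
          (∑ i ∈ Finset.range (2 * k + 1), δ f i + δ f (2 * k + 1) * t : ℝ)) := by
  have hex : ∀ k, ∃ β : E → ℝ, k < l.length →
      (∀ e, ((β e : ℝ) : UnitAddCircle) = (ev (S k) e : ℝ)) ∧
      (W k).Pairwise fun e f => 0 ≤ β f - β e ∧ β f - β e ≤ 1 := by
    intro k
    by_cases hk : k < l.length
    · obtain ⟨β, h1, h2⟩ := slab_even (M.nodup1 hnd hmem hk) (M.rot k hk)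
      exact ⟨β, fun _ => ⟨h1, h2⟩⟩
    · exact ⟨fun _ => 0, fun h => absurd h hk⟩
  choose β hβ using hex
  obtain ⟨d0, hd0⟩ : ∃ d0 : ℕ → E → ℝ, ∀ k e, d0 k e =
    if e ∈ W k then β k e - gen (W k) e else 0 := ⟨_, fun _ _ => rfl⟩
  obtain ⟨d1, hd1⟩ : ∃ d1 : ℕ → E → ℝ, ∀ k e, d1 k e =
    if e ∈ W (k + 1) then gen (W (k + 1)) e - ev (S k) e else 0 := ⟨_, fun _ _ => rfl⟩
  obtain ⟨δ, hδ⟩ : ∃ δ : E → ℕ → ℝ, ∀ e j, δ e j =
    if j % 2 = 0 then d0 (j / 2) e else d1 (j / 2) e := ⟨_, fun _ _ => rfl⟩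
  have hδ0 : ∀ e k, δ e (2 * k) = d0 k e := by
    intro e k
    have h1 : 2 * k % 2 = 0 := by omega
    have h2 : 2 * k / 2 = k := by omega
    rw [hδ, if_pos h1, h2]
  have hδ1 : ∀ e k, δ e (2 * k + 1) = d1 k e := by
    intro e k
    have h1 : ¬ (2 * k + 1) % 2 = 0 := by omega
    have h2 : (2 * k + 1) / 2 = k := by omega
    rw [hδ, if_neg h1, h2]
  have hlast : ∀ e, hi D l e < l.length := fun e => hi_lt hmem e
  -- event lines
  have hev : ∀ e d, lo D l e + d ≤ hi D l e →
      ((∑ i ∈ Finset.range (2 * (lo D l e + d) + 1), δ e i : ℝ) : UnitAddCircle) =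
        (ev (S (lo D l e + d)) e : ℝ) := by
    intro e d
    induction d with
    | zero =>
      intro _
      have h1 := hlast e
      have h2 := lo_lt_hi (D := D) hmem e
      have hz : ∑ i ∈ Finset.range (2 * (lo D l e + 0) + 1), δ e i = 0 := by
        refine Finset.sum_eq_zero fun i hi => ?_
        rw [Finset.mem_range] at hi
        rcases Nat.even_or_odd' i with ⟨k, rfl | rfl⟩
        · rw [hδ0, hd0, if_neg]
          rw [M.mem hnd hmem e (by omega)]
          omega
        · rw [hδ1, hd1, if_neg]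
          rw [M.mem hnd hmem e (by omega)]
          omega
      rw [hz]
      have h3 : e ∉ S (lo D l e + 0) := by
        rw [M.memS hnd hmem e (by omega)]
        omega
      unfold ev
      rw [if_neg h3]
    | succ d ih =>
      intro hd
      have h1 := hlast e
      have hw : e ∈ W (lo D l e + d + 1) := by
        rw [M.mem hnd hmem e (by omega)]
        omega
      have e1 : 2 * (lo D l e + (d + 1)) + 1 = 2 * (lo D l e + d) + 1 + 1 + 1 := by ring
      have e2 : 2 * (lo D l e + d) + 1 + 1 = 2 * (lo D l e + d + 1) := by ring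
      rw [e1, Finset.sum_range_succ, Finset.sum_range_succ, hδ1, e2, hδ0, hd0, hd1, if_pos hw,
        if_pos hw, AddCircle.coe_add, AddCircle.coe_add, ih (by omega), ← AddCircle.coe_add,
        ← AddCircle.coe_add]
      have e3 : ev (S (lo D l e + d)) e +
          (gen (W (lo D l e + d + 1)) e - ev (S (lo D l e + d)) e) +
          (β (lo D l e + d + 1) e - gen (W (lo D l e + d + 1)) e) =
          β (lo D l e + d + 1) e := by ring
      rw [e3, (hβ _ (by omega)).1 e]
      rfl
  have hev' : ∀ e k, lo D l e ≤ k → k ≤ hi D l e →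
      ((∑ i ∈ Finset.range (2 * k + 1), δ e i : ℝ) : UnitAddCircle) = (ev (S k) e : ℝ) := by
    intro e k h1 h2
    have := hev e (k - lo D l e) (by omega)
    have e1 : lo D l e + (k - lo D l e) = k := by omega
    rwa [e1] at this
  have hgen : ∀ e k, lo D l e < k → k ≤ hi D l e →
      ((∑ i ∈ Finset.range (2 * k), δ e i : ℝ) : UnitAddCircle) = (gen (W k) e : ℝ) := by
    intro e k h1 h2
    obtain ⟨k, rfl⟩ : ∃ m, k = m + 1 := ⟨k - 1, by omega⟩
    have h3 := hlast e
    have hw : e ∈ W (k + 1) := by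
      rw [M.mem hnd hmem e (by omega)]
      omega
    have e1 : 2 * (k + 1) = 2 * k + 1 + 1 := by ring
    rw [e1, Finset.sum_range_succ, AddCircle.coe_add, hev' e k (by omega) (by omega), hδ1, hd1,
      if_pos hw, ← AddCircle.coe_add]
    congr 1
    ring
  refine ⟨δ, ?_, ?_, ?_, ?_, ?_⟩
  · intro e k hk
    have h1 := hlast e
    have h2 := lo_lt_hi (D := D) hmem e
    rw [hev' e k (by omega) (by omega)]
    have h3 : e ∉ S k := by
      rw [M.memS hnd hmem e (by omega)]
      omega
    unfold ev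
    rw [if_neg h3]
    simp
  · intro e k h1 h2
    have h3 := hlast e
    rw [hev' e k h1.le h2.le]
    refine ev_ne_zero ?_
    rw [M.memS hnd hmem e (by omega)]
    exact ⟨h1, h2⟩
  · intro e f k hef h1 h2 h3 h4
    have h5 := hlast e
    rw [hev' e k h1.le h2.le, hev' f k h3.le h4.le]
    refine ev_ne ?_ ?_ ?_ hef
    · exact (List.nodup_append'.1 (M.nodup1 hnd hmem (by omega : k < l.length))).2.1
    · rw [M.memS hnd hmem e (by omega)]
      exact ⟨h1, h2⟩
    · rw [M.memS hnd hmem f (by omega)]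
      exact ⟨h3, h4⟩
  · intro e f k hef h1 h2 h3 h4 t ht ht1
    have h5 := hlast e
    have hwe : e ∈ W k := by
      rw [M.mem hnd hmem e (by omega)]
      omega
    have hwf : f ∈ W k := by
      rw [M.mem hnd hmem f (by omega)]
      omega
    rw [AddCircle.coe_add, AddCircle.coe_add, hgen e k h1 h2, hgen f k h3 h4, hδ0, hδ0, hd0, hd0,
      if_pos hwe, if_pos hwf, ← AddCircle.coe_add, ← AddCircle.coe_add]
    exact even_ne (M.nodup hnd hmem (by omega)) (hβ k (by omega)).2 hwe hwf hef ht ht1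
  · intro e f k hef h1 h2 h3 h4 t ht ht1
    have h5 := hlast e
    have hwe : e ∈ W (k + 1) := by
      rw [M.mem hnd hmem e (by omega)]
      omega
    have hwf : f ∈ W (k + 1) := by
      rw [M.mem hnd hmem f (by omega)]
      omega
    rw [AddCircle.coe_add, AddCircle.coe_add, hev' e k h1 h2.le, hev' f k h3 h4.le, hδ1, hδ1, hd1,
      hd1, if_pos hwe, if_pos hwf, ← AddCircle.coe_add, ← AddCircle.coe_add]
    rw [M.next k (by omega)] at hwe hwf ⊢
    exact odd_ne (M.nodup2 hnd hmem (by omega)) hwe hwf hef ht ht1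

/-- the angle function of an edge -/
noncomputable def ang (n : ℕ) (δ : E → ℕ → ℝ) (e : E) (u : ℝ) : ℝ :=
  ∑ i ∈ Finset.range (2 * n), δ e i * cl (u - i)

omit [DecidableEq E] [DecidableEq V] in
lemma ang_event {n : ℕ} (δ : E → ℕ → ℝ) (e : E) {k : ℕ} (hk : k < n) {u : ℝ}
    (hu : u = 2 * k + 1) :
    ang n δ e u = ∑ i ∈ Finset.range (2 * k + 1), δ e i := by
  unfold ang
  rw [sum_cl (δ e) (j := 2 * k + 1) (by omega) (by rw [hu]; push_cast; linarith)
    (by rw [hu]; push_cast; linarith)]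
  have : u - ((2 * k + 1 : ℕ) : ℝ) = 0 := by rw [hu]; push_cast; ring
  rw [this, mul_zero, add_zero]

omit [DecidableEq E] [DecidableEq V] in
lemma continuous_ang (n : ℕ) (δ : E → ℕ → ℝ) (e : E) : Continuous (ang n δ e) := by
  unfold ang
  refine continuous_finsetSum _ fun i _ => ?_
  exact continuous_const.mul (continuous_cl.comp (by fun_prop))

/-- the level function of an edge -/
noncomputable def lev (D : Gr V E) (l : List V) (e : E) (t : ℝ) : ℝ :=
  (1 - t) * (2 * l.idxOf (D.src e) + 1) + t * (2 * l.idxOf (D.tgt e) + 1)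

omit [DecidableEq E] in
lemma lev_mem (D : Gr V E) (l : List V) (e : E) {t : ℝ} (h0 : 0 ≤ t) (h1 : t ≤ 1) :
    (2 * lo D l e + 1 : ℝ) ≤ lev D l e t ∧ lev D l e t ≤ 2 * hi D l e + 1 := by
  have a1 : (lo D l e : ℝ) ≤ l.idxOf (D.src e) := by
    unfold lo; exact_mod_cast min_le_left _ _
  have a2 : (lo D l e : ℝ) ≤ l.idxOf (D.tgt e) := by
    unfold lo; exact_mod_cast min_le_right _ _
  have a3 : (l.idxOf (D.src e) : ℝ) ≤ hi D l e := by
    unfold hi; exact_mod_cast le_max_left _ _
  have a4 : (l.idxOf (D.tgt e) : ℝ) ≤ hi D l e := by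
    unfold hi; exact_mod_cast le_max_right _ _
  have a5 : 0 ≤ 1 - t := by linarith
  unfold lev
  constructor
  · nlinarith [mul_le_mul_of_nonneg_left a1 a5, mul_le_mul_of_nonneg_left a2 h0]
  · nlinarith [mul_le_mul_of_nonneg_left a3 a5, mul_le_mul_of_nonneg_left a4 h0]

/-- the end of an edge with a given index -/
lemma end_of_idx (hmem : ∀ v, v ∈ l) {e : E} {k : ℕ} (hk : k = lo D l e ∨ k = hi D l e) {w : V}
    (hw : l.idxOf w = k) : w = D.src e ∨ w = D.tgt e := by
  have h1 : l.idxOf w = l.idxOf (D.src e) ∨ l.idxOf w = l.idxOf (D.tgt e) := by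
    unfold lo hi at hk
    omega
  rcases h1 with h1 | h1
  · exact Or.inl ((List.idxOf_inj (hmem _)).1 h1)
  · exact Or.inr ((List.idxOf_inj (hmem _)).1 h1)

theorem meet_level (hmem : ∀ v, v ∈ l) {δ : E → ℕ → ℝ}
    (q1 : ∀ e k, k = lo D l e ∨ k = hi D l e →
        ((∑ i ∈ Finset.range (2 * k + 1), δ e i : ℝ) : UnitAddCircle) = 0)
    (q2 : ∀ e k, lo D l e < k → k < hi D l e →
        ((∑ i ∈ Finset.range (2 * k + 1), δ e i : ℝ) : UnitAddCircle) ≠ 0)
    (q3 : ∀ e f k, e ≠ f → lo D l e < k → k < hi D l e → lo D l f < k → k < hi D l f →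
        ((∑ i ∈ Finset.range (2 * k + 1), δ e i : ℝ) : UnitAddCircle) ≠
          (∑ i ∈ Finset.range (2 * k + 1), δ f i : ℝ))
    (q4 : ∀ e f k, e ≠ f → lo D l e < k → k ≤ hi D l e → lo D l f < k → k ≤ hi D l f →
        ∀ t : ℝ, 0 ≤ t → t < 1 →
        ((∑ i ∈ Finset.range (2 * k), δ e i + δ e (2 * k) * t : ℝ) : UnitAddCircle) ≠
          (∑ i ∈ Finset.range (2 * k), δ f i + δ f (2 * k) * t : ℝ))
    (q5 : ∀ e f k, e ≠ f → lo D l e ≤ k → k < hi D l e → lo D l f ≤ k → k < hi D l f →
        ∀ t : ℝ, 0 < t → t ≤ 1 →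
        ((∑ i ∈ Finset.range (2 * k + 1), δ e i + δ e (2 * k + 1) * t : ℝ) : UnitAddCircle) ≠
          (∑ i ∈ Finset.range (2 * k + 1), δ f i + δ f (2 * k + 1) * t : ℝ))
    {e f : E} (hef : e ≠ f) {u : ℝ} (he1 : (2 * lo D l e + 1 : ℝ) ≤ u)
    (he2 : u ≤ 2 * hi D l e + 1) (hf1 : (2 * lo D l f + 1 : ℝ) ≤ u) (hf2 : u ≤ 2 * hi D l f + 1)
    (h : ((ang l.length δ e u : ℝ) : UnitAddCircle) = (ang l.length δ f u : ℝ)) :
    ∃ k : ℕ, u = 2 * k + 1 ∧ (k = lo D l e ∨ k = hi D l e) ∧ (k = lo D l f ∨ k = hi D l f) := by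
  have hu0 : 0 ≤ u := le_trans (by positivity) he1
  have hlast : hi D l e < l.length := hi_lt hmem e
  obtain ⟨j, hj⟩ : ∃ j, j = ⌊u⌋₊ := ⟨_, rfl⟩
  have h1 : (j:ℝ) ≤ u := hj ▸ Nat.floor_le hu0
  have h2 : u < j + 1 := hj ▸ Nat.lt_floor_add_one u
  have hjn : j < 2 * l.length := by
    have a1 : (j:ℝ) ≤ 2 * hi D l e + 1 := h1.trans he2
    have a2 : j ≤ 2 * hi D l e + 1 := by exact_mod_cast a1
    omega
  rcases Nat.even_or_odd' j with ⟨k, hk | hk⟩
  · exfalso
    subst hk
    push_cast at h1 h2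
    have b : ∀ g : E, (2 * lo D l g + 1 : ℝ) ≤ u → u ≤ 2 * hi D l g + 1 →
        lo D l g < k ∧ k ≤ hi D l g := by
      intro g hg1 hg2
      have a1 : (2 * lo D l g + 1 : ℝ) < 2 * k + 1 := by linarith
      have a2 : (2 * k : ℝ) ≤ 2 * hi D l g + 1 := by linarith
      have a3 : 2 * lo D l g + 1 < 2 * k + 1 := by exact_mod_cast a1
      have a4 : 2 * k ≤ 2 * hi D l g + 1 := by exact_mod_cast a2
      omega
    have be := b e he1 he2
    have bf := b f hf1 hf2
    refine q4 e f k hef be.1 be.2 bf.1 bf.2 (u - 2 * k) (by linarith) (by linarith) ?_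
    unfold ang at h
    rw [sum_cl (δ e) hjn (by push_cast; linarith) (by push_cast; linarith),
      sum_cl (δ f) hjn (by push_cast; linarith) (by push_cast; linarith)] at h
    push_cast at h ⊢
    exact h
  · subst hk
    push_cast at h1 h2
    by_cases ht : u = 2 * k + 1
    · refine ⟨k, ht, ?_⟩
      have b : ∀ g : E, (2 * lo D l g + 1 : ℝ) ≤ u → u ≤ 2 * hi D l g + 1 →
          lo D l g ≤ k ∧ k ≤ hi D l g := by
        intro g hg1 hg2
        rw [ht] at hg1 hg2
        have a3 : 2 * lo D l g + 1 ≤ 2 * k + 1 := by exact_mod_cast hg1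
        have a4 : 2 * k + 1 ≤ 2 * hi D l g + 1 := by exact_mod_cast hg2
        omega
      have be := b e he1 he2
      have bf := b f hf1 hf2
      rw [ang_event δ e (by omega) ht, ang_event δ f (by omega) ht] at h
      by_cases ce : k = lo D l e ∨ k = hi D l e
      · refine ⟨ce, ?_⟩
        by_contra cf
        rw [q1 e k ce] at h
        exact q2 f k (by omega) (by omega) h.symm
      · exfalso
        by_cases cf : k = lo D l f ∨ k = hi D l f
        · rw [q1 f k cf] at h
          exact q2 e k (by omega) (by omega) h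
        · exact q3 e f k hef (by omega) (by omega) (by omega) (by omega) h
    · exfalso
      have hlt : (2 * k + 1 : ℝ) < u := lt_of_le_of_ne h1 (Ne.symm ht)
      have b : ∀ g : E, (2 * lo D l g + 1 : ℝ) ≤ u → u ≤ 2 * hi D l g + 1 →
          lo D l g ≤ k ∧ k < hi D l g := by
        intro g hg1 hg2
        have a1 : (2 * lo D l g + 1 : ℝ) < 2 * k + 1 + 1 := by linarith
        have a2 : (2 * k + 1 : ℝ) < 2 * hi D l g + 1 := by linarith
        have a3 : 2 * lo D l g + 1 < 2 * k + 1 + 1 := by exact_mod_cast a1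
        have a4 : 2 * k + 1 < 2 * hi D l g + 1 := by exact_mod_cast a2
        omega
      have be := b e he1 he2
      have bf := b f hf1 hf2
      refine q5 e f k hef be.1 be.2 bf.1 bf.2 (u - (2 * k + 1)) (by linarith) (by linarith) ?_
      unfold ang at h
      rw [sum_cl (δ e) hjn (by push_cast; linarith) (by push_cast; linarith),
        sum_cl (δ f) hjn (by push_cast; linarith) (by push_cast; linarith)] at h
      push_cast at h ⊢
      exact h

end curves

end Real2

open Real2 in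
theorem M2 {V E : Type*} [Fintype V] [Fintype E] (D : Gr V E) (γ : V → ℕ)
    (hle : ∀ e, γ (D.src e) ≤ γ (D.tgt e)) (l : List V) (hnd : l.Nodup) (hmem : ∀ v, v ∈ l)
    (hsort : l.Pairwise (fun u v => γ u ≤ γ v)) (hm : Movie D l [] []) :
    ∃ (pos : V → Cyl) (φ : E → unitInterval → Cyl), CylEmb D γ pos φ ∧
      ∀ e, Function.Injective (fun t => (φ e t).1) := by
  classical
  obtain ⟨W, A, B, S, M⟩ := exists_EM hm
  obtain ⟨δ, q1, q2, q3, q4, q5⟩ := exists_delta M hnd hmem
  obtain ⟨n, hn⟩ : ∃ n, n = l.length := ⟨_, rfl⟩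
  have hidx : ∀ v, l.idxOf v < n := fun v => hn ▸ List.idxOf_lt_length_iff.2 (hmem v)
  have hN : (0:ℝ) < 2 * n + 1 := by positivity
  -- levels of the vertices
  have hvb : ∀ v, (0:ℝ) < (2 * l.idxOf v + 1) / (2 * n + 1) ∧
      (2 * l.idxOf v + 1) / (2 * n + 1) < (1:ℝ) := by
    intro v
    have : (l.idxOf v : ℝ) < n := by exact_mod_cast hidx v
    refine ⟨by positivity, ?_⟩
    rw [div_lt_one hN]
    linarith
  have hlb : ∀ e, ∀ t : unitInterval, (0:ℝ) ≤ lev D l e t / (2 * n + 1) ∧
      lev D l e t / (2 * n + 1) ≤ (1:ℝ) := by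
    intro e t
    have h1 := lev_mem D l e t.2.1 t.2.2
    have h2 : (hi D l e : ℝ) < n := by
      have := hi_lt (D := D) hmem e
      rw [← hn] at this
      exact_mod_cast this
    have h3 : (0:ℝ) ≤ lo D l e := by positivity
    constructor
    · exact div_nonneg (by linarith) hN.le
    · rw [div_le_one hN]
      linarith
  obtain ⟨pos, hpos⟩ : ∃ pos : V → Cyl, ∀ v, pos v =
    (⟨(2 * l.idxOf v + 1) / (2 * n + 1), (hvb v).1.le, (hvb v).2.le⟩, 0) := ⟨_, fun _ => rfl⟩
  obtain ⟨φ, hφ⟩ : ∃ φ : E → unitInterval → Cyl, ∀ e t, φ e t =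
    (⟨lev D l e t / (2 * n + 1), (hlb e t).1, (hlb e t).2⟩, ((ang n δ e (lev D l e t) : ℝ) :
      UnitAddCircle)) := ⟨_, fun _ _ => rfl⟩
  have hpos1 : ∀ v, ((pos v).1 : ℝ) = (2 * l.idxOf v + 1) / (2 * n + 1) := fun v => by rw [hpos]
  have hpos2 : ∀ v, (pos v).2 = 0 := fun v => by rw [hpos]
  have hφ1 : ∀ e t, ((φ e t).1 : ℝ) = lev D l e t / (2 * n + 1) := fun e t => by rw [hφ]
  have hφ2 : ∀ e t, (φ e t).2 = ((ang n δ e (lev D l e t) : ℝ) : UnitAddCircle) :=
    fun e t => by rw [hφ]
  have hlev0 : ∀ e, lev D l e 0 = 2 * l.idxOf (D.src e) + 1 := fun e => by unfold lev; ring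
  have hlev1 : ∀ e, lev D l e 1 = 2 * l.idxOf (D.tgt e) + 1 := fun e => by unfold lev; ring
  -- the first coordinates of points on edges and vertices
  have hfst : ∀ e t w, (φ e t).1 = (pos w).1 → lev D l e t = 2 * l.idxOf w + 1 := by
    intro e t w h
    have h1 : ((φ e t).1 : ℝ) = (pos w).1 := congrArg Subtype.val h
    rw [hφ1, hpos1] at h1
    field_simp at h1
    linarith
  have hbetween : ∀ e t w, (φ e t).1 = (pos w).1 → lo D l e ≤ l.idxOf w ∧
      l.idxOf w ≤ hi D l e := by
    intro e t w h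
    have h1 := lev_mem D l e t.2.1 t.2.2
    rw [hfst e t w h] at h1
    have h2 : 2 * lo D l e + 1 ≤ 2 * l.idxOf w + 1 := by exact_mod_cast h1.1
    have h3 : 2 * l.idxOf w + 1 ≤ 2 * hi D l e + 1 := by exact_mod_cast h1.2
    omega
  have hang : ∀ e k, (k = lo D l e ∨ k = hi D l e) →
      ((ang n δ e (2 * k + 1) : ℝ) : UnitAddCircle) = 0 := by
    intro e k hk
    have h1 := hi_lt (D := D) hmem e
    have h2 := lo_lt_hi (D := D) hmem e
    rw [ang_event δ e (k := k) (by omega) rfl]
    exact q1 e k hk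
  have hγ : ∀ u v, l.idxOf u ≤ l.idxOf v → γ u ≤ γ v := by
    intro u v h
    rcases h.lt_or_eq with h | h
    · have := List.pairwise_iff_getElem.1 hsort (l.idxOf u) (l.idxOf v)
        (List.idxOf_lt_length_iff.2 (hmem u)) (List.idxOf_lt_length_iff.2 (hmem v)) h
      rwa [List.getElem_idxOf, List.getElem_idxOf] at this
    · rw [(List.idxOf_inj (hmem _)).1 h]
  have hinj1 : ∀ e, Function.Injective (fun t => (φ e t).1) := by
    intro e s t hst
    have h1 : ((φ e s).1 : ℝ) = (φ e t).1 := congrArg Subtype.val hst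
    rw [hφ1, hφ1] at h1
    field_simp at h1
    unfold lev at h1
    have hne : (l.idxOf (D.tgt e) : ℝ) - l.idxOf (D.src e) ≠ 0 := by
      intro h
      have h2 : (l.idxOf (D.tgt e) : ℝ) = l.idxOf (D.src e) := by linarith
      have h3 : l.idxOf (D.tgt e) = l.idxOf (D.src e) := by exact_mod_cast h2
      exact D.ne e ((List.idxOf_inj (hmem _)).1 h3).symm
    have h4 : ((s:ℝ) - t) * ((l.idxOf (D.tgt e) : ℝ) - l.idxOf (D.src e)) = 0 := by linarith
    rcases mul_eq_zero.1 h4 with h5 | h5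
    · exact Subtype.ext (by linarith)
    · exact absurd h5 hne
  refine ⟨pos, φ, ⟨hle, ?_, ?_, ?_, ?_, ?_, ?_, ?_, ?_, ?_, ?_⟩, hinj1⟩
  · intro u v h
    have h1 : ((pos u).1 : ℝ) = (pos v).1 := by rw [h]
    rw [hpos1, hpos1] at h1
    field_simp at h1
    have h2 : (l.idxOf u : ℝ) = l.idxOf v := by linarith
    have h3 : l.idxOf u = l.idxOf v := by exact_mod_cast h2
    exact (List.idxOf_inj (hmem _)).1 h3
  · intro v
    refine ⟨?_, ?_⟩
    · show (0:ℝ) < ((pos v).1 : ℝ)
      rw [hpos1]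
      exact (hvb v).1
    · show ((pos v).1 : ℝ) < 1
      rw [hpos1]
      exact (hvb v).2
  · intro e
    have hlc : Continuous fun t : unitInterval => lev D l e t := by
      unfold lev
      fun_prop
    have h1 : Continuous fun t => (φ e t).1 := by
      rw [continuous_induced_rng]
      have : (Subtype.val ∘ fun t => (φ e t).1) = fun t : unitInterval =>
          lev D l e t / (2 * n + 1) := by
        funext t
        exact hφ1 e t
      rw [this]
      fun_prop
    have h2 : Continuous fun t => (φ e t).2 := by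
      have : (fun t => (φ e t).2) = fun t : unitInterval =>
          ((ang n δ e (lev D l e t) : ℝ) : UnitAddCircle) := by
        funext t
        exact hφ2 e t
      rw [this]
      exact (AddCircle.continuous_mk' 1).comp ((continuous_ang n δ e).comp hlc)
    exact h1.prodMk h2
  · intro e s t hst
    exact hinj1 e (congrArg Prod.fst hst)
  · intro e
    refine Prod.ext ?_ ?_
    · apply Subtype.ext
      rw [hφ1, hpos1]
      show lev D l e 0 / _ = _
      rw [hlev0]
    · rw [hφ2, hpos2]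
      show ((ang n δ e (lev D l e 0) : ℝ) : UnitAddCircle) = 0
      rw [hlev0]
      refine hang e _ ?_
      unfold lo hi
      omega
  · intro e
    refine Prod.ext ?_ ?_
    · apply Subtype.ext
      rw [hφ1, hpos1]
      show lev D l e 1 / _ = _
      rw [hlev1]
    · rw [hφ2, hpos2]
      show ((ang n δ e (lev D l e 1) : ℝ) : UnitAddCircle) = 0
      rw [hlev1]
      refine hang e _ ?_
      unfold lo hi
      omega
  · intro e t w h
    have h1 := hfst e t w (congrArg Prod.fst h)
    have h2 := hbetween e t w (congrArg Prod.fst h)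
    have h3 : (φ e t).2 = (pos w).2 := congrArg Prod.snd h
    rw [hφ2, hpos2, h1, ang_event δ e (hidx w) rfl] at h3
    by_cases hk : l.idxOf w = lo D l e ∨ l.idxOf w = hi D l e
    · exact end_of_idx hmem hk rfl
    · exact absurd h3 (q2 e _ (by omega) (by omega))
  · intro e f hef s t h
    have h1 : ((φ e s).1 : ℝ) = (φ f t).1 := by rw [h]
    rw [hφ1, hφ1] at h1
    have h1' : lev D l e s = lev D l f t := by
      field_simp at h1
      linarith
    have h2 : (φ e s).2 = (φ f t).2 := by rw [h]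
    rw [hφ2, hφ2, ← h1'] at h2
    have h3 := lev_mem D l e s.2.1 s.2.2
    have h4 := lev_mem D l f t.2.1 t.2.2
    rw [← h1'] at h4
    rw [hn] at h2
    obtain ⟨k, hk, hke, hkf⟩ := meet_level hmem q1 q2 q3 q4 q5 hef h3.1 h3.2 h4.1 h4.2 h2
    have hkn : k < l.length := by
      have a1 := hi_lt (D := D) hmem e
      have a2 := lo_lt_hi (D := D) hmem e
      omega
    refine ⟨l[k], ?_, end_of_idx hmem hke (hnd.idxOf_getElem k hkn),
      end_of_idx hmem hkf (hnd.idxOf_getElem k hkn)⟩
    refine Prod.ext ?_ ?_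
    · apply Subtype.ext
      rw [hφ1, hpos1, hk, hnd.idxOf_getElem k hkn]
    · rw [hφ2, hpos2, hk]
      exact hang e k hke
  · intro u v huv
    show ((pos u).1 : ℝ) < (pos v).1
    rw [hpos1, hpos1]
    have h1 : l.idxOf u < l.idxOf v := by
      by_contra hcon
      push Not at hcon
      have := hγ v u hcon
      omega
    have h2 : (l.idxOf u : ℝ) < l.idxOf v := by exact_mod_cast h1
    gcongr
  · intro e t w h
    have h2 := hbetween e t w h
    have h5 := hle e
    rcases le_total (l.idxOf (D.src e)) (l.idxOf (D.tgt e)) with h3 | h3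
    · have h4 : lo D l e = l.idxOf (D.src e) ∧ hi D l e = l.idxOf (D.tgt e) := by
        unfold lo hi; omega
      exact ⟨hγ _ _ (by omega), hγ _ _ (by omega)⟩
    · have h4 : lo D l e = l.idxOf (D.tgt e) ∧ hi D l e = l.idxOf (D.src e) := by
        unfold lo hi; omega
      have h6 := hγ w (D.src e) (by omega)
      have h7 := hγ (D.tgt e) w (by omega)
      omega

end CylB
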