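import Pool.Agent.Lib.MP_c5238b_co.Defs

/-!
# MP_c5238b_co : module M3 (discrete Stokes theorem on the grid)

`GridFlow D γ → HypH D γ`.
-/

namespace CylB

namespace Grid

open Classical

section Prods

variable {F : Type*} [Group F]

/-- `f 0 * f 1 * ... * f (n - 1)`. -/
def pr (f : ℕ → F) : ℕ → F
  | 0 => 1
  | n + 1 => pr f n * f n

/-- `f a * f (a + 1) * ... * f (b - 1)` (for `a ≤ b`). -/
def ip (f : ℕ → F) (a b : ℕ) : F := (pr f a)⁻¹ * pr f b

@[simp] lemma pr_zero (f : ℕ → F) : pr f 0 = 1 := rfl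

lemma pr_succ (f : ℕ → F) (n : ℕ) : pr f (n + 1) = pr f n * f n := rfl

lemma pr_congr {f g : ℕ → F} {n : ℕ} (h : ∀ k, k < n → f k = g k) : pr f n = pr g n := by
  induction n with
  | zero => rfl
  | succ n ih =>
    rw [pr_succ, pr_succ, ih (fun k hk => h k (by omega)), h n (by omega)]

@[simp] lemma ip_self (f : ℕ → F) (a : ℕ) : ip f a a = 1 := by simp [ip]

lemma ip_succ (f : ℕ → F) (a b : ℕ) : ip f a (b + 1) = ip f a b * f b := by
  simp [ip, pr_succ, mul_assoc]

lemma pr_split (f : ℕ → F) (a b : ℕ) : pr f b = pr f a * ip f a b := by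
  simp [ip]

lemma ip_congr {f g : ℕ → F} {a b : ℕ} (hab : a ≤ b) (h : ∀ k, a ≤ k → k < b → f k = g k) :
    ip f a b = ip g a b := by
  induction b, hab using Nat.le_induction with
  | base => simp
  | succ n hn ih =>
    rw [ip_succ, ip_succ, ih (fun k hk hk' => h k hk (by omega)), h n hn (by omega)]

lemma ip_eq_prod (f : ℕ → F) {a b : ℕ} (hab : a ≤ b) :
    ((List.Ico a b).map f).prod = ip f a b := by
  induction b, hab using Nat.le_induction with
  | base => simp
  | succ n hn ih =>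
    rw [List.Ico.succ_top hn, List.map_append, List.prod_append, ih, ip_succ]
    simp

/-- only the first factor is nontrivial -/
lemma ip_single (f : ℕ → F) {a b : ℕ} (hab : a < b) (h : ∀ k, a < k → k < b → f k = 1) :
    ip f a b = f a := by
  obtain ⟨b, rfl⟩ : ∃ c, b = c + 1 := ⟨b - 1, by omega⟩
  have hab' : a ≤ b := by omega
  clear hab
  induction b, hab' using Nat.le_induction with
  | base => simp [ip_succ]
  | succ n hn ih =>
    rw [ip_succ, ih (fun k hk hk' => h k hk (by omega)), h (n + 1) (by omega) (by omega), mul_one]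

/-- telescoping -/
lemma pr_tele {a b v : ℕ → F} {n : ℕ} (h : ∀ k, k < n → a k * v (k + 1) = v k * b k) :
    pr a n * v n = v 0 * pr b n := by
  induction n with
  | zero => simp
  | succ n ih =>
    rw [pr_succ, pr_succ, mul_assoc, h n (by omega), ← mul_assoc, ih (fun k hk => h k (by omega)),
      mul_assoc]

end Prods

section PCs

variable {V F : Type*} [DecidableEq V] [Group F]

lemma PC_conj {σ : V → F} {S : Finset V} {c : F} (h : PC σ S c) (x : F) :
    PC σ S (x * c * x⁻¹) := by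
  induction h with
  | empty => simpa using PC.empty
  | @insert z S c g hz _ ih =>
    have := PC.insert (x * g) hz ih
    convert this using 1
    group

lemma PC_union {σ : V → F} {S T : Finset V} {c d : F} (hS : PC σ S c) (hT : PC σ T d)
    (hd : Disjoint S T) : PC σ (S ∪ T) (c * d) := by
  induction hS with
  | empty => simpa using hT
  | @insert z S c g hz _ ih =>
    rw [Finset.disjoint_insert_left] at hd
    rw [Finset.insert_union, mul_assoc]
    exact PC.insert g (by simp [hz, hd.1]) (ih hd.2)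

lemma PC_conj_fun {σ τ : V → F} {S : Finset V} {c : F} (h : PC σ S c)
    (hst : ∀ z ∈ S, IsConj (σ z) (τ z)) : PC τ S c := by
  induction h with
  | empty => exact PC.empty
  | @insert z S c g hz _ ih =>
    obtain ⟨x, hx⟩ := isConj_iff.1 (hst z (Finset.mem_insert_self _ _)).symm
    have := PC.insert (g * x) hz (ih (fun w hw => hst w (Finset.mem_insert_of_mem hw)))
    convert this using 1
    rw [← hx]
    group

lemma PC_empty {σ : V → F} {c : F} (h : PC σ ∅ c) : c = 1 := by
  generalize hS : (∅ : Finset V) = S at h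
  cases h with
  | empty => rfl
  | insert g hz _ => exact absurd hS.symm (Finset.insert_ne_empty _ _)

lemma PC_one {σ : V → F} {S : Finset V} {c : F} (h : PC σ S c) (h1 : ∀ z ∈ S, σ z = 1) :
    c = 1 := by
  induction h with
  | empty => rfl
  | @insert z S c g hz _ ih =>
    rw [ih (fun z hz => h1 z (Finset.mem_insert_of_mem hz)), h1 z (Finset.mem_insert_self _ _)]
    simp

end PCs

section Rep

variable {V F : Type*} [DecidableEq V] [Group F]

/-- Replace the values of `a` on the row interval `[k0 z, k1 z]` by `Δ z, 1, ..., 1` for all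
`z ∈ S`. -/
noncomputable def rep (k0 k1 : V → ℕ) (S : Finset V) (a : ℕ → F) (Δ : V → F) : ℕ → F :=
  fun k => if h : ∃ z, z ∈ S ∧ k0 z ≤ k ∧ k ≤ k1 z then
    (if k = k0 h.choose then Δ h.choose else 1) else a k

omit [DecidableEq V] in
lemma rep_out {k0 k1 : V → ℕ} {S : Finset V} {a : ℕ → F} {Δ : V → F} {k : ℕ}
    (h : ∀ z ∈ S, ¬ (k0 z ≤ k ∧ k ≤ k1 z)) : rep k0 k1 S a Δ k = a k := by
  unfold rep
  rw [dif_neg]
  rintro ⟨z, hz, hk⟩
  exact h z hz hk

omit [DecidableEq V] in
lemma rep_in {k0 k1 : V → ℕ} {S : Finset V} {a : ℕ → F} {Δ : V → F} {k : ℕ} {z : V}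
    (hS : ∀ u ∈ S, ∀ v ∈ S, ∀ k, k0 u ≤ k → k ≤ k1 u → k0 v ≤ k → k ≤ k1 v → u = v)
    (hz : z ∈ S) (h0 : k0 z ≤ k) (h1 : k ≤ k1 z) :
    rep k0 k1 S a Δ k = if k = k0 z then Δ z else 1 := by
  unfold rep
  have h : ∃ z, z ∈ S ∧ k0 z ≤ k ∧ k ≤ k1 z := ⟨z, hz, h0, h1⟩
  rw [dif_pos h]
  have h' := h.choose_spec
  rw [hS _ h'.1 z hz k h'.2.1 h'.2.2 h0 h1]

lemma rep_erase {k0 k1 : V → ℕ} {S : Finset V} (a : ℕ → F) (Δ : V → F) {z : V} {N : ℕ}
    (hS : ∀ u ∈ S, ∀ v ∈ S, ∀ k, k0 u ≤ k → k ≤ k1 u → k0 v ≤ k → k ≤ k1 v → u = v)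
    (h01 : ∀ z, k0 z ≤ k1 z) (h1N : ∀ z, k1 z < N) (hz : z ∈ S) :
    ∃ r : F, pr (rep k0 k1 (S.erase z) a Δ) N =
      pr (rep k0 k1 S a Δ) N * (r * ((Δ z)⁻¹ * ip a (k0 z) (k1 z + 1)) * r⁻¹) := by
  set A := rep k0 k1 S a Δ with hA
  set B := rep k0 k1 (S.erase z) a Δ with hB
  have hout : ∀ k, ¬ (k0 z ≤ k ∧ k ≤ k1 z) → B k = A k := by
    intro k hk
    by_cases h : ∃ w, w ∈ S ∧ k0 w ≤ k ∧ k ≤ k1 w
    · obtain ⟨w, hw, hw0, hw1⟩ := h
      have hwz : w ≠ z := by
        rintro rfl
        exact hk ⟨hw0, hw1⟩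
      rw [hA, hB, rep_in hS hw hw0 hw1, rep_in (z := w) _ (Finset.mem_erase.2 ⟨hwz, hw⟩) hw0 hw1]
      intro u hu v hv
      exact hS u (Finset.mem_of_mem_erase hu) v (Finset.mem_of_mem_erase hv)
    · push Not at h
      rw [hA, hB, rep_out, rep_out]
      · intro w hw hw'
        have := h w hw hw'.1
        omega
      · intro w hw hw'
        have := h w (Finset.mem_of_mem_erase hw) hw'.1
        omega
  have hBin : ip B (k0 z) (k1 z + 1) = ip a (k0 z) (k1 z + 1) := by
    apply ip_congr (by have := h01 z; omega)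
    intro k hk hk'
    rw [hB, rep_out]
    intro w hw hw'
    have := hS w (Finset.mem_of_mem_erase hw) z hz k hw'.1 hw'.2 hk (by omega)
    exact (Finset.mem_erase.1 hw).1 this
  have hAin : ip A (k0 z) (k1 z + 1) = Δ z := by
    rw [ip_single]
    · rw [hA, rep_in hS hz le_rfl (h01 z), if_pos rfl]
    · have := h01 z
      omega
    · intro k hk hk'
      rw [hA, rep_in hS hz (by omega) (by omega), if_neg (by omega)]
  have e1 : pr B (k0 z) = pr A (k0 z) := pr_congr (fun k hk => hout k (by omega))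
  have e2 : ip B (k1 z + 1) N = ip A (k1 z + 1) N := by
    apply ip_congr (by have := h1N z; omega)
    intro k hk hk'
    exact hout k (by omega)
  refine ⟨(ip A (k1 z + 1) N)⁻¹, ?_⟩
  rw [pr_split B (k1 z + 1) N, pr_split B (k0 z) (k1 z + 1), e1, e2, hBin,
    pr_split A (k1 z + 1) N, pr_split A (k0 z) (k1 z + 1), hAin]
  group

lemma rep_remove {k0 k1 : V → ℕ} {S : Finset V} (a : ℕ → F) (Δ : V → F) {N : ℕ}
    (hS : ∀ u ∈ S, ∀ v ∈ S, ∀ k, k0 u ≤ k → k ≤ k1 u → k0 v ≤ k → k ≤ k1 v → u = v)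
    (h01 : ∀ z, k0 z ≤ k1 z) (h1N : ∀ z, k1 z < N) (Z : Finset V) (hZ : Z ⊆ S) :
    ∃ c : F, PC (fun z => (Δ z)⁻¹ * ip a (k0 z) (k1 z + 1)) Z c ∧
      pr (rep k0 k1 (S \ Z) a Δ) N = pr (rep k0 k1 S a Δ) N * c := by
  induction Z using Finset.induction_on with
  | empty => exact ⟨1, PC.empty, by simp⟩
  | @insert z Z hz ih =>
    obtain ⟨c, hc, hc'⟩ := ih (fun w hw => hZ (Finset.mem_insert_of_mem hw))
    have hz' : z ∈ S \ Z := Finset.mem_sdiff.2 ⟨hZ (Finset.mem_insert_self _ _), hz⟩
    obtain ⟨r, hr⟩ := rep_erase (S := S \ Z) a Δ (N := N) (fun u hu v hv =>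
      hS u (Finset.mem_sdiff.1 hu).1 v (Finset.mem_sdiff.1 hv).1) h01 h1N hz'
    have e : (S \ Z).erase z = S \ insert z Z := by
      ext w
      simp only [Finset.mem_erase, Finset.mem_sdiff, Finset.mem_insert]
      tauto
    rw [e] at hr
    refine ⟨_, PC.insert (c * r) hz hc, ?_⟩
    rw [hr, hc']
    group

end Rep

section Lab

variable {E : Type*} [Fintype E]

/-- The group label of a flow vector (a power of one generator if at most one coordinate is
nonzero). -/
noncomputable def lab (f : E → ℤ) : FreeGroup E :=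
  ((Finset.univ : Finset E).toList.map (fun e => FreeGroup.of e ^ f e)).prod

lemma lab_single {f : E → ℤ} {e : E} (h : ∀ e', e' ≠ e → f e' = 0) :
    lab f = FreeGroup.of e ^ f e := by
  unfold lab
  rw [List.prod_map_eq_pow_single e _ (fun e' he' _ => by rw [h e' he', zpow_zero]),
    List.count_eq_one_of_mem (Finset.nodup_toList _) (Finset.mem_toList.2 (Finset.mem_univ _)),
    pow_one]

lemma lab_zero {f : E → ℤ} (h : ∀ e, f e = 0) : lab f = 1 := by
  unfold lab
  apply List.prod_eq_one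
  intro x hx
  obtain ⟨e, _, rfl⟩ := List.mem_map.1 hx
  rw [h e, zpow_zero]

omit [Fintype E] in
lemma keep_of (P : E → Prop) [DecidablePred P] (e : E) :
    keep P (FreeGroup.of e) = if P e then FreeGroup.of e else 1 := by
  simp [keep]

lemma keep_lab_of {P : E → Prop} [DecidablePred P] {f : E → ℤ} (h : ∀ e, f e ≠ 0 → P e) :
    keep P (lab f) = lab f := by
  unfold lab
  rw [map_list_prod, List.map_map]
  congr 1
  apply List.map_congr_left
  intro e _
  simp only [Function.comp_apply, map_zpow, keep_of]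
  by_cases hP : P e
  · rw [if_pos hP]
  · have : f e = 0 := by
      by_contra hc
      exact hP (h e hc)
    rw [this, zpow_zero, zpow_zero]

omit [Fintype E] in
lemma keep_keep (P Q R : E → Prop) [DecidablePred P] [DecidablePred Q] [DecidablePred R]
    (hR : ∀ e, R e ↔ (P e ∧ Q e)) (x : FreeGroup E) :
    keep P (keep Q x) = keep R x := by
  have : (keep P).comp (keep Q) = keep R := by
    ext e
    simp only [MonoidHom.comp_apply, keep_of]
    by_cases hQ : Q e
    · by_cases hP : P e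
      · rw [if_pos hQ, keep_of, if_pos hP, if_pos ((hR e).2 ⟨hP, hQ⟩)]
      · rw [if_pos hQ, keep_of, if_neg hP, if_neg (fun h => hP ((hR e).1 h).1)]
    · rw [if_neg hQ, map_one, if_neg (fun h => hQ ((hR e).1 h).2)]
  exact DFunLike.congr_fun this x

lemma keep_pr {P : E → Prop} [DecidablePred P] {h : E → ℕ → ℤ} {n : ℕ} (hP : ∀ e k, h e k ≠ 0 → P e) :
    keep P (pr (fun k => lab (fun e => h e k)) n) = pr (fun k => lab (fun e => h e k)) n := by
  induction n with
  | zero => simp
  | succ n ih =>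
    rw [pr_succ, map_mul, ih, keep_lab_of]
    intro e he
    exact hP e n he

/-- The letter of a flow vector with at most one nonzero coordinate. -/
noncomputable def let1 (f : E → ℤ) : List (E × Bool) :=
  if h : ∃ e, f e ≠ 0 then [(h.choose, decide (0 < f h.choose))] else []

lemma let1_filter {f : E → ℤ} (hf : ∀ e e', f e ≠ 0 → f e' ≠ 0 → e = e') (e : E) :
    (let1 f).filter (fun a => a.1 = e) =
      (([f e]).filter (fun n => n ≠ 0)).map (fun n => (e, decide (0 < n))) := by
  unfold let1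
  by_cases h : ∃ e, f e ≠ 0
  · rw [dif_pos h]
    by_cases he : f e ≠ 0
    · have : h.choose = e := hf _ _ h.choose_spec he
      rw [this]
      simp [he]
    · have : h.choose ≠ e := by
        intro hh
        apply he
        rw [← hh]
        exact h.choose_spec
      simp only [not_not] at he
      simp [this, he]
  · rw [dif_neg h]
    have he : f e = 0 := by
      by_contra hc
      exact h ⟨e, hc⟩
    simp [he]

lemma flat_filter {L : List (E → ℤ)} (hL : ∀ f ∈ L, ∀ e e', f e ≠ 0 → f e' ≠ 0 → e = e')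
    (e : E) : (L.flatMap let1).filter (fun a => a.1 = e) =
      ((L.map (fun f => f e)).filter (fun n => n ≠ 0)).map (fun n => (e, decide (0 < n))) := by
  induction L with
  | nil => simp
  | cons f L ih =>
    rw [List.flatMap_cons, List.filter_append, ih (fun g hg => hL g (List.mem_cons_of_mem _ hg)),
      let1_filter (hL f List.mem_cons_self) e]
    rw [← List.map_append, ← List.filter_append]
    simp

lemma mk_let1 {f : E → ℤ} (hf : ∀ e e', f e ≠ 0 → f e' ≠ 0 → e = e')
    (h1 : ∀ e, f e ≠ 0 → f e = 1 ∨ f e = -1) : FreeGroup.mk (let1 f) = lab f := by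
  unfold let1
  by_cases h : ∃ e, f e ≠ 0
  · rw [dif_pos h]
    have h' := h.choose_spec
    rw [lab_single (e := h.choose)]
    · rcases h1 _ h' with h2 | h2
      · rw [h2]
        simp [FreeGroup.of]
      · rw [h2]
        simp [FreeGroup.of, FreeGroup.invRev]
    · intro e' he'
      by_contra hc
      exact he' (hf _ _ hc h')
  · rw [dif_neg h, lab_zero]
    · rfl
    · intro e
      by_contra hc
      exact h ⟨e, hc⟩

lemma mk_flat {L : List (E → ℤ)} (hL : ∀ f ∈ L, ∀ e e', f e ≠ 0 → f e' ≠ 0 → e = e')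
    (h1 : ∀ f ∈ L, ∀ e, f e ≠ 0 → f e = 1 ∨ f e = -1) :
    FreeGroup.mk (L.flatMap let1) = (L.map lab).prod := by
  induction L with
  | nil => rfl
  | cons f L ih =>
    rw [List.flatMap_cons, ← FreeGroup.mul_mk, ih (fun g hg => hL g (List.mem_cons_of_mem _ hg))
      (fun g hg => h1 g (List.mem_cons_of_mem _ hg)), mk_let1 (hL f List.mem_cons_self)
      (h1 f List.mem_cons_self), List.map_cons, List.prod_cons]

lemma lab_neg {f : E → ℤ} (hf : ∀ e e', f e ≠ 0 → f e' ≠ 0 → e = e') :
    lab (fun e => - f e) = (lab f)⁻¹ := by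
  by_cases h : ∃ e, f e ≠ 0
  · obtain ⟨e, he⟩ := h
    rw [lab_single (e := e), lab_single (f := f) (e := e), zpow_neg]
    · intro e' he'
      by_contra hc
      exact he' (hf _ _ hc he)
    · intro e' he'
      by_contra hc
      exact he' (hf _ _ (fun h0 => hc (by rw [h0, neg_zero])) he)
  · push Not at h
    rw [lab_zero (f := f) h, lab_zero, inv_one]
    intro e
    rw [h e, neg_zero]

end Lab

section Main

variable {V E : Type*} [Fintype V] [DecidableEq V] [Fintype E] {D : Gr V E} {γ : V → ℕ}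
  (G : GridFlow D γ)

/-- label of a vertical side (crossed horizontally) -/
noncomputable def HH (i k : ℕ) : FreeGroup E := lab (fun e => G.nh e i k)

/-- label of a horizontal side (crossed vertically) -/
noncomputable def VV (i k : ℕ) : FreeGroup E := (lab (fun e => G.nv e i k))⁻¹

/-- label of the block `z` on the line `i` -/
noncomputable def Del (z : V) (i : ℕ) : FreeGroup E :=
  (ip (fun t => VV G t (G.k0 z)) (G.i0 z) i)⁻¹ *
    ip (HH G (G.i0 z)) (G.k0 z) (G.k1 z + 1) *
    ip (fun t => VV G t (G.k1 z + 1)) (G.i0 z) i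

lemma Del_start (z : V) : Del G z (G.i0 z) = ip (HH G (G.i0 z)) (G.k0 z) (G.k1 z + 1) := by
  simp [Del]

lemma Del_succ (z : V) (i : ℕ) :
    Del G z i * VV G i (G.k1 z + 1) = VV G i (G.k0 z) * Del G z (i + 1) := by
  unfold Del
  rw [ip_succ (fun t => VV G t (G.k0 z)), ip_succ (fun t => VV G t (G.k1 z + 1))]
  group

lemma uniq {u v : V} {i k : ℕ} (hu : G.i0 u ≤ i) (hu' : i ≤ G.i1 u) (hk : G.k0 u ≤ k)
    (hk' : k ≤ G.k1 u) (hv : G.i0 v ≤ i) (hv' : i ≤ G.i1 v) (hkv : G.k0 v ≤ k)
    (hkv' : k ≤ G.k1 v) : u = v := by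
  by_contra hne
  rcases G.sep u v hne with h | h | h | h <;> omega

/-- the blocks that meet column `i` -/
def S0 (i : ℕ) : Finset V := Finset.univ.filter (fun z => G.i0 z ≤ i ∧ i ≤ G.i1 z)

lemma mem_S0 {i : ℕ} {z : V} : z ∈ S0 G i ↔ G.i0 z ≤ i ∧ i ≤ G.i1 z := by simp [S0]

lemma S0_disj (i : ℕ) : ∀ u ∈ S0 G i, ∀ v ∈ S0 G i, ∀ k, G.k0 u ≤ k → k ≤ G.k1 u →
    G.k0 v ≤ k → k ≤ G.k1 v → u = v := by
  intro u hu v hv k h1 h2 h3 h4
  rw [mem_S0] at hu hv
  exact uniq G hu.1 hu.2 h1 h2 hv.1 hv.2 h3 h4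

/-- labels of the left sides of the cells of column `i` -/
noncomputable def hin (i : ℕ) : ℕ → FreeGroup E :=
  rep G.k0 G.k1 (S0 G i) (HH G i) (fun z => Del G z i)

/-- labels of the right sides of the cells of column `i` -/
noncomputable def hout (i : ℕ) : ℕ → FreeGroup E :=
  rep G.k0 G.k1 (S0 G i) (HH G (i + 1)) (fun z => Del G z (i + 1))

/-- labels of the line `i`, the straddling blocks being replaced -/
noncomputable def WW (i : ℕ) : ℕ → FreeGroup E :=
  rep G.k0 G.k1 (Finset.univ.filter (fun z => G.i0 z < i ∧ i ≤ G.i1 z)) (HH G i)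
    (fun z => Del G z i)

/-- labels of the upper sides of the cells, modified inside the blocks -/
noncomputable def vv (i k : ℕ) : FreeGroup E :=
  if h : ∃ z, G.i0 z ≤ i ∧ i ≤ G.i1 z ∧ G.k0 z < k ∧ k ≤ G.k1 z then
    VV G i (G.k1 h.choose + 1) else VV G i k

lemma vv_out {i k : ℕ} (h : ∀ z, ¬ (G.i0 z ≤ i ∧ i ≤ G.i1 z ∧ G.k0 z < k ∧ k ≤ G.k1 z)) :
    vv G i k = VV G i k := by
  unfold vv
  rw [dif_neg]
  rintro ⟨z, hz⟩
  exact h z hz

lemma vv_in {i k : ℕ} {z : V} (h1 : G.i0 z ≤ i) (h2 : i ≤ G.i1 z) (h3 : G.k0 z < k)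
    (h4 : k ≤ G.k1 z) : vv G i k = VV G i (G.k1 z + 1) := by
  unfold vv
  have h : ∃ z, G.i0 z ≤ i ∧ i ≤ G.i1 z ∧ G.k0 z < k ∧ k ≤ G.k1 z := ⟨z, h1, h2, h3, h4⟩
  rw [dif_pos h]
  obtain ⟨a1, a2, a3, a4⟩ := h.choose_spec
  rw [uniq G a1 a2 a3.le a4 h1 h2 h3.le h4]

lemma cell_rel {i k : ℕ} (hi : i < G.M) (hk : k < G.N)
    (h : ∀ z, ¬ (G.i0 z ≤ i ∧ i ≤ G.i1 z ∧ G.k0 z ≤ k ∧ k ≤ G.k1 z)) :
    HH G i k * VV G i (k + 1) = VV G i k * HH G (i + 1) k := by
  unfold HH VV
  by_cases he : ∃ e, (G.nh e i k ≠ 0 ∨ G.nv e i k ≠ 0 ∨ G.nh e (i + 1) k ≠ 0 ∨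
      G.nv e i (k + 1) ≠ 0)
  · obtain ⟨e, he⟩ := he
    have hex := fun f (hf : f ≠ e) => G.excl i k hi hk h e f hf.symm he
    rw [lab_single (e := e) (fun f hf => (hex f hf).1),
      lab_single (e := e) (fun f hf => (hex f hf).2.1),
      lab_single (e := e) (fun f hf => (hex f hf).2.2.1),
      lab_single (e := e) (fun f hf => (hex f hf).2.2.2)]
    rw [← zpow_neg, ← zpow_neg, ← zpow_add, ← zpow_add]
    congr 1
    have := G.cons i k hi hk h e
    omega
  · push Not at he
    rw [lab_zero (fun e => (he e).1), lab_zero (fun e => (he e).2.1),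
      lab_zero (fun e => (he e).2.2.1), lab_zero (fun e => (he e).2.2.2)]
    simp

lemma cell_rel' {i k : ℕ} (hi : i < G.M) (hk : k < G.N) :
    hin G i k * vv G i (k + 1) = vv G i k * hout G i k := by
  by_cases h : ∃ z, G.i0 z ≤ i ∧ i ≤ G.i1 z ∧ G.k0 z ≤ k ∧ k ≤ G.k1 z
  · obtain ⟨z, h1, h2, h3, h4⟩ := h
    have hz : z ∈ S0 G i := (mem_S0 G).2 ⟨h1, h2⟩
    have e1 : vv G i (k + 1) = VV G i (G.k1 z + 1) := by
      by_cases hk1 : k = G.k1 z
      · rw [vv_out, hk1]
        rintro w ⟨w1, w2, w3, w4⟩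
        by_cases hwz : w = z
        · subst hwz
          omega
        · rcases G.sep w z hwz with h | h | h | h <;> omega
      · exact vv_in G h1 h2 (by omega) (by omega)
    have e2 : hin G i k = if k = G.k0 z then Del G z i else 1 := by
      rw [hin, rep_in (S0_disj G i) hz h3 h4]
    have e3 : hout G i k = if k = G.k0 z then Del G z (i + 1) else 1 := by
      rw [hout, rep_in (S0_disj G i) hz h3 h4]
    rw [e1, e2, e3]
    by_cases hk0 : k = G.k0 z
    · rw [if_pos hk0, if_pos hk0, vv_out, hk0, Del_succ]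
      rintro w ⟨w1, w2, w3, w4⟩
      have := uniq G w1 w2 w3.le w4 h1 h2 h3 h4
      subst this
      omega
    · rw [if_neg hk0, if_neg hk0, vv_in G h1 h2 (by omega) h4]
      simp
  · push Not at h
    have e1 : hin G i k = HH G i k := by
      rw [hin, rep_out]
      intro z hz hz'
      rw [mem_S0] at hz
      have := h z hz.1 hz.2 hz'.1
      omega
    have e2 : hout G i k = HH G (i + 1) k := by
      rw [hout, rep_out]
      intro z hz hz'
      rw [mem_S0] at hz
      have := h z hz.1 hz.2 hz'.1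
      omega
    rw [e1, e2, vv_out, vv_out, cell_rel G hi hk]
    · rintro z ⟨h1, h2, h3, h4⟩
      have := h z h1 h2 h3
      omega
    · rintro z ⟨h1, h2, h3, h4⟩
      have := h z h1 h2 (by omega)
      omega
    · rintro z ⟨h1, h2, h3, h4⟩
      have := h z h1 h2 (by omega)
      omega

lemma in_out {i : ℕ} (hi : i < G.M) :
    IsConj (pr (hout G i) G.N) (pr (hin G i) G.N) := by
  have h := pr_tele (a := hin G i) (b := hout G i) (v := vv G i) (n := G.N)
    (fun k hk => cell_rel' G hi hk)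
  have e : vv G i G.N = vv G i 0 := by
    rw [vv_out, vv_out, VV, VV]
    · simp only [G.nvN]
    · rintro z ⟨h1, h2, h3, h4⟩
      omega
    · rintro z ⟨h1, h2, h3, h4⟩
      have := G.k1N z
      omega
  rw [e] at h
  rw [isConj_iff]
  exact ⟨vv G i 0, by rw [← h]; group⟩

lemma WW_hin (i : ℕ) : pr (WW G i) G.N = pr (hin G i) G.N := by
  obtain ⟨c, hc, hc'⟩ := rep_remove (HH G i) (fun z => Del G z i) (N := G.N) (S0_disj G i)
    G.k01 G.k1N ((S0 G i).filter (fun z => G.i0 z = i)) (Finset.filter_subset _ _)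
  have h1 : c = 1 := by
    apply PC_one hc
    intro z hz
    rw [Finset.mem_filter] at hz
    have : Del G z i = ip (HH G i) (G.k0 z) (G.k1 z + 1) := by
      have := Del_start G z
      rw [hz.2] at this
      exact this
    rw [this, inv_mul_cancel]
  have e : S0 G i \ (S0 G i).filter (fun z => G.i0 z = i) =
      Finset.univ.filter (fun z => G.i0 z < i ∧ i ≤ G.i1 z) := by
    ext z
    simp only [Finset.mem_sdiff, Finset.mem_filter, mem_S0, Finset.mem_univ, true_and]
    omega
  rw [h1, mul_one, e] at hc'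
  exact hc'

/-- the rotation at `z` -/
noncomputable def rot (z : V) : List (E × Bool) :=
  (bdryFlow G.nh G.nv (G.i0 z) (G.i1 z) (G.k0 z) (G.k1 z)).flatMap let1

lemma bdry_excl (z : V) : ∀ f ∈ bdryFlow G.nh G.nv (G.i0 z) (G.i1 z) (G.k0 z) (G.k1 z),
    ∀ e e', f e ≠ 0 → f e' ≠ 0 → e = e' := by
  intro f hf e e' he he'
  unfold bdryFlow at hf
  simp only [List.mem_append, List.mem_map] at hf
  rcases hf with ((⟨k, _, rfl⟩ | ⟨k, _, rfl⟩) | ⟨k, _, rfl⟩) | ⟨k, _, rfl⟩
  · exact G.exh (G.i0 z) k _ _ (fun h => he (by simp [h])) (fun h => he' (by simp [h]))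
  · exact G.exv k (G.k0 z) _ _ (fun h => he (by simp [h])) (fun h => he' (by simp [h]))
  · exact G.exh _ _ _ _ he he'
  · exact G.exv _ _ _ _ he he'

lemma bdry_one (z : V) : ∀ f ∈ bdryFlow G.nh G.nv (G.i0 z) (G.i1 z) (G.k0 z) (G.k1 z),
    ∀ e, f e ≠ 0 → f e = 1 ∨ f e = -1 := by
  intro f hf e he
  have hb := G.bdry z e
  have hm : f e ∈ (((bdryFlow G.nh G.nv (G.i0 z) (G.i1 z) (G.k0 z) (G.k1 z)).map
      (fun f => f e)).filter (fun n => n ≠ 0)) := by
    rw [List.mem_filter]
    exact ⟨List.mem_map.2 ⟨f, hf, rfl⟩, by simpa using he⟩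
  rw [hb] at hm
  split_ifs at hm with h1 h2
  · left
    simpa using hm
  · right
    simpa using hm
  · simp at hm

lemma isRot_rot (z : V) : IsRot D z (rot G z) := by
  have key : ∀ e, (rot G z).filter (fun a => a.1 = e) =
      (if D.src e = z then [(e, true)] else if D.tgt e = z then [(e, false)] else []) := by
    intro e
    rw [rot, flat_filter (bdry_excl G z) e, G.bdry z e]
    split_ifs <;> simp
  refine ⟨?_, ?_⟩
  · rw [List.nodup_iff_count_le_one]
    rintro ⟨e, b⟩
    rw [← List.count_filter (p := fun a => decide (a.1 = e)) (by simp), key e]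
    split_ifs
    · simp only [List.count_singleton]
      split_ifs <;> omega
    · simp only [List.count_singleton]
      split_ifs <;> omega
    · simp
  · rintro ⟨e, b⟩
    have : (e, b) ∈ rot G z ↔ (e, b) ∈ (rot G z).filter (fun a => a.1 = e) := by
      rw [List.mem_filter]
      simp
    rw [this, key e]
    have hne := D.ne e
    unfold star
    simp only [Set.mem_setOf_eq]
    by_cases h1 : D.src e = z
    · have h2 : D.tgt e ≠ z := fun h => hne (by rw [h1, h])
      simp [h1, h2]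
    · by_cases h2 : D.tgt e = z
      · simp [h1, h2]
      · simp [h1, h2]

lemma prod_reverse_inv {α F : Type*} [Group F] (l : List α) (f : α → F) :
    (l.reverse.map (fun x => (f x)⁻¹)).prod = ((l.map f).prod)⁻¹ := by
  induction l with
  | nil => simp
  | cons a l ih =>
    rw [List.reverse_cons, List.map_append, List.prod_append, ih]
    simp

lemma mk_rot (z : V) : FreeGroup.mk (rot G z) =
    (ip (HH G (G.i0 z)) (G.k0 z) (G.k1 z + 1))⁻¹ *
    ip (fun t => VV G t (G.k0 z)) (G.i0 z) (G.i1 z + 1) *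
    ip (HH G (G.i1 z + 1)) (G.k0 z) (G.k1 z + 1) *
    (ip (fun t => VV G t (G.k1 z + 1)) (G.i0 z) (G.i1 z + 1))⁻¹ := by
  have hi := G.i01 z
  have hk := G.k01 z
  rw [rot, mk_flat (bdry_excl G z) (bdry_one G z)]
  unfold bdryFlow
  rw [List.map_append, List.map_append, List.map_append, List.prod_append, List.prod_append,
    List.prod_append, List.map_map, List.map_map, List.map_map, List.map_map]
  congr 1
  · congr 1
    · congr 1
      · rw [← ip_eq_prod _ (by omega), ← prod_reverse_inv]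
        congr 1
        apply List.map_congr_left
        intro k _
        exact lab_neg (fun e e' he he' => G.exh _ _ _ _ he he')
      · rw [← ip_eq_prod _ (by omega)]
        congr 1
        apply List.map_congr_left
        intro k _
        exact lab_neg (fun e e' he he' => G.exv _ _ _ _ he he')
    · rw [← ip_eq_prod _ (by omega)]
      rfl
  · rw [← ip_eq_prod _ (by omega), ← prod_reverse_inv]
    congr 1
    apply List.map_congr_left
    intro k _
    simp [VV]

lemma conj_rot (z : V) : IsConj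
    ((Del G z (G.i1 z + 1))⁻¹ * ip (HH G (G.i1 z + 1)) (G.k0 z) (G.k1 z + 1))
    (FreeGroup.mk (rot G z)) := by
  rw [mk_rot, isConj_iff]
  refine ⟨ip (fun t => VV G t (G.k1 z + 1)) (G.i0 z) (G.i1 z + 1), ?_⟩
  unfold Del
  group

lemma step {i : ℕ} (hi : i < G.M) : ∃ c,
    PC (fun z => FreeGroup.mk (rot G z)) (Finset.univ.filter (fun z => G.i1 z = i)) c ∧
      IsConj (pr (WW G (i + 1)) G.N) (pr (WW G i) G.N * c) := by
  obtain ⟨c, hc, hc'⟩ := rep_remove (HH G (i + 1)) (fun z => Del G z (i + 1)) (N := G.N)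
    (S0_disj G i) G.k01 G.k1N (Finset.univ.filter (fun z => G.i1 z = i)) (by
      intro z hz
      rw [Finset.mem_filter] at hz
      rw [mem_S0]
      have := G.i01 z
      omega)
  have e : S0 G i \ Finset.univ.filter (fun z => G.i1 z = i) =
      Finset.univ.filter (fun z => G.i0 z < i + 1 ∧ i + 1 ≤ G.i1 z) := by
    ext z
    simp only [Finset.mem_sdiff, Finset.mem_filter, mem_S0, Finset.mem_univ, true_and]
    omega
  have hc2 : PC (fun z => FreeGroup.mk (rot G z)) (Finset.univ.filter (fun z => G.i1 z = i)) c := by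
    apply PC_conj_fun hc
    intro z hz
    rw [Finset.mem_filter] at hz
    have := conj_rot G z
    rw [hz.2] at this
    exact this
  rw [e] at hc'
  obtain ⟨x, hx⟩ := isConj_iff.1 (in_out G hi)
  refine ⟨x * c * x⁻¹, PC_conj hc2 x, ?_⟩
  rw [isConj_iff]
  refine ⟨x, ?_⟩
  change pr (WW G (i + 1)) G.N = pr (hout G i) G.N * c at hc'
  rw [WW_hin G i, ← hx, hc']
  group

lemma sweep {i j : ℕ} (hij : i ≤ j) (hj : j ≤ G.M) : ∃ c,
    PC (fun z => FreeGroup.mk (rot G z))
      (Finset.univ.filter (fun z => i ≤ G.i1 z ∧ G.i1 z < j)) c ∧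
      IsConj (pr (WW G j) G.N) (pr (WW G i) G.N * c) := by
  induction j, hij using Nat.le_induction with
  | base =>
    refine ⟨1, ?_, by rw [mul_one]⟩
    have : Finset.univ.filter (fun z => i ≤ G.i1 z ∧ G.i1 z < i) = ∅ := by
      ext z
      simp only [Finset.mem_filter, Finset.mem_univ, true_and, Finset.notMem_empty, iff_false]
      omega
    rw [this]
    exact PC.empty
  | succ j hij ih =>
    obtain ⟨c, hc, hc'⟩ := ih (by omega)
    obtain ⟨d, hd, hd'⟩ := step G (i := j) (by omega)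
    obtain ⟨x, hx⟩ := isConj_iff.1 hc'
    refine ⟨c * (x * d * x⁻¹), ?_, ?_⟩
    · have := PC_union hc (PC_conj hd x) (by
        rw [Finset.disjoint_left]
        intro z hz hz'
        rw [Finset.mem_filter] at hz hz'
        omega)
      convert this using 1
      ext z
      simp only [Finset.mem_filter, Finset.mem_univ, true_and, Finset.mem_union]
      omega
    · refine hd'.trans ?_
      rw [isConj_iff]
      refine ⟨x, ?_⟩
      rw [← mul_assoc (pr (WW G i) G.N), ← hx]
      group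

lemma WW_of_free {i : ℕ} (h : ∀ z, ¬ (G.i0 z < i ∧ i ≤ G.i1 z)) :
    pr (WW G i) G.N = pr (HH G i) G.N := by
  apply pr_congr
  intro k _
  rw [WW, rep_out]
  intro z hz
  rw [Finset.mem_filter] at hz
  exact absurd hz.2 (h z)

end Main

end Grid

open Grid in
theorem M3 {V E : Type*} [Fintype V] [DecidableEq V] [Fintype E] (D : Gr V E) (γ : V → ℕ)
    (hle : ∀ e, γ (D.src e) ≤ γ (D.tgt e)) (h : GridFlow D γ) : HypH D γ := by
  classical
  -- the lines `s j` and `l j`
  let s : ℕ → ℕ := fun j => (Finset.univ.filter (fun w => γ w < j)).sup (fun w => h.i1 w + 1)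
  have s_ge : ∀ j w, γ w < j → h.i1 w + 1 ≤ s j := fun j w hw =>
    Finset.le_sup (f := fun w => h.i1 w + 1) (Finset.mem_filter.2 ⟨Finset.mem_univ _, hw⟩)
  have s_eq : ∀ j, s j = 0 ∨ ∃ w, γ w < j ∧ s j = h.i1 w + 1 := by
    intro j
    rcases (Finset.univ.filter (fun w => γ w < j)).eq_empty_or_nonempty with h0 | h0
    · left
      simp only [s, h0, Finset.sup_empty]
      rfl
    · right
      obtain ⟨w, hw, hw'⟩ := Finset.exists_mem_eq_sup _ h0 (fun w => h.i1 w + 1)
      exact ⟨w, (Finset.mem_filter.1 hw).2, hw'⟩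
  have s_M : ∀ j, s j ≤ h.M := by
    intro j
    rcases s_eq j with h0 | ⟨w, _, hw⟩
    · omega
    · have := h.i1M w
      omega
  have s_le : ∀ j w, j ≤ γ w → s j ≤ h.i0 w := by
    intro j w hw
    rcases s_eq j with h0 | ⟨u, hu, hu'⟩
    · omega
    · have := h.order u w (by omega)
      omega
  have hl : ∀ j, ∃ l, s j ≤ l ∧ l ≤ h.M ∧ (∀ w, j ≤ γ w → l ≤ h.i0 w) ∧
      (l = h.M ∨ ∃ w, j ≤ γ w ∧ l = h.i0 w) := by
    intro j
    by_cases h0 : ∃ w, j ≤ γ w
    · have hne : (Finset.univ.filter (fun w => j ≤ γ w)).Nonempty := by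
        obtain ⟨w, hw⟩ := h0
        exact ⟨w, Finset.mem_filter.2 ⟨Finset.mem_univ _, hw⟩⟩
      obtain ⟨w, hw, hw'⟩ := Finset.exists_min_image _ (fun w => h.i0 w) hne
      rw [Finset.mem_filter] at hw
      refine ⟨h.i0 w, s_le j w hw.2, ?_, ?_, Or.inr ⟨w, hw.2, rfl⟩⟩
      · have := h.i1M w
        have := h.i01 w
        omega
      · intro u hu
        exact hw' u (Finset.mem_filter.2 ⟨Finset.mem_univ _, hu⟩)
    · push Not at h0
      refine ⟨h.M, s_M j, le_rfl, ?_, Or.inl rfl⟩
      intro w hw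
      have := h0 w
      omega
  have free_s : ∀ j z, ¬ (h.i0 z < s j ∧ s j ≤ h.i1 z) := by
    rintro j z ⟨h1, h2⟩
    rcases lt_or_ge (γ z) j with h3 | h3
    · have := s_ge j z h3
      omega
    · have := s_le j z h3
      omega
  -- the class of the line `s j`
  have keep_s : ∀ j, keep (fun e => γ (D.src e) < j) (pr (HH h (s j)) h.N) =
      pr (HH h (s j)) h.N := by
    intro j
    apply keep_pr (h := fun e k => h.nh e (s j) k)
    intro e k hne
    by_contra hc
    rcases s_eq j with h0 | ⟨w, hw, hw'⟩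
    · rw [h0] at hne
      exact hne (h.nh0 e k)
    · have := h.left e (s j) k w hne (by omega)
      omega
  have conj_g : ∀ j, IsConj
      (keep (fun e => γ (D.src e) < j ∧ j ≤ γ (D.tgt e)) (pr (HH h (s j)) h.N))
      (pr (HH h (s j)) h.N) := by
    intro j
    obtain ⟨l, hl1, hl2, hl3, hl4⟩ := hl j
    have keep_l : keep (fun e => j ≤ γ (D.tgt e)) (pr (HH h l) h.N) = pr (HH h l) h.N := by
      apply keep_pr (h := fun e k => h.nh e l k)
      intro e k hne
      by_contra hc
      rcases hl4 with h0 | ⟨w, hw, hw'⟩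
      · rw [h0] at hne
        exact hne (h.nhM e k)
      · have := h.right e l k w hne (by omega)
        omega
    have free_l : ∀ z, ¬ (h.i0 z < l ∧ l ≤ h.i1 z) := by
      rintro z ⟨h1, h2⟩
      rcases lt_or_ge (γ z) j with h3 | h3
      · have := s_ge j z h3
        omega
      · have := hl3 z h3
        omega
    obtain ⟨c, hc, hc'⟩ := sweep h hl1 hl2
    have hc1 : c = 1 := by
      have : Finset.univ.filter (fun z => s j ≤ h.i1 z ∧ h.i1 z < l) = ∅ := by
        ext z
        simp only [Finset.mem_filter, Finset.mem_univ, true_and, Finset.notMem_empty, iff_false]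
        rintro ⟨h1, h2⟩
        rcases lt_or_ge (γ z) j with h3 | h3
        · have := s_ge j z h3
          omega
        · have := hl3 z h3
          have := h.i01 z
          omega
      rw [this] at hc
      exact PC_empty hc
    rw [hc1, mul_one, WW_of_free h (free_s j), WW_of_free h free_l] at hc'
    have e1 : keep (fun e => γ (D.src e) < j ∧ j ≤ γ (D.tgt e)) (pr (HH h (s j)) h.N) =
        keep (fun e => j ≤ γ (D.tgt e)) (pr (HH h (s j)) h.N) := by
      rw [← keep_keep (fun e => j ≤ γ (D.tgt e)) (fun e => γ (D.src e) < j)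
        (fun e => γ (D.src e) < j ∧ j ≤ γ (D.tgt e)) (fun e => and_comm), keep_s j]
    rw [e1]
    have h2 : IsConj (keep (fun e => j ≤ γ (D.tgt e)) (pr (HH h (s j)) h.N))
        (keep (fun e => j ≤ γ (D.tgt e)) (pr (HH h l) h.N)) := by
      obtain ⟨x, hx⟩ := isConj_iff.1 hc'.symm
      rw [isConj_iff]
      refine ⟨keep (fun e => j ≤ γ (D.tgt e)) x, ?_⟩
      rw [← hx, map_mul, map_mul, map_inv]
    rw [keep_l] at h2
    exact h2.trans hc'
  refine ⟨rot h, fun j => keep (fun e => γ (D.src e) < j ∧ j ≤ γ (D.tgt e))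
    (pr (HH h (s j)) h.N), isRot_rot h, ?_, ?_⟩
  · intro j
    exact keep_keep _ _ _ (fun e => by tauto) _
  · intro j
    have hmono : s j ≤ s (j + 1) := by
      rcases s_eq j with h0 | ⟨w, hw, hw'⟩
      · omega
      · have := s_ge (j + 1) w (by omega)
        omega
    obtain ⟨c, hc, hc'⟩ := sweep h hmono (s_M (j + 1))
    rw [WW_of_free h (free_s j), WW_of_free h (free_s (j + 1))] at hc'
    have hset : Finset.univ.filter (fun z => s j ≤ h.i1 z ∧ h.i1 z < s (j + 1)) =
        Finset.univ.filter (fun z => γ z = j) := by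
      ext z
      simp only [Finset.mem_filter, Finset.mem_univ, true_and]
      constructor
      · rintro ⟨h1, h2⟩
        by_contra hne
        rcases lt_or_gt_of_ne hne with h3 | h3
        · have := s_ge j z h3
          omega
        · have := s_le (j + 1) z h3
          have := h.i01 z
          omega
      · intro h1
        have := s_le j z h1.ge
        have := s_ge (j + 1) z (by omega)
        have := h.i01 z
        omega
    rw [hset] at hc
    obtain ⟨x, hx⟩ := isConj_iff.1 (conj_g j).symm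
    refine ⟨x * c * x⁻¹, PC_conj hc x, ?_⟩
    refine (conj_g (j + 1)).trans (hc'.trans ?_)
    rw [isConj_iff]
    refine ⟨x, ?_⟩
    change _ = keep (fun e => γ (D.src e) < j ∧ j ≤ γ (D.tgt e)) (pr (HH h (s j)) h.N) * _
    rw [← hx]
    group

end CylB
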