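import Mathlib
import Pool.Agent.Lib.MP_c5238b_co.Defs

/-!
# MP_c5238b_co, module M4, part a: from grid walks to grid flows
-/

namespace CylB
namespace Walk

/-- flow of the step `(a,b) → (c,d)` from the cell `(i-1,k)` to the cell `(i,k)` -/
def fh (a b c d i k : ℕ) : ℤ :=
  (if b = d ∧ d = k ∧ a + 1 = c ∧ c = i then 1 else 0) -
  (if b = d ∧ d = k ∧ c + 1 = a ∧ a = i then 1 else 0)

/-- flow of the step `(a,b) → (c,d)` from the cell `(i,k-1)` to the cell `(i,k)` -/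
def fv (N a b c d i k : ℕ) : ℤ :=
  (if a = c ∧ c = i ∧ ((b + 1 = d ∧ d = k) ∨ (b + 1 = N ∧ d = 0 ∧ (k = 0 ∨ k = N))) then 1 else 0) -
  (if a = c ∧ c = i ∧ ((d + 1 = b ∧ b = k) ∨ (d + 1 = N ∧ b = 0 ∧ (k = 0 ∨ k = N))) then 1 else 0)

/-- elementary steps -/
def Step (N a b c d : ℕ) : Prop :=
  (b = d ∧ (a = c ∨ a + 1 = c ∨ c + 1 = a)) ∨
  (a = c ∧ (b + 1 = d ∨ d + 1 = b ∨ (b + 1 = N ∧ d = 0) ∨ (d + 1 = N ∧ b = 0)))

lemma step_cons {N a b c d i k : ℕ} (hN : 3 ≤ N) (hb : b < N) (hd : d < N) (hk : k < N)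
    (h : Step N a b c d) :
    fh a b c d i k + fv N a b c d i k - (fh a b c d (i + 1) k + fv N a b c d i (k + 1)) =
      (if c = i ∧ d = k then 1 else 0) - (if a = i ∧ b = k then 1 else 0) := by
  unfold Step at h
  unfold fh fv
  rcases h with ⟨rfl, rfl | rfl | rfl⟩ | ⟨rfl, rfl | rfl | ⟨h1, rfl⟩ | ⟨h1, rfl⟩⟩ <;>
    grind (splits := 30)

lemma fh_ne {a b c d i k : ℕ} (h : fh a b c d i k ≠ 0) :
    b = k ∧ d = k ∧ ((a + 1 = c ∧ c = i) ∨ (c + 1 = a ∧ a = i)) := by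
  unfold fh at h
  grind

lemma fv_ne {N a b c d i k : ℕ} (h : fv N a b c d i k ≠ 0) :
    a = i ∧ c = i ∧ ((b + 1 = d ∧ d = k) ∨ (d + 1 = b ∧ b = k) ∨
      (b + 1 = N ∧ d = 0 ∧ (k = 0 ∨ k = N)) ∨ (d + 1 = N ∧ b = 0 ∧ (k = 0 ∨ k = N))) := by
  unfold fv at h
  grind

lemma filter_zero {l : List ℕ} {f : ℕ → ℤ} (h : ∀ x ∈ l, f x = 0) :
    (l.map f).filter (fun n => n ≠ 0) = [] := by
  rw [List.filter_eq_nil_iff]
  intro y hy
  rw [List.mem_map] at hy
  obtain ⟨x, hx, rfl⟩ := hy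
  simp [h x hx]

lemma filter_single {l : List ℕ} (hl : l.Nodup) {f : ℕ → ℤ} {x0 : ℕ} (hx : x0 ∈ l) {c : ℤ}
    (hc : c ≠ 0) (h0 : f x0 = c) (h1 : ∀ x ∈ l, x ≠ x0 → f x = 0) :
    (l.map f).filter (fun n => n ≠ 0) = [c] := by
  obtain ⟨s, t, rfl⟩ := List.append_of_mem hx
  rw [List.nodup_append'] at hl
  obtain ⟨-, h3, h4⟩ := hl
  rw [List.nodup_cons] at h3
  rw [List.map_append, List.filter_append, List.map_cons, List.filter_cons,
    filter_zero, filter_zero]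
  · simp [h0, hc]
  · intro x hx
    exact h1 x (by simp [hx]) (fun h => h3.1 (h ▸ hx))
  · intro x hx
    exact h1 x (by simp [hx]) (fun h => h4 hx (by simp [h]))

/-- boundary list of one flow -/
def bl (nh nv : ℕ → ℕ → ℤ) (i0 i1 k0 k1 : ℕ) : List ℤ :=
  ((List.Ico k0 (k1 + 1)).reverse.map (fun k => - nh i0 k)) ++
  ((List.Ico i0 (i1 + 1)).map (fun i => - nv i k0)) ++
  ((List.Ico k0 (k1 + 1)).map (fun k => nh (i1 + 1) k)) ++
  ((List.Ico i0 (i1 + 1)).reverse.map (fun i => nv i (k1 + 1)))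

lemma bdry_map {E : Type*} (nh nv : E → ℕ → ℕ → ℤ) (i0 i1 k0 k1 : ℕ) (e : E) :
    (bdryFlow nh nv i0 i1 k0 k1).map (fun f => f e) = bl (nh e) (nv e) i0 i1 k0 k1 := by
  unfold bdryFlow bl
  simp only [List.map_append, List.map_map]
  rfl

lemma bl_congr {nh nv nh' nv' : ℕ → ℕ → ℤ} {i0 i1 k0 k1 : ℕ}
    (h1 : ∀ k, k0 ≤ k → k ≤ k1 → nh i0 k = nh' i0 k)
    (h2 : ∀ k, k0 ≤ k → k ≤ k1 → nh (i1 + 1) k = nh' (i1 + 1) k)
    (h3 : ∀ i, i0 ≤ i → i ≤ i1 → nv i k0 = nv' i k0)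
    (h4 : ∀ i, i0 ≤ i → i ≤ i1 → nv i (k1 + 1) = nv' i (k1 + 1)) :
    bl nh nv i0 i1 k0 k1 = bl nh' nv' i0 i1 k0 k1 := by
  unfold bl
  congr 1
  · congr 1
    · congr 1
      · refine List.map_congr_left fun k hk => ?_
        rw [List.mem_reverse, List.Ico.mem] at hk
        rw [h1 k hk.1 (by omega)]
      · refine List.map_congr_left fun k hk => ?_
        rw [List.Ico.mem] at hk
        rw [h3 k hk.1 (by omega)]
    · refine List.map_congr_left fun k hk => ?_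
      rw [List.Ico.mem] at hk
      rw [h2 k hk.1 (by omega)]
  · refine List.map_congr_left fun k hk => ?_
    rw [List.mem_reverse, List.Ico.mem] at hk
    rw [h4 k hk.1 (by omega)]

lemma bl_parts {nh nv : ℕ → ℕ → ℤ} {i0 i1 k0 k1 : ℕ} {p q r s : List ℤ}
    (h1 : ((List.Ico k0 (k1 + 1)).reverse.map (fun k => - nh i0 k)).filter (fun n => n ≠ 0) = p)
    (h2 : ((List.Ico i0 (i1 + 1)).map (fun i => - nv i k0)).filter (fun n => n ≠ 0) = q)
    (h3 : ((List.Ico k0 (k1 + 1)).map (fun k => nh (i1 + 1) k)).filter (fun n => n ≠ 0) = r)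
    (h4 : ((List.Ico i0 (i1 + 1)).reverse.map (fun i => nv i (k1 + 1))).filter
      (fun n => n ≠ 0) = s) :
    (bl nh nv i0 i1 k0 k1).filter (fun n => n ≠ 0) = p ++ q ++ r ++ s := by
  unfold bl
  rw [List.filter_append, List.filter_append, List.filter_append, h1, h2, h3, h4]

lemma nodup_rev (a b : ℕ) : (List.Ico a b).reverse.Nodup :=
  List.nodup_reverse.2 (List.Ico.nodup a b)

lemma bl_out {N a b c d i0 i1 k0 k1 : ℕ} (hb : b < N) (hd : d < N) (hi0 : 1 ≤ i0)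
    (hk0 : 1 ≤ k0) (hk1 : k1 + 1 < N) (hs : Step N a b c d)
    (hin : i0 ≤ a ∧ a ≤ i1 ∧ k0 ≤ b ∧ b ≤ k1) (hout : ¬ (i0 ≤ c ∧ c ≤ i1 ∧ k0 ≤ d ∧ d ≤ k1)) :
    (bl (fh a b c d) (fv N a b c d) i0 i1 k0 k1).filter (fun n => n ≠ 0) = [1] := by
  unfold Step at hs
  have hcases : (c + 1 = a ∧ b = d ∧ a = i0) ∨ (a + 1 = c ∧ b = d ∧ a = i1) ∨
      (a = c ∧ b + 1 = d ∧ b = k1) ∨ (a = c ∧ d + 1 = b ∧ b = k0) := by omega
  rcases hcases with ⟨h1, h2, h3⟩ | ⟨h1, h2, h3⟩ | ⟨h1, h2, h3⟩ | ⟨h1, h2, h3⟩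
  · refine bl_parts (p := [1]) (q := []) (r := []) (s := []) ?_ ?_ ?_ ?_
    · refine filter_single (nodup_rev _ _) (x0 := b) ?_ one_ne_zero ?_ ?_
      · rw [List.mem_reverse, List.Ico.mem]; omega
      · unfold fh; grind
      · intro x hx hne; unfold fh; grind
    · refine filter_zero fun x hx => ?_
      unfold fv; grind
    · refine filter_zero fun x hx => ?_
      unfold fh; grind
    · refine filter_zero fun x hx => ?_
      unfold fv; grind
  · refine bl_parts (p := []) (q := []) (r := [1]) (s := []) ?_ ?_ ?_ ?_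
    · refine filter_zero fun x hx => ?_
      unfold fh; grind
    · refine filter_zero fun x hx => ?_
      unfold fv; grind
    · refine filter_single (List.Ico.nodup _ _) (x0 := b) ?_ one_ne_zero ?_ ?_
      · rw [List.Ico.mem]; omega
      · unfold fh; grind
      · intro x hx hne; unfold fh; grind
    · refine filter_zero fun x hx => ?_
      unfold fv; grind
  · refine bl_parts (p := []) (q := []) (r := []) (s := [1]) ?_ ?_ ?_ ?_
    · refine filter_zero fun x hx => ?_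
      unfold fh; grind
    · refine filter_zero fun x hx => ?_
      unfold fv; grind
    · refine filter_zero fun x hx => ?_
      unfold fh; grind
    · refine filter_single (nodup_rev _ _) (x0 := a) ?_ one_ne_zero ?_ ?_
      · rw [List.mem_reverse, List.Ico.mem]; omega
      · unfold fv; grind
      · intro x hx hne; unfold fv; grind
  · refine bl_parts (p := []) (q := [1]) (r := []) (s := []) ?_ ?_ ?_ ?_
    · refine filter_zero fun x hx => ?_
      unfold fh; grind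
    · refine filter_single (List.Ico.nodup _ _) (x0 := a) ?_ one_ne_zero ?_ ?_
      · rw [List.Ico.mem]; omega
      · unfold fv; grind
      · intro x hx hne; unfold fv; grind
    · refine filter_zero fun x hx => ?_
      unfold fh; grind
    · refine filter_zero fun x hx => ?_
      unfold fv; grind

lemma fh_neg (a b c d i k : ℕ) : fh a b c d i k = - fh c d a b i k := by
  unfold fh; grind

lemma fv_neg (N a b c d i k : ℕ) : fv N a b c d i k = - fv N c d a b i k := by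
  unfold fv; grind

lemma bl_neg (nh nv : ℕ → ℕ → ℤ) (i0 i1 k0 k1 : ℕ) :
    bl (fun i k => - nh i k) (fun i k => - nv i k) i0 i1 k0 k1 =
      (bl nh nv i0 i1 k0 k1).map (fun n => -n) := by
  unfold bl
  simp only [List.map_append, List.map_map]
  rfl

lemma bl_in {N a b c d i0 i1 k0 k1 : ℕ} (hb : b < N) (hd : d < N) (hi0 : 1 ≤ i0)
    (hk0 : 1 ≤ k0) (hk1 : k1 + 1 < N) (hs : Step N a b c d)
    (hin : ¬ (i0 ≤ a ∧ a ≤ i1 ∧ k0 ≤ b ∧ b ≤ k1)) (hout : i0 ≤ c ∧ c ≤ i1 ∧ k0 ≤ d ∧ d ≤ k1) :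
    (bl (fh a b c d) (fv N a b c d) i0 i1 k0 k1).filter (fun n => n ≠ 0) = [-1] := by
  have hs' : Step N c d a b := by
    unfold Step at hs ⊢
    omega
  have h1 := bl_out hd hb hi0 hk0 hk1 hs' hout hin
  have h2 : fh a b c d = fun i k => - fh c d a b i k := by
    funext i k; exact fh_neg _ _ _ _ _ _
  have h3 : fv N a b c d = fun i k => - fv N c d a b i k := by
    funext i k; exact fv_neg _ _ _ _ _ _ _
  rw [h2, h3, bl_neg, List.filter_map]
  have h4 : ((fun n : ℤ => decide (n ≠ 0)) ∘ fun n : ℤ => -n) = fun n : ℤ => decide (n ≠ 0) := by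
    funext n
    simp
  rw [h4, h1]
  rfl

/-- A discrete picture with walks. -/
structure GridWalk {V E : Type*} (D : Gr V E) (γ : V → ℕ) where
  M : ℕ
  N : ℕ
  N3 : 3 ≤ N
  i0 : V → ℕ
  i1 : V → ℕ
  k0 : V → ℕ
  k1 : V → ℕ
  i01 : ∀ z, i0 z ≤ i1 z
  i1M : ∀ z, i1 z < M
  k01 : ∀ z, k0 z ≤ k1 z
  i0p : ∀ z, 1 ≤ i0 z
  k0p : ∀ z, 1 ≤ k0 z
  k1N : ∀ z, k1 z + 1 < N
  sep : ∀ u v, u ≠ v → i1 u + 1 < i0 v ∨ i1 v + 1 < i0 u ∨ k1 u + 1 < k0 v ∨ k1 v + 1 < k0 u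
  order : ∀ u v, γ u < γ v → i1 u < i0 v
  L : E → ℕ
  x : E → ℕ → ℕ
  y : E → ℕ → ℕ
  L2 : ∀ e, 2 ≤ L e
  start : ∀ e, i0 (D.src e) ≤ x e 0 ∧ x e 0 ≤ i1 (D.src e) ∧ k0 (D.src e) ≤ y e 0 ∧
    y e 0 ≤ k1 (D.src e)
  finish : ∀ e, i0 (D.tgt e) ≤ x e (L e) ∧ x e (L e) ≤ i1 (D.tgt e) ∧ k0 (D.tgt e) ≤ y e (L e) ∧
    y e (L e) ≤ k1 (D.tgt e)
  mid : ∀ e s, 0 < s → s < L e → ∀ z,
    ¬ (i0 z ≤ x e s ∧ x e s ≤ i1 z ∧ k0 z ≤ y e s ∧ y e s ≤ k1 z)
  bx : ∀ e s, s ≤ L e → x e s < M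
  bY : ∀ e s, s ≤ L e → y e s < N
  step : ∀ e s, s < L e → Step N (x e s) (y e s) (x e (s + 1)) (y e (s + 1))
  excl : ∀ e f s t, e ≠ f → 0 < s → s < L e → 0 < t → t < L f →
    ¬ (x e s = x f t ∧ y e s = y f t)
  left : ∀ e s w, s ≤ L e → γ w < γ (D.src e) → i1 w + 1 < x e s
  right : ∀ e s w, s ≤ L e → γ (D.tgt e) < γ w → x e s < i0 w

namespace GridWalk

variable {V E : Type*} {D : Gr V E} {γ : V → ℕ} (G : GridWalk D γ)

/-- horizontal flow -/
def nh (e : E) (i k : ℕ) : ℤ :=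
  ∑ s ∈ Finset.range (G.L e), fh (G.x e s) (G.y e s) (G.x e (s + 1)) (G.y e (s + 1)) i k

/-- vertical flow -/
def nv (e : E) (i k : ℕ) : ℤ :=
  ∑ s ∈ Finset.range (G.L e), fv G.N (G.x e s) (G.y e s) (G.x e (s + 1)) (G.y e (s + 1)) i k

/-- being in the block of `z` -/
def inB (z : V) (i k : ℕ) : Prop := G.i0 z ≤ i ∧ i ≤ G.i1 z ∧ G.k0 z ≤ k ∧ k ≤ G.k1 z

lemma inB_unique {u v : V} {i k : ℕ} (hu : G.inB u i k) (hv : G.inB v i k) : u = v := by
  by_contra h
  have := G.sep u v h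
  unfold inB at hu hv
  omega

lemma nh_ne {e : E} {i k : ℕ} (h : G.nh e i k ≠ 0) : ∃ s, s < G.L e ∧
    G.y e s = k ∧ G.y e (s + 1) = k ∧ ((G.x e s + 1 = G.x e (s + 1) ∧ G.x e (s + 1) = i) ∨
      (G.x e (s + 1) + 1 = G.x e s ∧ G.x e s = i)) := by
  obtain ⟨s, hs, h1⟩ := Finset.exists_ne_zero_of_sum_ne_zero h
  rw [Finset.mem_range] at hs
  have := fh_ne h1
  exact ⟨s, hs, this⟩

lemma nv_ne {e : E} {i k : ℕ} (h : G.nv e i k ≠ 0) : ∃ s, s < G.L e ∧
    G.x e s = i ∧ G.x e (s + 1) = i ∧ ((G.y e s + 1 = G.y e (s + 1) ∧ G.y e (s + 1) = k) ∨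
      (G.y e (s + 1) + 1 = G.y e s ∧ G.y e s = k) ∨
      (G.y e s + 1 = G.N ∧ G.y e (s + 1) = 0 ∧ (k = 0 ∨ k = G.N)) ∨
      (G.y e (s + 1) + 1 = G.N ∧ G.y e s = 0 ∧ (k = 0 ∨ k = G.N))) := by
  obtain ⟨s, hs, h1⟩ := Finset.exists_ne_zero_of_sum_ne_zero h
  rw [Finset.mem_range] at hs
  have := fv_ne h1
  exact ⟨s, hs, this⟩

lemma mid_of_not_inB {e : E} {s : ℕ} (hs : s ≤ G.L e)
    (h : ∀ z, ¬ G.inB z (G.x e s) (G.y e s)) : 0 < s ∧ s < G.L e := by
  constructor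
  · rcases Nat.eq_zero_or_pos s with h0 | h0
    · subst h0
      exact absurd (G.start e) (h _)
    · exact h0
  · rcases hs.lt_or_eq with h0 | h0
    · exact h0
    · subst h0
      exact absurd (G.finish e) (h _)

/-- a cell outside the blocks is visited by at most one walk -/
lemma visit_excl {e f : E} {s t : ℕ} (hs : s ≤ G.L e) (ht : t ≤ G.L f)
    (hx : G.x e s = G.x f t) (hy : G.y e s = G.y f t)
    (h : ∀ z, ¬ G.inB z (G.x e s) (G.y e s)) : e = f := by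
  by_contra hef
  have h1 := G.mid_of_not_inB hs h
  have h2 := G.mid_of_not_inB ht (by rw [← hx, ← hy]; exact h)
  exact G.excl e f s t hef h1.1 h1.2 h2.1 h2.2 ⟨hx, hy⟩

lemma visit_cell {e : E} {i k : ℕ} (hk : k < G.N)
    (h : G.nh e i k ≠ 0 ∨ G.nv e i k ≠ 0 ∨ G.nh e (i + 1) k ≠ 0 ∨ G.nv e i (k + 1) ≠ 0) :
    ∃ s, s ≤ G.L e ∧ G.x e s = i ∧ G.y e s = k := by
  rcases h with h | h | h | h
  · obtain ⟨s, hs, h1, h2, h3 | h3⟩ := G.nh_ne h
    · exact ⟨s + 1, hs, h3.2, h2⟩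
    · exact ⟨s, hs.le, h3.2, h1⟩
  · obtain ⟨s, hs, h1, h2, h3 | h3 | h3 | h3⟩ := G.nv_ne h
    · exact ⟨s + 1, hs, h2, h3.2⟩
    · exact ⟨s, hs.le, h1, h3.2⟩
    · exact ⟨s + 1, hs, h2, by omega⟩
    · exact ⟨s, hs.le, h1, by omega⟩
  · obtain ⟨s, hs, h1, h2, h3 | h3⟩ := G.nh_ne h
    · exact ⟨s, hs.le, by omega, h1⟩
    · exact ⟨s + 1, hs, by omega, h2⟩
  · obtain ⟨s, hs, h1, h2, h3 | h3 | h3 | h3⟩ := G.nv_ne h
    · exact ⟨s, hs.le, h1, by omega⟩
    · exact ⟨s + 1, hs, h2, by omega⟩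
    · exact ⟨s, hs.le, h1, by omega⟩
    · exact ⟨s + 1, hs, h2, by omega⟩

lemma sum_tele (e : E) (i k : ℕ) (hk : k < G.N) (h : ∀ z, ¬ G.inB z i k) :
    G.nh e i k + G.nv e i k = G.nh e (i + 1) k + G.nv e i (k + 1) := by
  have h1 : G.nh e i k + G.nv e i k - (G.nh e (i + 1) k + G.nv e i (k + 1)) =
      ∑ s ∈ Finset.range (G.L e),
        ((if G.x e (s + 1) = i ∧ G.y e (s + 1) = k then (1:ℤ) else 0) -
          (if G.x e s = i ∧ G.y e s = k then 1 else 0)) := by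
    unfold nh nv
    rw [← Finset.sum_add_distrib, ← Finset.sum_add_distrib, ← Finset.sum_sub_distrib]
    refine Finset.sum_congr rfl fun s hs => ?_
    rw [Finset.mem_range] at hs
    exact step_cons G.N3 (G.bY e s hs.le) (G.bY e (s + 1) hs) hk (G.step e s hs)
  rw [Finset.sum_range_sub (fun s => if G.x e s = i ∧ G.y e s = k then (1:ℤ) else 0)] at h1
  have h2 : ¬ (G.x e (G.L e) = i ∧ G.y e (G.L e) = k) := by
    rintro ⟨rfl, rfl⟩
    exact h _ (G.finish e)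
  have h3 : ¬ (G.x e 0 = i ∧ G.y e 0 = k) := by
    rintro ⟨rfl, rfl⟩
    exact h _ (G.start e)
  rw [if_neg h2, if_neg h3] at h1
  linarith

/-- only steps with an end in the block cross its boundary -/
lemma step_bdry_zero {z : V} {a b c d : ℕ} (hb : b < G.N) (hd : d < G.N)
    (h1 : ¬ G.inB z a b) (h2 : ¬ G.inB z c d) :
    (∀ k, G.k0 z ≤ k → k ≤ G.k1 z → fh a b c d (G.i0 z) k = 0) ∧
    (∀ k, G.k0 z ≤ k → k ≤ G.k1 z → fh a b c d (G.i1 z + 1) k = 0) ∧
    (∀ i, G.i0 z ≤ i → i ≤ G.i1 z → fv G.N a b c d i (G.k0 z) = 0) ∧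
    (∀ i, G.i0 z ≤ i → i ≤ G.i1 z → fv G.N a b c d i (G.k1 z + 1) = 0) := by
  have e1 := G.i01 z
  have e2 := G.k01 z
  have e3 := G.k0p z
  have e4 := G.k1N z
  unfold inB at h1 h2
  refine ⟨?_, ?_, ?_, ?_⟩
  · intro k hk hk'
    by_contra h
    have := fh_ne h
    omega
  · intro k hk hk'
    by_contra h
    have := fh_ne h
    omega
  · intro k hk hk'
    by_contra h
    have := fv_ne h
    omega
  · intro k hk hk'
    by_contra h
    have := fv_ne h
    omega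

lemma bdry_single (z : V) (e : E) (s0 : ℕ) (hs0 : s0 < G.L e)
    (h : ∀ s, s < G.L e → s ≠ s0 → ¬ G.inB z (G.x e s) (G.y e s) ∧
      ¬ G.inB z (G.x e (s + 1)) (G.y e (s + 1))) :
    bl (G.nh e) (G.nv e) (G.i0 z) (G.i1 z) (G.k0 z) (G.k1 z) =
      bl (fh (G.x e s0) (G.y e s0) (G.x e (s0 + 1)) (G.y e (s0 + 1)))
        (fv G.N (G.x e s0) (G.y e s0) (G.x e (s0 + 1)) (G.y e (s0 + 1)))
        (G.i0 z) (G.i1 z) (G.k0 z) (G.k1 z) := by
  have key : ∀ s ∈ Finset.range (G.L e), s ≠ s0 → _ := fun s hs hne =>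
    G.step_bdry_zero (z := z) (G.bY e s (Finset.mem_range.1 hs).le)
      (G.bY e (s + 1) (Finset.mem_range.1 hs)) (h s (Finset.mem_range.1 hs) hne).1
      (h s (Finset.mem_range.1 hs) hne).2
  have hm : s0 ∉ Finset.range (G.L e) → False := fun hh => hh (Finset.mem_range.2 hs0)
  refine bl_congr ?_ ?_ ?_ ?_
  · intro k hk hk'
    exact Finset.sum_eq_single s0 (fun s hs hne => (key s hs hne).1 k hk hk')
      (fun hh => (hm hh).elim)
  · intro k hk hk'
    exact Finset.sum_eq_single s0 (fun s hs hne => (key s hs hne).2.1 k hk hk')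
      (fun hh => (hm hh).elim)
  · intro k hk hk'
    exact Finset.sum_eq_single s0 (fun s hs hne => (key s hs hne).2.2.1 k hk hk')
      (fun hh => (hm hh).elim)
  · intro k hk hk'
    exact Finset.sum_eq_single s0 (fun s hs hne => (key s hs hne).2.2.2 k hk hk')
      (fun hh => (hm hh).elim)

lemma not_inB_of_mid {e : E} {s : ℕ} (h0 : 0 < s) (h1 : s < G.L e) (z : V) :
    ¬ G.inB z (G.x e s) (G.y e s) := G.mid e s h0 h1 z

theorem bdry_src (e : E) :
    (bl (G.nh e) (G.nv e) (G.i0 (D.src e)) (G.i1 (D.src e)) (G.k0 (D.src e))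
      (G.k1 (D.src e))).filter (fun n => n ≠ 0) = [1] := by
  have hL := G.L2 e
  rw [G.bdry_single (D.src e) e 0 (by omega)]
  · exact bl_out (G.bY e 0 (by omega)) (G.bY e 1 (by omega)) (G.i0p _) (G.k0p _) (G.k1N _)
      (G.step e 0 (by omega)) (G.start e) (G.mid e 1 (by omega) (by omega) _)
  · intro s hs hne
    refine ⟨G.mid e s (by omega) hs _, ?_⟩
    rcases (show s + 1 ≤ G.L e from hs).lt_or_eq with h | h
    · exact G.mid e (s + 1) (by omega) h _
    · intro h2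
      rw [h] at h2
      exact D.ne e (G.inB_unique h2 (G.finish e))

theorem bdry_tgt (e : E) :
    (bl (G.nh e) (G.nv e) (G.i0 (D.tgt e)) (G.i1 (D.tgt e)) (G.k0 (D.tgt e))
      (G.k1 (D.tgt e))).filter (fun n => n ≠ 0) = [-1] := by
  have hL := G.L2 e
  have e1 : G.L e - 1 + 1 = G.L e := by omega
  rw [G.bdry_single (D.tgt e) e (G.L e - 1) (by omega)]
  · have h1 := G.bY e (G.L e - 1) (by omega)
    have h2 := G.bY e (G.L e) le_rfl
    have h3 := G.step e (G.L e - 1) (by omega)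
    have h4 := G.mid e (G.L e - 1) (by omega) (by omega) (D.tgt e)
    rw [e1] at h3 ⊢
    exact bl_in h1 h2 (G.i0p _) (G.k0p _) (G.k1N _) h3 h4 (G.finish e)
  · intro s hs hne
    refine ⟨?_, G.mid e (s + 1) (by omega) (by omega) _⟩
    rcases Nat.eq_zero_or_pos s with h | h
    · subst h
      intro h2
      exact D.ne e (G.inB_unique (G.start e) h2)
    · exact G.mid e s h hs _

theorem bdry_other (z : V) (e : E) (h1 : D.src e ≠ z) (h2 : D.tgt e ≠ z) :
    (bl (G.nh e) (G.nv e) (G.i0 z) (G.i1 z) (G.k0 z) (G.k1 z)).filter (fun n => n ≠ 0) = [] := by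
  have hL := G.L2 e
  have hno : ∀ s, s ≤ G.L e → ¬ G.inB z (G.x e s) (G.y e s) := by
    intro s hs
    rcases Nat.eq_zero_or_pos s with h | h
    · subst h
      intro h3
      exact h1 (G.inB_unique (G.start e) h3)
    · rcases hs.lt_or_eq with h' | h'
      · exact G.mid e s h h' _
      · subst h'
        intro h3
        exact h2 (G.inB_unique (G.finish e) h3)
  have key : ∀ s ∈ Finset.range (G.L e), _ := fun s hs =>
    G.step_bdry_zero (z := z) (G.bY e s (Finset.mem_range.1 hs).le)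
      (G.bY e (s + 1) (Finset.mem_range.1 hs)) (hno s (Finset.mem_range.1 hs).le)
      (hno (s + 1) (Finset.mem_range.1 hs))
  refine bl_parts (p := []) (q := []) (r := []) (s := []) ?_ ?_ ?_ ?_
  · refine filter_zero fun k hk => ?_
    rw [List.mem_reverse, List.Ico.mem] at hk
    rw [neg_eq_zero]
    exact Finset.sum_eq_zero fun s hs => (key s hs).1 k hk.1 (by omega)
  · refine filter_zero fun k hk => ?_
    rw [List.Ico.mem] at hk
    rw [neg_eq_zero]
    exact Finset.sum_eq_zero fun s hs => (key s hs).2.2.1 k hk.1 (by omega)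
  · refine filter_zero fun k hk => ?_
    rw [List.Ico.mem] at hk
    exact Finset.sum_eq_zero fun s hs => (key s hs).2.1 k hk.1 (by omega)
  · refine filter_zero fun k hk => ?_
    rw [List.mem_reverse, List.Ico.mem] at hk
    exact Finset.sum_eq_zero fun s hs => (key s hs).2.2.2 k hk.1 (by omega)

include G in
/-- The grid flow of a grid walk. -/
theorem toFlow : Nonempty (GridFlow D γ) := by
  classical
  refine ⟨⟨G.M, G.N, G.i0, G.i1, G.k0, G.k1, G.i01, G.i1M, G.k01, fun z => by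
    have := G.k1N z; omega, G.sep, G.order, G.nh, G.nv, ?_, ?_, ?_, ?_, ?_, ?_, ?_, ?_, ?_, ?_⟩⟩
  · intro e k
    by_contra h
    obtain ⟨s, hs, h1⟩ := G.nh_ne h
    omega
  · intro e k
    by_contra h
    obtain ⟨s, hs, h1⟩ := G.nh_ne h
    have h2 := G.bx e s hs.le
    have h3 := G.bx e (s + 1) hs
    omega
  · intro e i
    unfold nv
    refine Finset.sum_congr rfl fun s hs => ?_
    rw [Finset.mem_range] at hs
    have h1 := G.bY e s hs.le
    have h2 := G.bY e (s + 1) hs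
    have h3 := G.N3
    generalize G.y e s = b at *
    generalize G.y e (s + 1) = d at *
    generalize G.N = N at *
    unfold fv
    grind
  · intro i k hi hk h e
    exact G.sum_tele e i k hk h
  · intro i k hi hk h e f hef hne
    obtain ⟨s, hs, h1, h2⟩ := G.visit_cell hk hne
    by_contra hcon
    have hf : G.nh f i k ≠ 0 ∨ G.nv f i k ≠ 0 ∨ G.nh f (i + 1) k ≠ 0 ∨ G.nv f i (k + 1) ≠ 0 := by
      by_contra h3
      push Not at h3
      exact hcon h3
    obtain ⟨t, ht, h3, h4⟩ := G.visit_cell hk hf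
    refine hef (G.visit_excl hs ht (h1.trans h3.symm) (h2.trans h4.symm) ?_)
    rw [h1, h2]
    exact h
  · intro i k e f he hf
    obtain ⟨s, hs, h1⟩ := G.nh_ne he
    obtain ⟨t, ht, h2⟩ := G.nh_ne hf
    have hL := G.L2 e
    obtain ⟨s', hs', hs0, hs1⟩ : ∃ s', (s' = s ∨ s' = s + 1) ∧ 0 < s' ∧ s' < G.L e := by
      rcases Nat.eq_zero_or_pos s with h | h
      · exact ⟨s + 1, Or.inr rfl, by omega, by omega⟩
      · exact ⟨s, Or.inl rfl, h, hs⟩
    obtain ⟨t', ht', hx, hy⟩ : ∃ t', t' ≤ G.L f ∧ G.x e s' = G.x f t' ∧ G.y e s' = G.y f t' := by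
      rcases hs' with rfl | rfl
      · by_cases h : G.x e s' = G.x f t
        · exact ⟨t, ht.le, h, by omega⟩
        · exact ⟨t + 1, ht, by omega, by omega⟩
      · by_cases h : G.x e (s + 1) = G.x f t
        · exact ⟨t, ht.le, h, by omega⟩
        · exact ⟨t + 1, ht, by omega, by omega⟩
    exact G.visit_excl hs1.le ht' hx hy (fun z => G.mid e s' hs0 hs1 z)
  · intro i k e f he hf
    obtain ⟨s, hs, h1⟩ := G.nv_ne he
    obtain ⟨t, ht, h2⟩ := G.nv_ne hf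
    have hL := G.L2 e
    have b1 := G.bY e s hs.le
    have b2 := G.bY e (s + 1) hs
    have b3 := G.bY f t ht.le
    have b4 := G.bY f (t + 1) ht
    have b5 := G.N3
    obtain ⟨s', hs', hs0, hs1⟩ : ∃ s', (s' = s ∨ s' = s + 1) ∧ 0 < s' ∧ s' < G.L e := by
      rcases Nat.eq_zero_or_pos s with h | h
      · exact ⟨s + 1, Or.inr rfl, by omega, by omega⟩
      · exact ⟨s, Or.inl rfl, h, hs⟩
    obtain ⟨t', ht', hx, hy⟩ : ∃ t', t' ≤ G.L f ∧ G.x e s' = G.x f t' ∧ G.y e s' = G.y f t' := by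
      rcases hs' with rfl | rfl
      · by_cases h : G.y e s' = G.y f t
        · exact ⟨t, ht.le, by omega, h⟩
        · exact ⟨t + 1, ht, by omega, by omega⟩
      · by_cases h : G.y e (s + 1) = G.y f t
        · exact ⟨t, ht.le, by omega, h⟩
        · exact ⟨t + 1, ht, by omega, by omega⟩
    exact G.visit_excl hs1.le ht' hx hy (fun z => G.mid e s' hs0 hs1 z)
  · intro z e
    rw [bdry_map]
    by_cases h1 : D.src e = z
    · subst h1
      rw [if_pos rfl]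
      exact G.bdry_src e
    · rw [if_neg h1]
      by_cases h2 : D.tgt e = z
      · subst h2
        rw [if_pos rfl]
        exact G.bdry_tgt e
      · rw [if_neg h2]
        exact G.bdry_other z e h1 h2
  · intro e i k w h hγ
    obtain ⟨s, hs, h1⟩ := G.nh_ne h
    have h2 := G.left e s w hs.le hγ
    have h3 := G.left e (s + 1) w hs hγ
    omega
  · intro e i k w h hγ
    obtain ⟨s, hs, h1⟩ := G.nh_ne h
    have h2 := G.right e s w hs.le hγ
    have h3 := G.right e (s + 1) w hs hγ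
    omega

end GridWalk

end Walk
end CylB
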