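import Mathlib
import Pool.Agent.Lib.MP_c5238b_co.M4a

/-!
# MP_c5238b_co, module M4: from a continuous embedding to grid walks
-/

namespace CylB
namespace Topo

open Filter Topology

/-! ## the circle -/

/-- representative in `[0,1)` -/
noncomputable def rep (θ : UnitAddCircle) : ℝ := (AddCircle.equivIco 1 0 θ : ℝ)

lemma rep_nonneg (θ : UnitAddCircle) : 0 ≤ rep θ := (AddCircle.equivIco 1 0 θ).2.1

lemma rep_lt_one (θ : UnitAddCircle) : rep θ < 1 := by
  have h1 : rep θ < (0:ℝ) + 1 := (AddCircle.equivIco 1 0 θ).2.2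
  linarith

lemma coe_rep (θ : UnitAddCircle) : ((rep θ : ℝ) : UnitAddCircle) = θ :=
  AddCircle.coe_equivIco

lemma rep_pos {θ : UnitAddCircle} (h : θ ≠ 0) : 0 < rep θ := by
  refine lt_of_le_of_ne (rep_nonneg θ) fun h0 => h ?_
  rw [← coe_rep θ, ← h0]
  simp

lemma dist_circ (θ θ' : UnitAddCircle) :
    dist θ θ' = |(rep θ - rep θ') - round (rep θ - rep θ')| := by
  rw [← UnitAddCircle.norm_eq, AddCircle.coe_sub, coe_rep, coe_rep, dist_eq_norm]

lemma dist_circ_le (θ θ' : UnitAddCircle) : dist θ θ' ≤ |rep θ - rep θ'| := by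
  rw [dist_circ]
  have := round_le (rep θ - rep θ') 0
  simpa using this

lemma dist_circ_cases {θ θ' : UnitAddCircle} {ε : ℝ} (h : dist θ θ' < ε) :
    |rep θ - rep θ'| < ε ∨ 1 - (rep θ - rep θ') < ε ∨ 1 - (rep θ' - rep θ) < ε := by
  rw [dist_circ] at h
  have h1 := rep_nonneg θ
  have h2 := rep_lt_one θ
  have h3 := rep_nonneg θ'
  have h4 := rep_lt_one θ'
  have h5 := abs_sub_round (rep θ - rep θ')
  rw [abs_le] at h5
  obtain ⟨m, hm⟩ : ∃ m : ℤ, m = round (rep θ - rep θ') := ⟨_, rfl⟩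
  rw [← hm] at h h5
  have h6 : (m:ℝ) < 2 := by linarith
  have h7 : (-2:ℝ) < m := by linarith
  have h8 : m < 2 := by exact_mod_cast h6
  have h9 : -2 < m := by exact_mod_cast h7
  rw [abs_lt] at h
  have h10 : m = 0 ∨ m = 1 ∨ m = -1 := by omega
  rcases h10 with rfl | rfl | rfl
  · left
    rw [abs_lt]
    push_cast at h
    constructor <;> linarith
  · right; left
    push_cast at h
    linarith
  · right; right
    push_cast at h
    linarith

/-! ## cells -/

/-- column of a point -/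
noncomputable def col (N : ℕ) (p : Cyl) : ℕ := ⌊(N:ℝ) * p.1⌋₊
/-- row of a point -/
noncomputable def row (N : ℕ) (p : Cyl) : ℕ := ⌊(N:ℝ) * rep p.2⌋₊

lemma col_le' (N : ℕ) (p : Cyl) : (col N p : ℝ) ≤ N * p.1 :=
  Nat.floor_le (mul_nonneg (Nat.cast_nonneg _) p.1.2.1)

lemma lt_col (N : ℕ) (p : Cyl) : (N:ℝ) * p.1 < col N p + 1 := Nat.lt_floor_add_one _

lemma row_le' (N : ℕ) (p : Cyl) : (row N p : ℝ) ≤ N * rep p.2 :=
  Nat.floor_le (mul_nonneg (Nat.cast_nonneg _) (rep_nonneg _))

lemma lt_row (N : ℕ) (p : Cyl) : (N:ℝ) * rep p.2 < row N p + 1 := Nat.lt_floor_add_one _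

lemma col_le (N : ℕ) (p : Cyl) : col N p ≤ N := by
  have h1 := col_le' N p
  have h2 : (N:ℝ) * p.1 ≤ N * 1 := mul_le_mul_of_nonneg_left p.1.2.2 (Nat.cast_nonneg _)
  have h3 : (col N p : ℝ) ≤ N := by linarith
  exact_mod_cast h3

lemma row_lt {N : ℕ} (hN : 0 < N) (p : Cyl) : row N p < N := by
  have h1 := row_le' N p
  have h0 : (0:ℝ) < N := by exact_mod_cast hN
  have h2 : (N:ℝ) * rep p.2 < N * 1 := mul_lt_mul_of_pos_left (rep_lt_one _) h0
  have h3 : (row N p : ℝ) < N := by linarith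
  exact_mod_cast h3

lemma natCast_lt_of {a b : ℕ} (h : (a:ℝ) < b + 1) : a ≤ b := by
  have : a < b + 1 := by exact_mod_cast h
  omega

/-- close points: columns -/
lemma col_near {N : ℕ} {p q : Cyl} {R : ℕ} (h : (N:ℝ) * |(p.1:ℝ) - q.1| < R) :
    col N p ≤ col N q + R ∧ col N q ≤ col N p + R := by
  have h1 := col_le' N p
  have h2 := lt_col N p
  have h3 := col_le' N q
  have h4 := lt_col N q
  have h0 : (0:ℝ) ≤ N := Nat.cast_nonneg _
  have h5 := mul_le_mul_of_nonneg_left (le_abs_self ((p.1:ℝ) - q.1)) h0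
  have h6 := mul_le_mul_of_nonneg_left (neg_abs_le ((p.1:ℝ) - q.1)) h0
  constructor
  · apply natCast_lt_of
    push_cast
    linarith
  · apply natCast_lt_of
    push_cast
    linarith

lemma row_near {N : ℕ} {p q : Cyl} {R : ℕ} (h : (N:ℝ) * |rep p.2 - rep q.2| < R) :
    row N p ≤ row N q + R ∧ row N q ≤ row N p + R := by
  have h1 := row_le' N p
  have h2 := lt_row N p
  have h3 := row_le' N q
  have h4 := lt_row N q
  have h0 : (0:ℝ) ≤ N := Nat.cast_nonneg _
  have h5 := mul_le_mul_of_nonneg_left (le_abs_self (rep p.2 - rep q.2)) h0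
  have h6 := mul_le_mul_of_nonneg_left (neg_abs_le (rep p.2 - rep q.2)) h0
  constructor
  · apply natCast_lt_of
    push_cast
    linarith
  · apply natCast_lt_of
    push_cast
    linarith

lemma dist_fst_le (p q : Cyl) : |(p.1:ℝ) - q.1| ≤ dist p q := by
  have h1 : dist p.1 q.1 ≤ dist p q := by
    rw [Prod.dist_eq]; exact le_max_left _ _
  rwa [Subtype.dist_eq, Real.dist_eq] at h1

lemma dist_snd_le (p q : Cyl) : dist p.2 q.2 ≤ dist p q := by
  rw [Prod.dist_eq]; exact le_max_right _ _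

/-- an elementary step between cells of close points with the same second coordinate -/
lemma step_h {N : ℕ} (hN : 0 < N) {p q : Cyl} (h2 : p.2 = q.2) (h : dist p q < 1 / N) :
    Walk.Step N (col N p) (row N p) (col N q) (row N q) := by
  have h0 : (0:ℝ) < N := by exact_mod_cast hN
  have h1 := dist_fst_le p q
  have h3 : (N:ℝ) * |(p.1:ℝ) - q.1| < (1:ℕ) := by
    rw [lt_div_iff₀ h0] at h
    push_cast
    nlinarith
  have h4 := col_near h3
  left
  refine ⟨by unfold row; rw [h2], by omega⟩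

/-- an elementary step between cells of close points with the same first coordinate -/
lemma step_v {N : ℕ} (hN : 0 < N) {p q : Cyl} (h2 : p.1 = q.1) (h : dist p q < 1 / N) :
    Walk.Step N (col N p) (row N p) (col N q) (row N q) := by
  have h0 : (0:ℝ) < N := by exact_mod_cast hN
  have h1 := (dist_snd_le p q).trans_lt h
  have hc : col N p = col N q := by unfold col; rw [h2]
  have a1 := row_le' N p
  have a2 := lt_row N p
  have a3 := row_le' N q
  have a4 := lt_row N q
  have a5 := row_lt hN p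
  have a6 := row_lt hN q
  rcases dist_circ_cases h1 with h3 | h3 | h3
  · have h4 : (N:ℝ) * |rep p.2 - rep q.2| < (1:ℕ) := by
      rw [lt_div_iff₀ h0] at h3
      push_cast
      linarith
    have h5 := row_near h4
    unfold Walk.Step
    omega
  · -- `rep p` close to one, `rep q` close to zero
    rw [lt_div_iff₀ h0] at h3
    have b1 := rep_nonneg q.2
    have b2 := rep_lt_one p.2
    have h4 : (row N q : ℝ) < (0:ℕ) + 1 := by
      push_cast
      nlinarith
    have h5 : ((N - 1 : ℕ) : ℝ) < row N p + 1 := by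
      rw [Nat.cast_sub hN]
      push_cast
      nlinarith [mul_nonneg b1 h0.le]
    have h6 := natCast_lt_of h4
    have h7 := natCast_lt_of h5
    unfold Walk.Step
    omega
  · rw [lt_div_iff₀ h0] at h3
    have b1 := rep_nonneg p.2
    have b2 := rep_lt_one q.2
    have h4 : (row N p : ℝ) < (0:ℕ) + 1 := by
      push_cast
      nlinarith
    have h5 : ((N - 1 : ℕ) : ℝ) < row N q + 1 := by
      rw [Nat.cast_sub hN]
      push_cast
      nlinarith [mul_nonneg b1 h0.le]
    have h6 := natCast_lt_of h4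
    have h7 := natCast_lt_of h5
    unfold Walk.Step
    omega

/-- points with nearby cells are close -/
lemma dist_of_cell {N : ℕ} (hN : 0 < N) {p q : Cyl} {R : ℕ} (h1 : col N p ≤ col N q + R)
    (h2 : col N q ≤ col N p + R) (h3 : row N p ≤ row N q + R) (h4 : row N q ≤ row N p + R) :
    dist p q < (R + 1) / N := by
  have h0 : (0:ℝ) < N := by exact_mod_cast hN
  have a1 := row_le' N p
  have a2 := lt_row N p
  have a3 := row_le' N q
  have a4 := lt_row N q
  have c1 := col_le' N p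
  have c2 := lt_col N p
  have c3 := col_le' N q
  have c4 := lt_col N q
  have e1 : (col N p : ℝ) ≤ col N q + R := by exact_mod_cast h1
  have e2 : (col N q : ℝ) ≤ col N p + R := by exact_mod_cast h2
  have e3 : (row N p : ℝ) ≤ row N q + R := by exact_mod_cast h3
  have e4 : (row N q : ℝ) ≤ row N p + R := by exact_mod_cast h4
  rw [Prod.dist_eq]
  refine max_lt ?_ ?_
  · rw [Subtype.dist_eq, Real.dist_eq, lt_div_iff₀ h0, ← abs_of_pos h0, ← abs_mul, abs_lt]
    constructor <;> linarith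
  · refine (dist_circ_le _ _).trans_lt ?_
    rw [lt_div_iff₀ h0, ← abs_of_pos h0, ← abs_mul, abs_lt]
    constructor <;> linarith

/-- points close to a point away from the cut have nearby cells -/
lemma cell_of_dist {N : ℕ} (hN : 0 < N) {p q : Cyl} {R : ℕ} {δ : ℝ} (hR : (R:ℝ) ≤ δ * N)
    (hq1 : δ ≤ rep q.2) (hq2 : rep q.2 ≤ 1 - δ) (h : dist p q < R / N) :
    (col N p ≤ col N q + R ∧ col N q ≤ col N p + R) ∧
      (row N p ≤ row N q + R ∧ row N q ≤ row N p + R) := by
  have h0 : (0:ℝ) < N := by exact_mod_cast hN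
  have hRδ : (R:ℝ) / N ≤ δ := by rwa [div_le_iff₀ h0]
  constructor
  · apply col_near
    have h1 := dist_fst_le p q
    rw [lt_div_iff₀ h0] at h
    nlinarith
  · apply row_near
    have h1 := (dist_snd_le p q).trans_lt h
    have b1 := rep_nonneg p.2
    have b2 := rep_lt_one p.2
    rcases dist_circ_cases h1 with h3 | h3 | h3
    · rw [lt_div_iff₀ h0] at h3
      linarith
    · exfalso
      linarith
    · exfalso
      linarith

/-! ## compactness -/

lemma pos_lower_on {X : Type*} [TopologicalSpace X] {K : Set X} (hK : IsCompact K) {f : X → ℝ}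
    (hf : Continuous f) (hp : ∀ x ∈ K, 0 < f x) : ∀ᶠ ε in 𝓝[>] (0:ℝ), ∀ x ∈ K, ε < f x := by
  rcases K.eq_empty_or_nonempty with rfl | hne
  · exact Filter.Eventually.of_forall fun ε x hx => hx.elim
  · obtain ⟨x0, hx0, hmin⟩ := hK.exists_isMinOn hne hf.continuousOn
    filter_upwards [Ioo_mem_nhdsGT (hp x0 hx0)] with ε hε x hx
    exact hε.2.trans_le (hmin hx)

lemma pos_lower {X : Type*} [TopologicalSpace X] [CompactSpace X] {f : X → ℝ}
    (hf : Continuous f) (hp : ∀ x, 0 < f x) : ∀ᶠ ε in 𝓝[>] (0:ℝ), ∀ x, 8 * ε < f x := by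
  have h1 := pos_lower_on isCompact_univ (f := fun x => f x / 8) (by fun_prop)
    (fun x _ => by have := hp x; positivity)
  filter_upwards [h1] with ε hε x
  have := hε x (Set.mem_univ _)
  linarith

lemma pos_const {c : ℝ} (hc : 0 < c) : ∀ᶠ ε in 𝓝[>] (0:ℝ), 8 * ε < c := by
  filter_upwards [Ioo_mem_nhdsGT (show 0 < c / 8 by positivity)] with ε hε
  linarith [hε.2]

section emb

variable {V E : Type*} {D : Gr V E} {γ : V → ℕ} {pos : V → Cyl} {φ : E → unitInterval → Cyl}

lemma rotate (h : CylEmb D γ pos φ) (a : UnitAddCircle) :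
    CylEmb D γ (fun v => ((pos v).1, (pos v).2 + a)) (fun e t => ((φ e t).1, (φ e t).2 + a)) := by
  have hinj : ∀ p q : Cyl, (p.1, p.2 + a) = (q.1, q.2 + a) → p = q := by
    intro p q hpq
    rw [Prod.mk.injEq, add_left_inj] at hpq
    exact Prod.ext hpq.1 hpq.2
  refine ⟨h.le, ?_, h.interior, ?_, ?_, ?_, ?_, ?_, ?_, h.order, h.bdd⟩
  · intro u v huv
    exact h.pos_inj (hinj _ _ huv)
  · intro e
    have := h.cont e
    fun_prop
  · intro e s t hst
    exact h.inj e (hinj _ _ hst)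
  · intro e
    simp only [h.start]
  · intro e
    simp only [h.finish]
  · intro e t w hw
    exact h.avoid e t w (hinj _ _ hw)
  · intro e f hef s t hst
    obtain ⟨v, h1, h2, h3⟩ := h.disj e f hef s t (hinj _ _ hst)
    exact ⟨v, by rw [h1], h2, h3⟩

/-- constants -/
structure Consts (D : Gr V E) (γ : V → ℕ) (pos : V → Cyl) (φ : E → unitInterval → Cyl)
    (δ : ℝ) : Prop where
  c1 : ∀ v, 8 * δ < (pos v).1
  c1' : ∀ v, 8 * δ < 1 - (pos v).1
  c2 : ∀ v, 8 * δ < rep (pos v).2
  c2' : ∀ v, 8 * δ < 1 - rep (pos v).2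
  c3 : ∀ u v, u ≠ v → 8 * δ < dist (pos u) (pos v)
  c4 : ∀ u v, γ u < γ v → 8 * δ < ((pos v).1 : ℝ) - (pos u).1
  c5 : ∀ e w, w ≠ D.src e → w ≠ D.tgt e → ∀ t, 8 * δ < dist (pos w) (φ e t)
  c6 : ∀ e w, γ w < γ (D.src e) → ∀ t, 8 * δ < ((φ e t).1 : ℝ) - (pos w).1
  c6' : ∀ e w, γ (D.tgt e) < γ w → ∀ t, 8 * δ < ((pos w).1 : ℝ) - (φ e t).1

lemma left_of (h : CylEmb D γ pos φ) {e : E} {w : V} (hw : γ w < γ (D.src e))
    (t : unitInterval) : (pos w).1 < (φ e t).1 := by
  by_contra hcon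
  push Not at hcon
  have h0 : (pos w).1 ≤ (φ e 0).1 := by
    rw [h.start]
    exact (h.order _ _ hw).le
  obtain ⟨s, hs⟩ := mem_range_of_exists_le_of_exists_ge (f := fun s => (φ e s).1)
    (c := (pos w).1) (continuous_fst.comp (h.cont e)) ⟨t, hcon⟩ ⟨0, h0⟩
  have := h.bdd e s w hs
  omega

lemma right_of (h : CylEmb D γ pos φ) {e : E} {w : V} (hw : γ (D.tgt e) < γ w)
    (t : unitInterval) : (φ e t).1 < (pos w).1 := by
  by_contra hcon
  push Not at hcon
  have h0 : (φ e 1).1 ≤ (pos w).1 := by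
    rw [h.finish]
    exact (h.order _ _ hw).le
  obtain ⟨s, hs⟩ := mem_range_of_exists_le_of_exists_ge (f := fun s => (φ e s).1)
    (c := (pos w).1) (continuous_fst.comp (h.cont e)) ⟨1, h0⟩ ⟨t, hcon⟩
  have := h.bdd e s w hs
  omega

lemma exists_consts [Finite V] [Finite E] (h : CylEmb D γ pos φ) (h0 : ∀ v, (pos v).2 ≠ 0) :
    ∃ δ, 0 < δ ∧ Consts D γ pos φ δ := by
  have hfst : Continuous fun p : Cyl => (p.1 : ℝ) := continuous_subtype_val.comp continuous_fst
  have a1 : ∀ᶠ δ in 𝓝[>] (0:ℝ), ∀ v, 8 * δ < ((pos v).1 : ℝ) :=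
    eventually_all.2 fun v => pos_const (h.interior v).1
  have a1' : ∀ᶠ δ in 𝓝[>] (0:ℝ), ∀ v, 8 * δ < 1 - ((pos v).1 : ℝ) :=
    eventually_all.2 fun v => pos_const (sub_pos.2 (h.interior v).2)
  have a2 : ∀ᶠ δ in 𝓝[>] (0:ℝ), ∀ v, 8 * δ < rep (pos v).2 :=
    eventually_all.2 fun v => pos_const (rep_pos (h0 v))
  have a2' : ∀ᶠ δ in 𝓝[>] (0:ℝ), ∀ v, 8 * δ < 1 - rep (pos v).2 :=
    eventually_all.2 fun v => pos_const (sub_pos.2 (rep_lt_one _))
  have a3 : ∀ᶠ δ in 𝓝[>] (0:ℝ), ∀ u v, u ≠ v → 8 * δ < dist (pos u) (pos v) := by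
    refine eventually_all.2 fun u => eventually_all.2 fun v => ?_
    by_cases huv : u = v
    · exact Filter.Eventually.of_forall fun _ hh => absurd huv hh
    · filter_upwards [pos_const (dist_pos.2 fun hh => huv (h.pos_inj hh))] with δ hδ _
      exact hδ
  have a4 : ∀ᶠ δ in 𝓝[>] (0:ℝ), ∀ u v, γ u < γ v → 8 * δ < ((pos v).1 : ℝ) - (pos u).1 := by
    refine eventually_all.2 fun u => eventually_all.2 fun v => ?_
    by_cases huv : γ u < γ v
    · filter_upwards [pos_const (sub_pos.2 (h.order u v huv))] with δ hδ _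
      exact hδ
    · exact Filter.Eventually.of_forall fun _ hh => absurd hh huv
  have a5 : ∀ᶠ δ in 𝓝[>] (0:ℝ), ∀ e w, w ≠ D.src e → w ≠ D.tgt e → ∀ t,
      8 * δ < dist (pos w) (φ e t) := by
    refine eventually_all.2 fun e => eventually_all.2 fun w => ?_
    by_cases h1 : w = D.src e
    · exact Filter.Eventually.of_forall fun _ hh => absurd h1 hh
    by_cases h2 : w = D.tgt e
    · exact Filter.Eventually.of_forall fun _ _ hh => absurd h2 hh
    filter_upwards [pos_lower (f := fun t => dist (pos w) (φ e t))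
      (continuous_const.dist (h.cont e)) (fun t => dist_pos.2 fun hh => by
        rcases h.avoid e t w hh.symm with h3 | h3
        · exact h1 h3
        · exact h2 h3)] with δ hδ _ _
    exact hδ
  have a6 : ∀ᶠ δ in 𝓝[>] (0:ℝ), ∀ e w, γ w < γ (D.src e) → ∀ t,
      8 * δ < ((φ e t).1 : ℝ) - (pos w).1 := by
    refine eventually_all.2 fun e => eventually_all.2 fun w => ?_
    by_cases h1 : γ w < γ (D.src e)
    · filter_upwards [pos_lower (f := fun t => ((φ e t).1 : ℝ) - (pos w).1)
        ((hfst.comp (h.cont e)).sub continuous_const)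
        (fun t => sub_pos.2 (left_of h h1 t))] with δ hδ _
      exact hδ
    · exact Filter.Eventually.of_forall fun _ hh => absurd hh h1
  have a6' : ∀ᶠ δ in 𝓝[>] (0:ℝ), ∀ e w, γ (D.tgt e) < γ w → ∀ t,
      8 * δ < ((pos w).1 : ℝ) - (φ e t).1 := by
    refine eventually_all.2 fun e => eventually_all.2 fun w => ?_
    by_cases h1 : γ (D.tgt e) < γ w
    · filter_upwards [pos_lower (f := fun t => ((pos w).1 : ℝ) - (φ e t).1)
        (continuous_const.sub (hfst.comp (h.cont e)))
        (fun t => sub_pos.2 (right_of h h1 t))] with δ hδ _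
      exact hδ
    · exact Filter.Eventually.of_forall fun _ hh => absurd hh h1
  have hall := a1.and (a1'.and (a2.and (a2'.and (a3.and (a4.and (a5.and (a6.and a6')))))))
  obtain ⟨δ, hδ, hδ0⟩ := (hall.and self_mem_nhdsWithin).exists
  obtain ⟨b1, b1', b2, b2', b3, b4, b5, b6, b6'⟩ := hδ
  exact ⟨δ, hδ0, ⟨b1, b1', b2, b2', b3, b4, b5, b6, b6'⟩⟩

lemma exists_eta [Finite E] [Finite V] (h : CylEmb D γ pos φ) {δ : ℝ} (hδ : 0 < δ) :
    ∃ η, 0 < η ∧ ∀ e f, e ≠ f → ∀ s t, (∀ v, δ ≤ dist (φ e s) (pos v)) →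
      (∀ v, δ ≤ dist (φ f t) (pos v)) → η < dist (φ e s) (φ f t) := by
  have a1 : ∀ᶠ η in 𝓝[>] (0:ℝ), ∀ e f, e ≠ f → ∀ s t, (∀ v, δ ≤ dist (φ e s) (pos v)) →
      (∀ v, δ ≤ dist (φ f t) (pos v)) → η < dist (φ e s) (φ f t) := by
    refine eventually_all.2 fun e => eventually_all.2 fun f => ?_
    by_cases hef : e = f
    · exact Filter.Eventually.of_forall fun _ hh => absurd hef hh
    have hK : IsClosed {q : unitInterval × unitInterval |
        (∀ v, δ ≤ dist (φ e q.1) (pos v)) ∧ (∀ v, δ ≤ dist (φ f q.2) (pos v))} := by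
      have he := h.cont e
      have hf := h.cont f
      have c1 : IsClosed {q : unitInterval × unitInterval | ∀ v, δ ≤ dist (φ e q.1) (pos v)} := by
        simp only [Set.ofPred_forall]
        exact isClosed_iInter fun v => isClosed_le continuous_const (by fun_prop)
      have c2 : IsClosed {q : unitInterval × unitInterval | ∀ v, δ ≤ dist (φ f q.2) (pos v)} := by
        simp only [Set.ofPred_forall]
        exact isClosed_iInter fun v => isClosed_le continuous_const (by fun_prop)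
      exact c1.inter c2
    have he := h.cont e
    have hf := h.cont f
    have h1 := pos_lower_on hK.isCompact (f := fun q => dist (φ e q.1) (φ f q.2)) (by fun_prop) (by
      rintro ⟨s, t⟩ ⟨hs, ht⟩
      refine dist_pos.2 fun hh => ?_
      obtain ⟨v, hv, -, -⟩ := h.disj e f hef s t hh
      have := hs v
      simp only at this
      rw [hv, dist_self] at this
      linarith)
    filter_upwards [h1] with η hη _ s t hs ht
    exact hη (s, t) ⟨hs, ht⟩
  obtain ⟨η, hη, hη0⟩ := (a1.and self_mem_nhdsWithin).exists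
  exact ⟨η, hη0, hη⟩

/-! ## walks -/

/-- the points of the raw walk -/
def wp (q : ℕ → Cyl) (s : ℕ) : Cyl := ((q ((s + 1) / 2)).1, (q (s / 2)).2)

lemma dist_h {p q : Cyl} {a : UnitAddCircle} {ε : ℝ} (hε : 0 < ε) (h : dist p q < ε) :
    dist ((p.1, a) : Cyl) (q.1, a) < ε := by
  rw [Prod.dist_eq]
  refine max_lt ?_ ?_
  · exact lt_of_le_of_lt (by rw [Prod.dist_eq]; exact le_max_left _ _) h
  · simpa using hε

lemma dist_v {p q : Cyl} {a : unitInterval} {ε : ℝ} (hε : 0 < ε) (h : dist p q < ε) :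
    dist ((a, p.2) : Cyl) (a, q.2) < ε := by
  rw [Prod.dist_eq]
  refine max_lt ?_ ?_
  · simpa using hε
  · exact lt_of_le_of_lt (by rw [Prod.dist_eq]; exact le_max_right _ _) h

lemma wp_close {q : ℕ → Cyl} {ε : ℝ} (hε : 0 < ε) (hq : ∀ t, dist (q t) (q (t + 1)) < ε)
    (s : ℕ) : dist (wp q s) (q (s / 2)) < ε := by
  rcases Nat.even_or_odd' s with ⟨t, rfl | rfl⟩
  · have h1 : (2 * t + 1) / 2 = t := by omega
    have h2 : 2 * t / 2 = t := by omega
    have : wp q (2 * t) = q t := by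
      unfold wp
      rw [h1, h2]
    rw [this, h2, dist_self]
    exact hε
  · have h1 : (2 * t + 1 + 1) / 2 = t + 1 := by omega
    have h2 : (2 * t + 1) / 2 = t := by omega
    unfold wp
    rw [h1, h2]
    have h3 := hq t
    rw [dist_comm] at h3
    exact dist_h (a := (q t).2) hε h3

lemma wp_step {q : ℕ → Cyl} {N : ℕ} (hN : 0 < N) (hq : ∀ t, dist (q t) (q (t + 1)) < 1 / N)
    (s : ℕ) : Walk.Step N (col N (wp q s)) (row N (wp q s)) (col N (wp q (s + 1)))
      (row N (wp q (s + 1))) := by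
  have h0 : (0:ℝ) < 1 / N := by positivity
  rcases Nat.even_or_odd' s with ⟨t, rfl | rfl⟩
  · have h1 : (2 * t + 1) / 2 = t := by omega
    have h2 : 2 * t / 2 = t := by omega
    have h3 : (2 * t + 1 + 1) / 2 = t + 1 := by omega
    have e1 : wp q (2 * t) = ((q t).1, (q t).2) := by unfold wp; rw [h1, h2]
    have e2 : wp q (2 * t + 1) = ((q (t + 1)).1, (q t).2) := by unfold wp; rw [h1, h3]
    rw [e1, e2]
    exact step_h hN rfl (dist_h h0 (hq t))
  · have h2 : (2 * t + 1) / 2 = t := by omega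
    have h3 : (2 * t + 1 + 1) / 2 = t + 1 := by omega
    have h4 : (2 * t + 1 + 1 + 1) / 2 = t + 1 := by omega
    have e1 : wp q (2 * t + 1) = ((q (t + 1)).1, (q t).2) := by unfold wp; rw [h2, h3]
    have e2 : wp q (2 * t + 1 + 1) = ((q (t + 1)).1, (q (t + 1)).2) := by
      unfold wp; rw [h3, h4]
    rw [e1, e2]
    exact step_v hN rfl (dist_v h0 (hq t))

lemma exists_q {f : unitInterval → Cyl} (hc : Continuous f) {ε : ℝ} (hε : 0 < ε) :
    ∃ (m : ℕ) (q : ℕ → Cyl), q 0 = f 0 ∧ q m = f 1 ∧ (∀ t, dist (q t) (q (t + 1)) < ε) ∧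
      ∀ t, ∃ s, q t = f s := by
  have hu := CompactSpace.uniformContinuous_of_continuous hc
  rw [Metric.uniformContinuous_iff] at hu
  obtain ⟨ρ, hρ, h1⟩ := hu ε hε
  obtain ⟨m, hm⟩ := exists_nat_gt (1 / ρ)
  have hm0 : (0:ℝ) < m := lt_trans (by positivity) hm
  refine ⟨m, fun t => f (Set.projIcc 0 1 zero_le_one ((t:ℝ) / m)), ?_, ?_, ?_, ?_⟩
  · show f (Set.projIcc 0 1 zero_le_one (((0:ℕ):ℝ) / m)) = f 0
    congr 1
    have : ((0:ℕ):ℝ) / m = 0 := by simp
    rw [this]
    exact Set.projIcc_left zero_le_one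
  · show f (Set.projIcc 0 1 zero_le_one ((m:ℝ) / m)) = f 1
    congr 1
    have : (m:ℝ) / m = 1 := div_self hm0.ne'
    rw [this]
    exact Set.projIcc_right zero_le_one
  · intro t
    apply h1
    have h2 := (LipschitzWith.projIcc (zero_le_one (α := ℝ))).dist_le_mul ((t:ℝ) / m)
      (((t + 1 : ℕ) : ℝ) / m)
    refine h2.trans_lt ?_
    rw [Real.dist_eq]
    have e1 : (t:ℝ) / m - ((t + 1 : ℕ) : ℝ) / m = -(1 / m) := by
      push_cast
      field_simp
      ring
    rw [e1, abs_neg, abs_of_pos (by positivity)]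
    simp only [NNReal.coe_one, one_mul]
    rw [div_lt_iff₀ hρ] at hm
    rw [div_lt_iff₀ hm0]
    linarith
  · intro t
    exact ⟨_, rfl⟩

lemma cut {P Q : ℕ → Prop} {T : ℕ} (hP : P 0) (hQ : Q T) (hPQ : ∀ s, P s → ¬ Q s)
    (hadj : ∀ s, P s → ¬ Q (s + 1)) :
    ∃ a b, b ≤ T ∧ a + 2 ≤ b ∧ P a ∧ Q b ∧ ∀ s, a < s → s < b → ¬ P s ∧ ¬ Q s := by
  classical
  obtain ⟨a, ha⟩ : ∃ a, a = Nat.findGreatest P T := ⟨_, rfl⟩
  have ha1 : P a := ha ▸ Nat.findGreatest_spec (Nat.zero_le T) hP
  have ha2 : a ≤ T := ha ▸ Nat.findGreatest_le T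
  have ha3 : ∀ s, a < s → s ≤ T → ¬ P s := by
    intro s h1 h2
    rw [ha] at h1
    exact Nat.findGreatest_is_greatest h1 h2
  have hex : ∃ b, a ≤ b ∧ Q b := ⟨T, ha2, hQ⟩
  obtain ⟨b, hb⟩ : ∃ b, b = Nat.find hex := ⟨_, rfl⟩
  have hb1 : a ≤ b ∧ Q b := hb ▸ Nat.find_spec hex
  have hb2 : ∀ s, s < b → ¬ (a ≤ s ∧ Q s) := by
    intro s hs
    rw [hb] at hs
    exact Nat.find_min hex hs
  have hb3 : b ≤ T := by
    rw [hb]
    exact Nat.find_min' hex ⟨ha2, hQ⟩
  have hne : a ≠ b := by
    rintro rfl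
    exact hPQ a ha1 hb1.2
  have hne' : a + 1 ≠ b := by
    rintro rfl
    exact hadj a ha1 hb1.2
  refine ⟨a, b, hb3, by omega, ha1, hb1.2, ?_⟩
  intro s h1 h2
  exact ⟨ha3 s h1 (by omega), fun h => hb2 s h2 ⟨h1.le, h⟩⟩

/-- being in the block of a point -/
def InB (N R : ℕ) (p : Cyl) (i k : ℕ) : Prop :=
  col N p - R ≤ i ∧ i ≤ col N p + R ∧ row N p - R ≤ k ∧ k ≤ row N p + R

lemma blocks_sep {N R : ℕ} {δ : ℝ} (hN : (0:ℝ) < N) (hK : 4 < δ * N) (hR : (R:ℝ) ≤ δ * N)
    {p q : Cyl} (h : 8 * δ < dist p q) :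
    col N p + R + 1 < col N q - R ∨ col N q + R + 1 < col N p - R ∨
      row N p + R + 1 < row N q - R ∨ row N q + R + 1 < row N p - R := by
  have a1 := row_le' N p
  have a2 := lt_row N p
  have a3 := row_le' N q
  have a4 := lt_row N q
  have c1 := col_le' N p
  have c2 := lt_col N p
  have c3 := col_le' N q
  have c4 := lt_col N q
  rw [Prod.dist_eq] at h
  rcases lt_max_iff.1 h with h1 | h1
  · rw [Subtype.dist_eq, Real.dist_eq] at h1
    rcases lt_abs.1 h1 with h2 | h2
    · have h3 := mul_lt_mul_of_pos_right h2 hN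
      have h4 : ((col N q + 2 * R + 1 : ℕ) : ℝ) < col N p := by
        push_cast
        linarith
      have h5 : col N q + 2 * R + 1 < col N p := by exact_mod_cast h4
      omega
    · have h3 := mul_lt_mul_of_pos_right h2 hN
      have h4 : ((col N p + 2 * R + 1 : ℕ) : ℝ) < col N q := by
        push_cast
        linarith
      have h5 : col N p + 2 * R + 1 < col N q := by exact_mod_cast h4
      omega
  · have h1' := h1.trans_le (dist_circ_le _ _)
    rcases lt_abs.1 h1' with h2 | h2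
    · have h3 := mul_lt_mul_of_pos_right h2 hN
      have h4 : ((row N q + 2 * R + 1 : ℕ) : ℝ) < row N p := by
        push_cast
        linarith
      have h5 : row N q + 2 * R + 1 < row N p := by exact_mod_cast h4
      omega
    · have h3 := mul_lt_mul_of_pos_right h2 hN
      have h4 : ((row N p + 2 * R + 1 : ℕ) : ℝ) < row N q := by
        push_cast
        linarith
      have h5 : row N p + 2 * R + 1 < row N q := by exact_mod_cast h4
      omega

/-- bounds for the block of a vertex -/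
lemma block_bounds {N R : ℕ} {δ : ℝ} (hN : (0:ℝ) < N) (hK : 4 < δ * N) (hR : (R:ℝ) ≤ δ * N)
    (C : Consts D γ pos φ δ) (v : V) :
    1 ≤ col N (pos v) - R ∧ col N (pos v) + R < N + 1 ∧ 1 ≤ row N (pos v) - R ∧
      row N (pos v) + R + 1 < N := by
  have a1 := row_le' N (pos v)
  have a2 := lt_row N (pos v)
  have c1 := col_le' N (pos v)
  have c2 := lt_col N (pos v)
  have d1 := mul_lt_mul_of_pos_right (C.c1 v) hN
  have d2 := mul_lt_mul_of_pos_right (C.c1' v) hN
  have d3 := mul_lt_mul_of_pos_right (C.c2 v) hN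
  have d4 := mul_lt_mul_of_pos_right (C.c2' v) hN
  have e1 : ((R + 1 : ℕ) : ℝ) < col N (pos v) := by push_cast; linarith
  have e2 : ((col N (pos v) + R : ℕ) : ℝ) < ((N + 1 : ℕ) : ℝ) := by push_cast; linarith
  have e3 : ((R + 1 : ℕ) : ℝ) < row N (pos v) := by push_cast; linarith
  have e4 : ((row N (pos v) + R + 1 : ℕ) : ℝ) < N := by push_cast; linarith
  have f1 : R + 1 < col N (pos v) := by exact_mod_cast e1
  have f2 : col N (pos v) + R < N + 1 := by exact_mod_cast e2
  have f3 : R + 1 < row N (pos v) := by exact_mod_cast e3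
  have f4 : row N (pos v) + R + 1 < N := by exact_mod_cast e4
  omega

/-- the walk of one edge -/
lemma edge_walk {N R : ℕ} {δ : ℝ} (hN : (0:ℝ) < N) (hK : 4 < δ * N) (hR : (R:ℝ) ≤ δ * N)
    (h : CylEmb D γ pos φ) (C : Consts D γ pos φ δ) (e : E) :
    ∃ (L : ℕ) (x y : ℕ → ℕ), 2 ≤ L ∧ InB N R (pos (D.src e)) (x 0) (y 0) ∧
      InB N R (pos (D.tgt e)) (x L) (y L) ∧
      (∀ s, 0 < s → s < L → ¬ InB N R (pos (D.src e)) (x s) (y s) ∧
        ¬ InB N R (pos (D.tgt e)) (x s) (y s)) ∧
      (∀ s, Walk.Step N (x s) (y s) (x (s + 1)) (y (s + 1))) ∧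
      ∀ s, ∃ t p, dist p (φ e t) < 1 / N ∧ col N p = x s ∧ row N p = y s := by
  have hN' : 0 < N := by exact_mod_cast hN
  have hε : (0:ℝ) < 1 / N := by positivity
  obtain ⟨m, q, hq0, hqm, hqs, hqf⟩ := exists_q (h.cont e) hε
  have hsep := blocks_sep hN hK hR (C.c3 _ _ (D.ne e))
  have hb1 := block_bounds hN hK hR C (D.src e)
  have hb2 := block_bounds hN hK hR C (D.tgt e)
  obtain ⟨a, b, -, hab, hPa, hQb, hmid⟩ := cut
    (P := fun s => InB N R (pos (D.src e)) (col N (wp q s)) (row N (wp q s)))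
    (Q := fun s => InB N R (pos (D.tgt e)) (col N (wp q s)) (row N (wp q s))) (T := 2 * m) (by
      have : wp q 0 = pos (D.src e) := by
        unfold wp
        rw [← h.start e, ← hq0]
      simp only [this, InB]
      omega) (by
      have h1 : (2 * m + 1) / 2 = m := by omega
      have h2 : 2 * m / 2 = m := by omega
      have : wp q (2 * m) = pos (D.tgt e) := by
        unfold wp
        rw [← h.finish e, ← hqm, h1, h2]
      simp only [this, InB]
      omega) (by
      intro s h1 h2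
      simp only [InB] at h1 h2
      omega) (by
      intro s h1 h2
      have h3 := wp_step hN' hqs s
      simp only [InB] at h1 h2
      unfold Walk.Step at h3
      omega)
  refine ⟨b - a, fun s => col N (wp q (a + s)), fun s => row N (wp q (a + s)), by omega, ?_, ?_,
    ?_, ?_, ?_⟩
  · exact hPa
  · have : a + (b - a) = b := by omega
    simp only [this]
    exact hQb
  · intro s h1 h2
    exact hmid (a + s) (by omega) (by omega)
  · intro s
    exact wp_step hN' hqs (a + s)
  · intro s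
    obtain ⟨t, ht⟩ := hqf ((a + s) / 2)
    refine ⟨t, wp q (a + s), ?_, rfl, rfl⟩
    rw [← ht]
    exact wp_close hε hqs (a + s)

theorem exists_walk [Finite V] [Finite E] (h : CylEmb D γ pos φ) (h0 : ∀ v, (pos v).2 ≠ 0) :
    Nonempty (Walk.GridWalk D γ) := by
  obtain ⟨δ, hδ, C⟩ := exists_consts h h0
  obtain ⟨η, hη, hE⟩ := exists_eta h (show 0 < δ / 4 by positivity)
  obtain ⟨N, hNbig⟩ := exists_nat_gt (max (max (4 / δ) (4 / η)) 3)
  have hN3' : (3:ℝ) < N := (le_max_right _ _).trans_lt hNbig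
  have hNδ : 4 / δ < N := ((le_max_left _ _).trans (le_max_left _ _)).trans_lt hNbig
  have hNη : 4 / η < N := ((le_max_right _ _).trans (le_max_left _ _)).trans_lt hNbig
  have hN : (0:ℝ) < N := by linarith
  have hN' : 0 < N := by exact_mod_cast hN
  have hN3 : 3 < N := by exact_mod_cast hN3'
  have hK : 4 < δ * N := by
    rw [div_lt_iff₀ hδ] at hNδ
    linarith
  have hKη : 4 < η * N := by
    rw [div_lt_iff₀ hη] at hNη
    linarith
  have hinv : 1 / (N:ℝ) < δ / 4 := by
    rw [div_lt_iff₀ hN]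
    linarith
  have hinvη : 1 / (N:ℝ) < η / 4 := by
    rw [div_lt_iff₀ hN]
    linarith
  obtain ⟨R, hRdef⟩ : ∃ R, R = ⌊δ * N⌋₊ := ⟨_, rfl⟩
  have hR : (R:ℝ) ≤ δ * N := hRdef ▸ Nat.floor_le (by positivity)
  have hR' : δ * N < R + 1 := hRdef ▸ Nat.lt_floor_add_one _
  have hRle : (R + 1) / (N:ℝ) ≤ δ + 1 / N := by
    rw [add_div]
    have : (R:ℝ) / N ≤ δ := by rwa [div_le_iff₀ hN]
    linarith
  have hRge : δ - 1 / N ≤ R / (N:ℝ) := by
    rw [le_div_iff₀ hN, sub_mul, one_div, inv_mul_cancel₀ hN.ne']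
    linarith
  choose L x y hL hst hfi hmi hstep hcl using fun e => edge_walk hN hK hR h C e
  have hbb := fun v => block_bounds hN hK hR C v
  refine ⟨⟨N + 1, N, hN3.le, fun v => col N (pos v) - R, fun v => col N (pos v) + R,
    fun v => row N (pos v) - R, fun v => row N (pos v) + R, fun v => by omega,
    fun v => (hbb v).2.1, fun v => by omega, fun v => (hbb v).1, fun v => (hbb v).2.2.1,
    fun v => (hbb v).2.2.2, ?_, ?_, L, x, y, hL, hst, hfi, ?_, ?_, ?_, fun e s _ => hstep e s,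
    ?_, ?_, ?_⟩⟩
  · intro u v huv
    exact blocks_sep hN hK hR (C.c3 u v huv)
  · intro u v huv
    have a1 := mul_lt_mul_of_pos_right (C.c4 u v huv) hN
    have c1 := col_le' N (pos u)
    have c2 := lt_col N (pos u)
    have c3 := col_le' N (pos v)
    have c4 := lt_col N (pos v)
    have e1 : ((col N (pos u) + 2 * R : ℕ) : ℝ) < col N (pos v) := by push_cast; linarith
    have e2 : col N (pos u) + 2 * R < col N (pos v) := by exact_mod_cast e1
    omega
  · intro e s h1 h2 z hz
    by_cases hzs : z = D.src e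
    · subst hzs
      exact (hmi e s h1 h2).1 hz
    by_cases hzt : z = D.tgt e
    · subst hzt
      exact (hmi e s h1 h2).2 hz
    obtain ⟨t, p, hp, hpc, hpr⟩ := hcl e s
    have hd : dist p (pos z) < (R + 1) / N := by
      apply dist_of_cell hN' <;> omega
    have h3 := C.c5 e z hzs hzt t
    have h4 := dist_triangle (pos z) p (φ e t)
    rw [dist_comm (pos z) p] at h4
    linarith
  · intro e s _
    obtain ⟨t, p, hp, hpc, hpr⟩ := hcl e s
    rw [← hpc]
    have := col_le N p
    omega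
  · intro e s _
    obtain ⟨t, p, hp, hpc, hpr⟩ := hcl e s
    rw [← hpr]
    exact row_lt hN' p
  · intro e f s s' hef h1 h2 h3 h4 hxy
    obtain ⟨t, p, hp, hpc, hpr⟩ := hcl e s
    obtain ⟨t', p', hp', hpc', hpr'⟩ := hcl f s'
    -- far from the vertices
    have hblock : ∀ z, ¬ InB N R (pos z) (x e s) (y e s) := by
      intro z hz
      by_cases hzs : z = D.src e
      · subst hzs
        exact (hmi e s h1 h2).1 hz
      by_cases hzt : z = D.tgt e
      · subst hzt
        exact (hmi e s h1 h2).2 hz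
      have hd : dist p (pos z) < (R + 1) / N := by
        unfold InB at hz
        apply dist_of_cell hN' <;> omega
      have h5 := C.c5 e z hzs hzt t
      have h6 := dist_triangle (pos z) p (φ e t)
      rw [dist_comm (pos z) p] at h6
      linarith
    have hfar : ∀ q : Cyl, col N q = x e s → row N q = y e s → ∀ z, R / N ≤ dist q (pos z) := by
      intro q hq1 hq2 z
      by_contra hcon
      push Not at hcon
      have h5 := cell_of_dist hN' hR (by linarith [C.c2 z]) (by linarith [C.c2' z]) hcon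
      apply hblock z
      unfold InB
      omega
    have hpp : dist p p' < 1 / N := by
      have := dist_of_cell (R := 0) hN' (p := p) (q := p') (by omega) (by omega) (by omega)
        (by omega)
      simpa using this
    have g1 : ∀ z, δ / 4 ≤ dist (φ e t) (pos z) := by
      intro z
      have h5 := hfar p hpc hpr z
      have h6 := dist_triangle p (φ e t) (pos z)
      linarith
    have g2 : ∀ z, δ / 4 ≤ dist (φ f t') (pos z) := by
      intro z
      have h5 := hfar p' (by omega) (by omega) z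
      have h6 := dist_triangle p' (φ f t') (pos z)
      linarith
    have g3 := hE e f hef t t' g1 g2
    have h7 := dist_triangle (φ e t) p (φ f t')
    have h8 := dist_triangle p p' (φ f t')
    rw [dist_comm (φ e t) p] at h7
    linarith
  · intro e s w _ hw
    obtain ⟨t, p, hp, hpc, hpr⟩ := hcl e s
    have a1 := mul_lt_mul_of_pos_right (C.c6 e w hw t) hN
    have a2 := (dist_fst_le p (φ e t)).trans_lt hp
    rw [lt_div_iff₀ hN] at a2
    have a3 := mul_le_mul_of_nonneg_right (neg_abs_le ((p.1:ℝ) - (φ e t).1)) hN.le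
    have c1 := col_le' N (pos w)
    have c2 := lt_col N p
    have e1 : ((col N (pos w) + R + 1 : ℕ) : ℝ) < col N p := by
      push_cast
      linarith
    have e2 : col N (pos w) + R + 1 < col N p := by exact_mod_cast e1
    rw [← hpc]
    exact e2
  · intro e s w _ hw
    obtain ⟨t, p, hp, hpc, hpr⟩ := hcl e s
    have a1 := mul_lt_mul_of_pos_right (C.c6' e w hw t) hN
    have a2 := (dist_fst_le p (φ e t)).trans_lt hp
    rw [lt_div_iff₀ hN] at a2
    have a3 := mul_le_mul_of_nonneg_right (le_abs_self ((p.1:ℝ) - (φ e t).1)) hN.le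
    have c1 := col_le' N p
    have c2 := lt_col N (pos w)
    have e1 : ((col N p + R : ℕ) : ℝ) < col N (pos w) := by
      push_cast
      linarith
    have e2 : col N p + R < col N (pos w) := by exact_mod_cast e1
    rw [← hpc]
    show col N p < col N (pos w) - R
    omega

end emb

end Topo

open Topo in
theorem M4 {V E : Type*} [Fintype V] [Fintype E] (D : Gr V E) (γ : V → ℕ) (pos : V → Cyl)
    (φ : E → unitInterval → Cyl) (h : CylEmb D γ pos φ) : Nonempty (GridFlow D γ) := by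
  classical
  -- rotate the circle
  have hfin : (Set.range fun v => rep (pos v).2).Finite := Set.finite_range _
  obtain ⟨r, hr, hrn⟩ := (Set.Ioo_infinite (zero_lt_one (α := ℝ))).exists_notMem_finite hfin
  have hr' : ∀ v, (pos v).2 + ((-r : ℝ) : UnitAddCircle) ≠ 0 := by
    intro v hv
    apply hrn
    refine ⟨v, ?_⟩
    have h1 : (pos v).2 = (r : UnitAddCircle) := by
      rw [AddCircle.coe_neg] at hv
      exact add_neg_eq_zero.1 hv
    have h2 : rep (pos v).2 = r := by
      rw [h1]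
      exact AddCircle.equivIco_coe_of_mem ⟨hr.1.le, by rw [zero_add]; exact hr.2⟩
    exact h2
  obtain ⟨G⟩ := exists_walk (rotate h ((-r : ℝ) : UnitAddCircle)) hr'
  exact G.toFlow

end CylB
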