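import Pool.Agent.Lib.MP_c5238b_co.Defs

/-!
# Products of conjugates, exponents, wreath coordinates
-/

namespace CylB

section PC

variable {V F : Type*} [DecidableEq V] [Group F] {σ : V → F} {S T : Finset V} {c d : F}

theorem PC.conj (h : PC σ S c) (k : F) : PC σ S (k * c * k⁻¹) := by
  induction h with
  | empty => simpa using PC.empty
  | @insert z S c g hz _ ih =>
    have : k * (g * σ z * g⁻¹ * c) * k⁻¹ = (k * g) * σ z * (k * g)⁻¹ * (k * c * k⁻¹) := by group
    rw [this]
    exact PC.insert _ hz ih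

theorem PC.mul (h1 : PC σ S c) (h2 : PC σ T d) (hST : Disjoint S T) : PC σ (S ∪ T) (c * d) := by
  induction h1 with
  | empty => simpa using h2
  | @insert z S c g hz _ ih =>
    rw [Finset.disjoint_insert_left] at hST
    rw [Finset.insert_union, mul_assoc (g * σ z * g⁻¹)]
    exact PC.insert _ (by simp [hz, hST.1]) (ih hST.2)

theorem PC.map {F' : Type*} [Group F'] (h : PC σ S c) (f : F →* F') :
    PC (fun z => f (σ z)) S (f c) := by
  induction h with
  | empty => simpa using PC.empty
  | @insert z S c g hz _ ih =>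
    have := PC.insert (σ := fun z => f (σ z)) (f g) hz ih
    simpa using this

theorem PC.single (z : V) (g : F) : PC σ {z} (g * σ z * g⁻¹) := by
  have := PC.insert (σ := σ) (z := z) g (by simp) PC.empty
  simpa using this

theorem PC.erase (h : PC σ S c) {z : V} (hz : z ∈ S) :
    ∃ g d, PC σ (S.erase z) d ∧ c = g * σ z * g⁻¹ * d := by
  induction h with
  | empty => simp at hz
  | @insert z' S c g hz' hc ih =>
    by_cases hzz : z = z'
    · subst hzz
      exact ⟨g, c, by rwa [Finset.erase_insert hz'], rfl⟩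
    · have hzS : z ∈ S := by
        rcases Finset.mem_insert.1 hz with h | h
        · exact absurd h hzz
        · exact h
      obtain ⟨g', d, hd, rfl⟩ := ih hzS
      refine ⟨g', ((g' * σ z * g'⁻¹)⁻¹ * g) * σ z' * ((g' * σ z * g'⁻¹)⁻¹ * g)⁻¹ * d, ?_, ?_⟩
      · rw [Finset.erase_insert_of_ne (Ne.symm hzz)]
        exact PC.insert _ (fun h => hz' (Finset.mem_of_mem_erase h)) hd
      · group

theorem PC.congr {σ' : V → F} (h : PC σ S c) (hσ : ∀ z ∈ S, IsConj (σ z) (σ' z)) :
    PC σ' S c := by
  induction h with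
  | empty => exact PC.empty
  | @insert z S c g hz _ ih =>
    obtain ⟨k, hk⟩ := isConj_iff.1 (hσ z (Finset.mem_insert_self z S))
    have : g * σ z * g⁻¹ * c = (g * k⁻¹) * σ' z * (g * k⁻¹)⁻¹ * c := by
      rw [← hk]; group
    rw [this]
    exact PC.insert _ hz (ih fun z hz => hσ z (Finset.mem_insert_of_mem hz))

theorem PC.congr' {σ' : V → F} (h : PC σ S c) (hσ : ∀ z ∈ S, σ z = σ' z) :
    PC σ' S c := h.congr fun z hz => by rw [hσ z hz]

theorem PC.inv (h : PC σ S c) : PC (fun z => (σ z)⁻¹) S c⁻¹ := by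
  induction h with
  | empty => simpa using PC.empty
  | @insert z S c g hz _ ih =>
    have : (g * σ z * g⁻¹ * c)⁻¹ = (c⁻¹ * g) * (σ z)⁻¹ * (c⁻¹ * g)⁻¹ * c⁻¹ := by group
    rw [this]
    exact PC.insert _ hz ih

theorem PC.eq_one (h : PC σ S c) (hσ : ∀ z ∈ S, σ z = 1) : c = 1 := by
  induction h with
  | empty => rfl
  | @insert z S c g hz _ ih =>
    rw [hσ z (Finset.mem_insert_self z S), ih fun z hz => hσ z (Finset.mem_insert_of_mem hz)]
    group

theorem PC.cast {S' : Finset V} {c' : F} (h : PC σ S c) (hS : S = S') (hc : c = c') :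
    PC σ S' c' := by subst hS; subst hc; exact h

end PC

/-! ## Exponents -/

section Ex

variable {E : Type*} [DecidableEq E]

/-- sign of a letter -/
def sg (b : Bool) : ℤ := if b then 1 else -1

omit [DecidableEq E] in
theorem sg_not (b : Bool) : sg (!b) = - sg b := by cases b <;> rfl

omit [DecidableEq E] in
theorem sg_ne (b : Bool) : sg b ≠ 0 := by cases b <;> decide

/-- exponent homomorphism -/
def chi (p : E) : FreeGroup E →* Multiplicative ℤ :=
  FreeGroup.lift (fun e => if e = p then Multiplicative.ofAdd 1 else 1)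

/-- total exponent of `p` -/
def ex (p : E) (g : FreeGroup E) : ℤ := Multiplicative.toAdd (chi p g)

@[simp] theorem ex_one (p : E) : ex p 1 = 0 := by simp [ex]

@[simp] theorem ex_mul (p : E) (g h : FreeGroup E) : ex p (g * h) = ex p g + ex p h := by
  simp [ex]

@[simp] theorem ex_inv (p : E) (g : FreeGroup E) : ex p g⁻¹ = - ex p g := by
  simp [ex]

theorem ex_conj (p : E) (g h : FreeGroup E) : ex p (h * g * h⁻¹) = ex p g := by
  simp

theorem ex_isConj {p : E} {g h : FreeGroup E} (hh : IsConj g h) : ex p g = ex p h := by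
  obtain ⟨c, rfl⟩ := isConj_iff.1 hh
  simp

theorem ex_of (p e : E) : ex p (FreeGroup.of e) = if e = p then 1 else 0 := by
  simp only [ex, chi, FreeGroup.lift_apply_of]
  split_ifs <;> simp

omit [DecidableEq E] in
theorem mk_cons (a : E × Bool) (L : List (E × Bool)) :
    (FreeGroup.mk (a :: L) : FreeGroup E) = FreeGroup.mk [a] * FreeGroup.mk L := by
  rw [FreeGroup.mul_mk]; rfl

omit [DecidableEq E] in
theorem mk_append (L L' : List (E × Bool)) :
    (FreeGroup.mk (L ++ L') : FreeGroup E) = FreeGroup.mk L * FreeGroup.mk L' := by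
  rw [FreeGroup.mul_mk]

omit [DecidableEq E] in
theorem mk_nil : (FreeGroup.mk [] : FreeGroup E) = 1 := rfl

omit [DecidableEq E] in
theorem mk_invRev (L : List (E × Bool)) :
    (FreeGroup.mk (FreeGroup.invRev L) : FreeGroup E) = (FreeGroup.mk L)⁻¹ := by
  rw [FreeGroup.inv_mk]

omit [DecidableEq E] in
theorem mk_single_true (e : E) : (FreeGroup.mk [(e, true)] : FreeGroup E) = FreeGroup.of e := rfl

omit [DecidableEq E] in
theorem mk_single_false (e : E) :
    (FreeGroup.mk [(e, false)] : FreeGroup E) = (FreeGroup.of e)⁻¹ := rfl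

omit [DecidableEq E] in
theorem mk_single_not (e : E) (b : Bool) :
    (FreeGroup.mk [(e, !b)] : FreeGroup E) = (FreeGroup.mk [(e, b)])⁻¹ := by
  cases b
  · simp [mk_single_true, mk_single_false]
  · simp [mk_single_true, mk_single_false]

theorem ex_single (p : E) (a : E × Bool) :
    ex p (FreeGroup.mk [a]) = if a.1 = p then sg a.2 else 0 := by
  obtain ⟨e, b⟩ := a
  cases b
  · rw [mk_single_false, ex_inv, ex_of]
    split_ifs <;> simp_all [sg]
  · rw [mk_single_true, ex_of]
    split_ifs <;> simp_all [sg]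

theorem ex_cons (p : E) (a : E × Bool) (L : List (E × Bool)) :
    ex p (FreeGroup.mk (a :: L)) = (if a.1 = p then sg a.2 else 0) + ex p (FreeGroup.mk L) := by
  rw [mk_cons, ex_mul, ex_single]

theorem ex_eq_zero {p : E} {L : List (E × Bool)} (h : ∀ a ∈ L, a.1 ≠ p) :
    ex p (FreeGroup.mk L) = 0 := by
  induction L with
  | nil => simp [mk_nil]
  | cons a L ih =>
    rw [ex_cons, if_neg (h a (by simp)), ih fun a ha => h a (by simp [ha])]
    simp

/-- edge-distinct words -/
def ED (w : List (E × Bool)) : Prop := (w.map Prod.fst).Nodup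

omit [DecidableEq E] in
theorem ED.sub {w w' : List (E × Bool)} (h : ED w) (hs : w'.Sublist w) : ED w' :=
  h.sublist (hs.map _)

omit [DecidableEq E] in
theorem ED.perm {w w' : List (E × Bool)} (h : ED w) (hs : w.Perm w') : ED w' :=
  (hs.map Prod.fst).nodup_iff.1 h

omit [DecidableEq E] in
theorem ED_append {w w' : List (E × Bool)} :
    ED (w ++ w') ↔ ED w ∧ ED w' ∧ ∀ a ∈ w, ∀ b ∈ w', a.1 ≠ b.1 := by
  unfold ED
  rw [List.map_append, List.nodup_append']
  simp only [List.disjoint_left, List.mem_map]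
  constructor
  · rintro ⟨h1, h2, h3⟩
    exact ⟨h1, h2, fun a ha b hb hab => h3 ⟨a, ha, rfl⟩ ⟨b, hb, hab.symm⟩⟩
  · rintro ⟨h1, h2, h3⟩
    refine ⟨h1, h2, ?_⟩
    rintro e ⟨a, ha, rfl⟩ ⟨b, hb, hab⟩
    exact h3 a ha b hb hab.symm

omit [DecidableEq E] in
theorem ED_invRev {w : List (E × Bool)} : ED (FreeGroup.invRev w) ↔ ED w := by
  unfold ED FreeGroup.invRev
  rw [List.map_reverse, List.nodup_reverse, List.map_map]
  rfl

omit [DecidableEq E] in
theorem ED_cons {a : E × Bool} {w : List (E × Bool)} :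
    ED (a :: w) ↔ (∀ b ∈ w, b.1 ≠ a.1) ∧ ED w := by
  unfold ED
  rw [List.map_cons, List.nodup_cons]
  simp only [List.mem_map, not_exists, not_and]

omit [DecidableEq E] in
theorem ED.eq_of {w : List (E × Bool)} (h : ED w) {a b : E × Bool} (ha : a ∈ w) (hb : b ∈ w)
    (hab : a.1 = b.1) : a = b := List.inj_on_of_nodup_map h ha hb hab

theorem ex_of_mem {w : List (E × Bool)} (h : ED w) {a : E × Bool} (ha : a ∈ w) :
    ex a.1 (FreeGroup.mk w) = sg a.2 := by
  obtain ⟨u, v, rfl⟩ := List.append_of_mem ha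
  rw [mk_append, ex_mul, ex_cons, if_pos rfl]
  rw [ED_append, ED_cons] at h
  rw [ex_eq_zero (fun b hb => h.2.2 b hb a (by simp)), ex_eq_zero (fun b hb => h.2.1.1 b hb)]
  simp

theorem ED.abs_le {w : List (E × Bool)} (h : ED w) (p : E) :
    |ex p (FreeGroup.mk w)| ≤ 1 := by
  by_cases hp : ∃ a ∈ w, a.1 = p
  · obtain ⟨a, ha, rfl⟩ := hp
    rw [ex_of_mem h ha]
    cases a.2 <;> decide
  · push Not at hp
    rw [ex_eq_zero hp]
    simp

theorem ED.not_mem {w : List (E × Bool)} (h : ED w) {p : E} (hp : ex p (FreeGroup.mk w) = 0) :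
    ∀ a ∈ w, a.1 ≠ p := by
  rintro a ha rfl
  rw [ex_of_mem h ha] at hp
  exact sg_ne _ hp

theorem PC.ex {V : Type*} [DecidableEq V] {σ : V → FreeGroup E} {S : Finset V} {c : FreeGroup E}
    (h : PC σ S c) (p : E) : CylB.ex p c = ∑ z ∈ S, CylB.ex p (σ z) := by
  induction h with
  | empty => simp
  | @insert z S c g hz _ ih =>
    rw [Finset.sum_insert hz, ex_mul, ex_conj, ih]

theorem PC.ex_eq_zero {V : Type*} [DecidableEq V] {σ : V → FreeGroup E} {S : Finset V}
    {c : FreeGroup E} (h : PC σ S c) {p : E} (hp : ∀ z ∈ S, CylB.ex p (σ z) = 0) :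
    CylB.ex p c = 0 := by
  rw [h.ex p]
  exact Finset.sum_eq_zero hp

end Ex

/-! ## Substitution homomorphisms -/

section Subst

variable {E : Type*} [DecidableEq E]

/-- substitute `v` for the generator `p` -/
def subst (p : E) (v : FreeGroup E) : FreeGroup E →* FreeGroup E :=
  FreeGroup.lift (fun e => if e = p then v else FreeGroup.of e)

theorem subst_single (p : E) (v : FreeGroup E) {a : E × Bool} (ha : a.1 ≠ p) :
    subst p v (FreeGroup.mk [a]) = FreeGroup.mk [a] := by
  obtain ⟨e, b⟩ := a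
  cases b
  · rw [mk_single_false, map_inv, subst, FreeGroup.lift_apply_of, if_neg ha]
  · rw [mk_single_true, subst, FreeGroup.lift_apply_of, if_neg ha]

theorem subst_mk (p : E) (v : FreeGroup E) {L : List (E × Bool)} (h : ∀ a ∈ L, a.1 ≠ p) :
    subst p v (FreeGroup.mk L) = FreeGroup.mk L := by
  induction L with
  | nil => simp [mk_nil]
  | cons a L ih =>
    rw [mk_cons, map_mul, subst_single p v (h a (by simp)), ih fun a ha => h a (by simp [ha])]

theorem subst_self (p : E) (v : FreeGroup E) :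
    subst p v (FreeGroup.of p) = v := by
  rw [subst, FreeGroup.lift_apply_of, if_pos rfl]

variable (P : E → Prop) [DecidablePred P]

omit [DecidableEq E] in
theorem keep_mk (L : List (E × Bool)) :
    keep P (FreeGroup.mk L) = FreeGroup.mk (L.filter (fun a => P a.1)) := by
  classical
  induction L with
  | nil => simp [mk_nil]
  | cons a L ih =>
    rw [mk_cons, map_mul, ih, List.filter_cons]
    have h1 : keep P (FreeGroup.mk [a]) = if P a.1 then FreeGroup.mk [a] else 1 := by
      obtain ⟨e, b⟩ := a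
      cases b
      · rw [mk_single_false, map_inv, keep, FreeGroup.lift_apply_of]
        split_ifs <;> simp
      · rw [mk_single_true, keep, FreeGroup.lift_apply_of]
    rw [h1]
    by_cases hp : P a.1
    · simp only [hp, if_true, decide_true]
      rw [← mk_cons]
    · simp [hp]

omit [DecidableEq E] in
theorem keep_eq_self {L : List (E × Bool)} (h : ∀ a ∈ L, P a.1) :
    keep P (FreeGroup.mk L) = FreeGroup.mk L := by
  rw [keep_mk, List.filter_eq_self.2 (by simpa using fun a b hab => h (a, b) hab)]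

omit [DecidableEq E] in
theorem keep_eq_one {L : List (E × Bool)} (h : ∀ a ∈ L, ¬ P a.1) :
    keep P (FreeGroup.mk L) = 1 := by
  rw [keep_mk, List.filter_eq_nil_iff.2 (by simpa using fun a b hab => h (a, b) hab), mk_nil]

end Subst

/-! ## The wreath product `F ≀ ℤ` -/

/-- `(ℤ → F) ⋊ ℤ` -/
@[ext] structure WG (F : Type*) where
  f : ℤ → F
  n : ℤ

namespace WG

variable {F : Type*} [Group F]

instance : Mul (WG F) := ⟨fun x y => ⟨fun k => x.f k * y.f (k - x.n), x.n + y.n⟩⟩
instance : One (WG F) := ⟨⟨fun _ => 1, 0⟩⟩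
instance : Inv (WG F) := ⟨fun x => ⟨fun k => (x.f (k + x.n))⁻¹, - x.n⟩⟩

@[simp] theorem mul_f (x y : WG F) (k : ℤ) : (x * y).f k = x.f k * y.f (k - x.n) := rfl
@[simp] theorem mul_n (x y : WG F) : (x * y).n = x.n + y.n := rfl
@[simp] theorem one_f (k : ℤ) : (1 : WG F).f k = 1 := rfl
@[simp] theorem one_n : (1 : WG F).n = 0 := rfl
@[simp] theorem inv_f (x : WG F) (k : ℤ) : (x⁻¹).f k = (x.f (k + x.n))⁻¹ := rfl
@[simp] theorem inv_n (x : WG F) : (x⁻¹).n = - x.n := rfl

instance : Group (WG F) :=
  Group.ofLeftAxioms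
    (by
      intro x y z
      ext k
      · simp [mul_assoc, sub_sub]
      · simp [add_assoc])
    (by intro x; ext k <;> simp)
    (by intro x; ext k <;> simp)

/-- base group at height `0` -/
def io : F →* WG F where
  toFun g := ⟨Pi.mulSingle 0 g, 0⟩
  map_one' := by ext k <;> simp
  map_mul' x y := by
    ext k
    · simp [Pi.mulSingle_mul]
    · simp

@[simp] theorem io_f (g : F) (k : ℤ) : (io g).f k = if k = 0 then g else 1 := by
  change (Pi.mulSingle 0 g : ℤ → F) k = _
  rw [Pi.mulSingle_apply]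

@[simp] theorem io_n (g : F) : (io g).n = 0 := rfl

/-- the translation by `m` -/
def tt (m : ℤ) : WG F := ⟨fun _ => 1, m⟩

@[simp] theorem tt_f (m k : ℤ) : (tt m : WG F).f k = 1 := rfl
@[simp] theorem tt_n (m : ℤ) : (tt m : WG F).n = m := rfl

theorem tt_inv (m : ℤ) : (tt m : WG F)⁻¹ = tt (-m) := by ext k <;> simp

/-- finitely supported -/
def FS (x : WG F) : Prop := ∃ B : ℕ, ∀ k : ℤ, B ≤ k.natAbs → x.f k = 1

theorem FS.one : FS (1 : WG F) := ⟨0, fun _ _ => rfl⟩

theorem FS.mul {x y : WG F} (hx : FS x) (hy : FS y) : FS (x * y) := by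
  obtain ⟨B, hB⟩ := hx
  obtain ⟨C, hC⟩ := hy
  refine ⟨B + C + x.n.natAbs, fun k hk => ?_⟩
  rw [mul_f, hB k (by omega), hC _ (by omega), one_mul]

theorem FS.inv {x : WG F} (hx : FS x) : FS x⁻¹ := by
  obtain ⟨B, hB⟩ := hx
  refine ⟨B + x.n.natAbs, fun k hk => ?_⟩
  rw [inv_f, hB _ (by omega), inv_one]

theorem FS.io (g : F) : FS (io g) :=
  ⟨1, fun k hk => by rw [io_f, if_neg (by rintro rfl; simp at hk)]⟩

theorem FS.tt (m : ℤ) : FS (tt m : WG F) := ⟨0, fun _ _ => rfl⟩

end WG

open WG

section Phi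

variable {E : Type*} [DecidableEq E]

/-- wreath coordinates with respect to the generator `p` -/
def Phi (p : E) : FreeGroup E →* WG (FreeGroup E) :=
  FreeGroup.lift (fun e => if e = p then tt 1 else io (FreeGroup.of e))

theorem Phi_of_self (p : E) : Phi p (FreeGroup.of p) = tt 1 := by
  rw [Phi, FreeGroup.lift_apply_of, if_pos rfl]

theorem Phi_single (p : E) (b : Bool) : Phi p (FreeGroup.mk [(p, b)]) = tt (sg b) := by
  cases b
  · rw [mk_single_false, map_inv, Phi_of_self, tt_inv]; rfl
  · rw [mk_single_true, Phi_of_self]; rfl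

theorem Phi_single' {p : E} {a : E × Bool} (h : a.1 ≠ p) :
    Phi p (FreeGroup.mk [a]) = io (FreeGroup.mk [a]) := by
  obtain ⟨e, b⟩ := a
  cases b
  · rw [mk_single_false, map_inv, map_inv, Phi, FreeGroup.lift_apply_of, if_neg h]
  · rw [mk_single_true, Phi, FreeGroup.lift_apply_of, if_neg h]

theorem Phi_mk {p : E} {L : List (E × Bool)} (h : ∀ a ∈ L, a.1 ≠ p) :
    Phi p (FreeGroup.mk L) = io (FreeGroup.mk L) := by
  induction L with
  | nil => simp [mk_nil]
  | cons a L ih =>
    rw [mk_cons, map_mul, map_mul, Phi_single' (h a (by simp)), ih fun a ha => h a (by simp [ha])]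

theorem Phi_FS (p : E) (g : FreeGroup E) : FS (Phi p g) := by
  induction g using FreeGroup.induction_on with
  | C1 => simpa using FS.one
  | of e =>
    rw [Phi, FreeGroup.lift_apply_of]
    split_ifs
    · exact FS.tt 1
    · exact FS.io _
  | inv_of e ih =>
    rw [map_inv]
    exact ih.inv
  | mul x y hx hy =>
    rw [map_mul]
    exact hx.mul hy

theorem Phi_n (p : E) (g : FreeGroup E) : (Phi p g).n = ex p g := by
  induction g using FreeGroup.induction_on with
  | C1 => simp
  | of e =>
    rw [Phi, FreeGroup.lift_apply_of, ex_of]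
    split_ifs <;> simp
  | inv_of e ih =>
    rw [map_inv, inv_n, ih, ex_inv]
  | mul x y hx hy =>
    rw [map_mul, mul_n, hx, hy, ex_mul]

/-- splitting of a product of conjugates of `p`-free elements according to heights -/
theorem PC.split {V : Type*} [DecidableEq V] {σ : V → FreeGroup E} {S : Finset V}
    {c : FreeGroup E} (h : PC σ S c) {p : E} (hp : ∀ z ∈ S, Phi p (σ z) = io (σ z)) :
    (Phi p c).n = 0 ∧ ∃ ht : V → ℤ, ∀ k, PC σ (S.filter (fun z => ht z = k)) ((Phi p c).f k) := by
  induction h with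
  | empty => exact ⟨by simp, fun _ => 0, fun k => by simpa using PC.empty⟩
  | @insert z S c g hz hc ih =>
    obtain ⟨h0, ht, ih⟩ := ih fun z hz => hp z (Finset.mem_insert_of_mem hz)
    have hz1 := hp z (Finset.mem_insert_self z S)
    refine ⟨by simp [hz1, h0], Function.update ht z (Phi p g).n, fun k => ?_⟩
    have hfil : ∀ k, (S.filter (fun z' => Function.update ht z (Phi p g).n z' = k)) =
        S.filter (fun z' => ht z' = k) := by
      intro k
      apply Finset.filter_congr
      intro z' hz'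
      rw [Function.update_of_ne (by rintro rfl; exact hz hz')]
    rw [Finset.filter_insert, hfil, Function.update_self]
    have hval : (Phi p (g * σ z * g⁻¹ * c)).f k =
        (if (Phi p g).n = k then (Phi p g).f k * σ z * ((Phi p g).f k)⁻¹ else 1) *
          (Phi p c).f k := by
      rw [map_mul, map_mul, map_mul, map_inv, hz1]
      simp only [mul_f, mul_n, inv_f, inv_n, io_f, io_n, add_zero, sub_add_cancel,
        add_neg_cancel, sub_zero]
      by_cases hk : k - (Phi p g).n = 0
      · have : (Phi p g).n = k := by omega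
        simp [hk, this]
      · have : ¬ (Phi p g).n = k := by omega
        simp [hk, this]
    rw [hval]
    split_ifs with hk
    · exact PC.insert _ (by simp [hz]) (ih k)
    · rw [one_mul]; exact ih k

end Phi

end CylB
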