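import Pool.Agent.Lib.MP_c5238b_co.Wreath

/-!
# Stage 1 : straightening the edges between different clusters
-/

namespace CylB

open WG

section Rot

variable {V E : Type*} [DecidableEq V] [DecidableEq E] {D : Gr V E} {z : V}
  {ρ : List (E × Bool)}

omit [DecidableEq V] [DecidableEq E] in
theorem IsRot.perm {ρ' : List (E × Bool)} (h : IsRot D z ρ) (hp : ρ.Perm ρ') : IsRot D z ρ' :=
  ⟨hp.nodup_iff.1 h.1, fun a => by rw [← h.2 a, hp.mem_iff]⟩

omit [DecidableEq V] [DecidableEq E] in
theorem IsRot.ed (h : IsRot D z ρ) : ED ρ := by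
  refine h.1.map_on ?_
  rintro ⟨e, b⟩ ha ⟨e', b'⟩ hb hab
  rw [h.2] at ha hb
  simp only at hab
  subst hab
  have := D.ne e
  simp only [star, Set.mem_ofPred_eq] at ha hb
  rcases ha with ⟨rfl, ha⟩ | ⟨rfl, ha⟩ <;> rcases hb with ⟨rfl, hb⟩ | ⟨rfl, hb⟩
  · rfl
  · exact absurd (ha.trans hb.symm) this
  · exact absurd (hb.trans ha.symm) this
  · rfl

omit [DecidableEq E] [DecidableEq V] in
theorem IsRot.inc (h : IsRot D z ρ) {a : E × Bool} (ha : a ∈ ρ) :
    D.src a.1 = z ∨ D.tgt a.1 = z := by
  rw [h.2] at ha
  simp only [star, Set.mem_ofPred_eq] at ha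
  tauto

omit [DecidableEq E] in
theorem IsRot.mem_iff (h : IsRot D z ρ) {e : E} (he : D.src e = z ∨ D.tgt e = z) (b : Bool) :
    (e, b) ∈ ρ ↔ b = decide (D.src e = z) := by
  rw [h.2]
  simp only [star, Set.mem_ofPred_eq]
  have := D.ne e
  by_cases h1 : D.src e = z
  · have h2 : D.tgt e ≠ z := fun h => this (h1.trans h.symm)
    simp [h1, h2]
  · have h2 : D.tgt e = z := he.resolve_left h1
    simp [h1, h2]

theorem IsRot.ex (h : IsRot D z ρ) (p : E) :
    CylB.ex p (FreeGroup.mk ρ) =
      (if D.src p = z then 1 else 0) - (if D.tgt p = z then 1 else 0) := by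
  have := D.ne p
  by_cases hinc : D.src p = z ∨ D.tgt p = z
  · have hm := (h.mem_iff hinc (decide (D.src p = z))).2 rfl
    have := ex_of_mem h.ed hm
    simp only at this
    rw [this]
    by_cases h1 : D.src p = z
    · have h2 : D.tgt p ≠ z := fun h => D.ne p (h1.trans h.symm)
      simp [h1, h2, sg]
    · have h2 : D.tgt p = z := hinc.resolve_left h1
      simp [h1, h2, sg]
  · rw [ex_eq_zero]
    · push Not at hinc
      simp [hinc.1, hinc.2]
    · rintro a ha rfl
      exact hinc (h.inc ha)

omit [DecidableEq V] in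
theorem IsRot.free (h : IsRot D z ρ) {p : E} (hp : ¬ (D.src p = z ∨ D.tgt p = z)) :
    Phi p (FreeGroup.mk ρ) = io (FreeGroup.mk ρ) := by
  apply Phi_mk
  rintro a ha rfl
  exact hp (h.inc ha)

end Rot

section Seg

variable {α : Type*}

/-- descending concatenation -/
def DL (φ : ℤ → List α) (a : ℤ) : ℕ → List α
  | 0 => []
  | n + 1 => φ (a + n) ++ DL φ a n

theorem DL_shift (φ : ℤ → List α) (m a : ℤ) (n : ℕ) :
    DL (fun k => φ (k - m)) a n = DL φ (a - m) n := by
  induction n with
  | zero => rfl
  | succ n ih =>
    simp only [DL]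
    rw [ih]; congr 2; ring

theorem DL_nil (a : ℤ) (n : ℕ) : DL (fun _ => ([] : List α)) a n = [] := by
  induction n with
  | zero => rfl
  | succ n ih => simp [DL, ih]

theorem DL_ins {φ φ' : ℤ → List α} {x : α} (h : ∀ k, φ' k = if k = 0 then x :: φ k else φ k)
    (a : ℤ) (n : ℕ) : (a + n ≤ 0 → DL φ' a n = DL φ a n) ∧
      (a ≤ 0 → 0 < a + n → (DL φ' a n).Perm (x :: DL φ a n)) := by
  induction n with
  | zero => exact ⟨fun _ => rfl, fun h1 h2 => by simp at h2; omega⟩
  | succ n ih =>
    constructor
    · intro h1
      simp only [DL]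
      rw [ih.1 (by push_cast at h1; omega), h, if_neg (by push_cast at h1; omega)]
    · intro h1 h2
      simp only [DL]
      by_cases hk : a + n = 0
      · rw [h, if_pos hk, ih.1 (by omega)]
        simp
      · rw [h, if_neg hk]
        refine (List.Perm.append_left _ (ih.2 h1 (by push_cast at h2; omega))).trans ?_
        exact List.perm_middle

variable {E : Type*} [DecidableEq E]

/-- letters at height `k` -/
def coordL (p : E) : List (E × Bool) → ℤ → List (E × Bool)
  | [], _ => []
  | a :: W, k =>
    if a.1 = p then coordL p W (k - sg a.2) else if k = 0 then a :: coordL p W k else coordL p W k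

theorem coordL_mk (p : E) (W : List (E × Bool)) (k : ℤ) :
    FreeGroup.mk (coordL p W k) = (Phi p (FreeGroup.mk W)).f k := by
  induction W generalizing k with
  | nil => simp [coordL, mk_nil]
  | cons a W ih =>
    rw [mk_cons, map_mul]
    by_cases ha : a.1 = p
    · obtain ⟨e, b⟩ := a
      simp only at ha
      subst ha
      rw [Phi_single]
      simp [coordL, ih]
    · rw [Phi_single' ha]
      simp only [coordL, if_neg ha, mul_f, io_f, io_n, sub_zero]
      by_cases hk : k = 0
      · rw [if_pos hk, if_pos hk, mk_cons, ih]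
      · rw [if_neg hk, if_neg hk, ih, one_mul]

theorem coordL_supp (p : E) (W : List (E × Bool)) (k : ℤ) (h : coordL p W k ≠ []) :
    k.natAbs ≤ W.length := by
  induction W generalizing k with
  | nil => simp [coordL] at h
  | cons a W ih =>
    simp only [coordL] at h
    rw [List.length_cons]
    split_ifs at h with h1 h2
    · have := ih _ h
      have h3 : (sg a.2).natAbs = 1 := by cases a.2 <;> rfl
      omega
    · subst h2; simp
    · have := ih _ h
      omega

/-- the straightened remainder -/
def seg (p : E) (W : List (E × Bool)) : List (E × Bool) :=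
  DL (coordL p W) (-(W.length : ℤ)) (2 * W.length + 1)

omit [DecidableEq E] in
theorem DL_mk (φ : ℤ → List (E × Bool)) (a : ℤ) (n : ℕ) :
    FreeGroup.mk (DL φ a n) = DP (fun k => (FreeGroup.mk (φ k) : FreeGroup E)) a n := by
  induction n with
  | zero => rfl
  | succ n ih => rw [DL, mk_append, ih]; rfl

theorem seg_isPi (p : E) (W : List (E × Bool)) (h : ex p (FreeGroup.mk W) = 1) :
    IsPi (Phi p (FreeGroup.mk W)) (FreeGroup.mk (seg p W)) := by
  refine ⟨by rw [Phi_n, h], -(W.length : ℤ), 2 * W.length + 1, ?_, ?_⟩
  · intro k hk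
    rw [← coordL_mk]
    have : coordL p W k = [] := by
      by_contra hcon
      have := coordL_supp p W k hcon
      omega
    rw [this, mk_nil]
  · rw [seg, DL_mk]
    apply DP_congr
    intro k _ _
    rw [coordL_mk]

theorem DL_perm (p : E) (W : List (E × Bool)) (a : ℤ) (n : ℕ)
    (h : ∀ k, coordL p W k ≠ [] → a ≤ k ∧ k < a + n) :
    (DL (coordL p W) a n).Perm (W.filter (fun x => x.1 ≠ p)) := by
  induction W generalizing a with
  | nil =>
    have : coordL p ([] : List (E × Bool)) = fun _ => [] := by funext k; rfl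
    rw [this, DL_nil]
    simp
  | cons x W ih =>
    by_cases hx : x.1 = p
    · have : coordL p (x :: W) = fun k => coordL p W (k - sg x.2) := by
        funext k; simp [coordL, hx]
      rw [this, DL_shift]
      rw [List.filter_cons_of_neg (by simpa using hx)]
      apply ih
      intro k hk
      have := h (k + sg x.2) (by rw [this]; simpa using hk)
      omega
    · have hc : ∀ k, coordL p (x :: W) k = if k = 0 then x :: coordL p W k else coordL p W k := by
        intro k; simp [coordL, hx]
      have h0 := h 0 (by rw [hc]; simp)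
      rw [List.filter_cons_of_pos (by simpa using hx)]
      refine ((DL_ins hc a n).2 h0.1 h0.2).trans (List.Perm.cons _ (ih a ?_))
      intro k hk
      apply h
      rw [hc]
      split_ifs
      · simp
      · exact hk

theorem seg_perm (p : E) (W : List (E × Bool)) :
    (seg p W).Perm (W.filter (fun x => x.1 ≠ p)) := by
  apply DL_perm
  intro k hk
  have := coordL_supp p W k hk
  omega

end Seg

section Stage

variable {V E : Type*} [Fintype V] [DecidableEq V] [DecidableEq E]

/-- The state of the straightening process: `P` is the set of straight edges. -/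
structure St (D : Gr V E) (γ : V → ℕ) (ρ : V → List (E × Bool)) (P : Set E)
    (W : ℕ → List (E × Bool)) : Prop where
  mem : ∀ j, ∀ a ∈ W j, γ (D.src a.1) < j ∧ j ≤ γ (D.tgt a.1)
  rel : ∀ j, ∃ c, PC (fun z => FreeGroup.mk (ρ z)) (Finset.univ.filter (fun z => γ z = j)) c ∧
      IsConj (FreeGroup.mk (W (j + 1)) : FreeGroup E) (FreeGroup.mk (W j) * c)
  pr : ∀ e ∈ P, ∀ j, γ (D.src e) < j → j ≤ γ (D.tgt e) →
      (W j).filter (fun a => a.1 = e) = [(e, true)]

variable {D : Gr V E} {γ : V → ℕ} {ρ : V → List (E × Bool)} {P : Set E}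
  {W : ℕ → List (E × Bool)}

theorem St.ex (h : St D γ ρ P W) (hρ : ∀ z, IsRot D z (ρ z)) (p : E) (j : ℕ) :
    CylB.ex p (FreeGroup.mk (W j)) =
      (if γ (D.src p) < j then 1 else 0) - (if γ (D.tgt p) < j then 1 else 0) := by
  induction j with
  | zero =>
    rw [ex_eq_zero]
    · simp
    · intro a ha
      have := h.mem 0 a ha
      omega
  | succ j ih =>
    obtain ⟨c, hc, hcon⟩ := h.rel j
    rw [ex_isConj hcon, ex_mul, ih, hc.ex p]
    have h1 : ∀ z ∈ Finset.univ.filter (fun z => γ z = j), CylB.ex p (FreeGroup.mk (ρ z)) =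
        (if D.src p = z then 1 else 0) - (if D.tgt p = z then 1 else 0) := fun z _ => (hρ z).ex p
    rw [Finset.sum_congr rfl h1, Finset.sum_sub_distrib, Finset.sum_ite_eq, Finset.sum_ite_eq]
    simp only [Finset.mem_filter, Finset.mem_univ, true_and]
    split_ifs <;> omega

theorem St.step (h : St D γ ρ P W) (hρ : ∀ z, IsRot D z (ρ z)) (p : E)
    (hp : γ (D.src p) < γ (D.tgt p)) : ∃ W', St D γ ρ (insert p P) W' := by
  classical
  set a := γ (D.src p) with ha
  set b := γ (D.tgt p) with hb
  have hex : ∀ j, a < j → j ≤ b → CylB.ex p (FreeGroup.mk (W j)) = 1 := by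
    intro j h1 h2
    rw [h.ex hρ p j, if_pos h1, if_neg (by omega)]; simp
  have hpi : ∀ j, a < j → j ≤ b →
      IsPi (Phi p (FreeGroup.mk (W j))) (FreeGroup.mk (seg p (W j))) :=
    fun j h1 h2 => seg_isPi p _ (hex j h1 h2)
  have hfree : ∀ j, ¬ (a < j ∧ j ≤ b) → Phi p (FreeGroup.mk (W j)) = io (FreeGroup.mk (W j)) := by
    intro j hj
    apply Phi_mk
    rintro x hx rfl
    exact hj (h.mem j x hx)
  have hσfree : ∀ z, γ z ≠ a → γ z ≠ b → Phi p (FreeGroup.mk (ρ z)) = io (FreeGroup.mk (ρ z)) := by
    intro z h1 h2
    apply (hρ z).free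
    rintro (rfl | rfl)
    · exact h1 rfl
    · exact h2 rfl
  -- the new words
  refine ⟨fun j => if a < j ∧ j ≤ b then (p, true) :: seg p (W j) else W j, ?_, ?_, ?_⟩
  · intro j x hx
    split_ifs at hx with hj
    · rcases List.mem_cons.1 hx with rfl | hx
      · exact hj
      · have := (seg_perm p (W j)).mem_iff.1 hx
        exact h.mem j x (List.mem_of_mem_filter this)
    · exact h.mem j x hx
  · intro j
    obtain ⟨c, hc, hcon⟩ := h.rel j
    by_cases h1 : a < j ∧ j ≤ b
    · by_cases h2 : j < b
      · -- middle region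
        rw [if_pos h1, if_pos ⟨by omega, by omega⟩]
        have hσ : ∀ z ∈ Finset.univ.filter (fun z => γ z = j),
            Phi p (FreeGroup.mk (ρ z)) = io (FreeGroup.mk (ρ z)) := by
          intro z hz
          rw [Finset.mem_filter] at hz
          exact hσfree z (by omega) (by omega)
        obtain ⟨c', hc', hq⟩ := edge_mid hc hσ hcon (hpi j h1.1 h1.2) (hpi (j + 1) (by omega) (by omega))
        refine ⟨c', hc', ?_⟩
        rw [mk_cons, mk_cons _ (seg p (W j)), hq, mul_assoc]
      · -- end region
        have hjb : j = b := by omega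
        rw [if_pos h1, if_neg (by omega)]
        have hu : D.tgt p ∈ Finset.univ.filter (fun z => γ z = j) := by
          rw [Finset.mem_filter]; exact ⟨Finset.mem_univ _, by omega⟩
        have hmem := ((hρ (D.tgt p)).mem_iff (e := p) (Or.inr rfl) false).2
          (by simp [D.ne p])
        obtain ⟨ra, rb, hr⟩ := List.append_of_mem hmem
        have hed := (hρ (D.tgt p)).ed
        rw [hr, ED_append, ED_cons] at hed
        have hrfree : Phi p (FreeGroup.mk (rb ++ ra)) = io (FreeGroup.mk (rb ++ ra)) := by
          apply Phi_mk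
          intro x hx
          rcases List.mem_append.1 hx with hx | hx
          · exact hed.2.1.1 x hx
          · exact hed.2.2 x hx (p, false) (by simp)
        have hσu : IsConj (FreeGroup.of p * (FreeGroup.mk (rb ++ ra))⁻¹)
            (FreeGroup.mk (ρ (D.tgt p)))⁻¹ := by
          rw [hr, mk_append rb, mk_append ra, mk_cons, mk_single_false]
          refine isConj_iff.2 ⟨(FreeGroup.mk rb)⁻¹, ?_⟩
          group
        have hσ : ∀ z ∈ Finset.univ.filter (fun z => γ z = j), z ≠ D.tgt p →
            Phi p (FreeGroup.mk (ρ z)) = io (FreeGroup.mk (ρ z)) := by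
          intro z hz hne
          rw [Finset.mem_filter] at hz
          apply (hρ z).free
          rintro (rfl | rfl)
          · omega
          · exact hne rfl
        obtain ⟨c', hc', hcon'⟩ := edge_end hc hu (by rw [map_inv, hrfree, map_inv]) hσu hσ
          (hfree (j + 1) (by omega)) hcon (hpi j h1.1 h1.2)
        refine ⟨c', hc', ?_⟩
        rw [mk_cons _ (seg p (W j)), mk_single_true]
        exact hcon'
    · by_cases h2 : a < j + 1 ∧ j + 1 ≤ b
      · -- start region
        have hja : j = a := by omega
        rw [if_neg h1, if_pos h2]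
        have hu : D.src p ∈ Finset.univ.filter (fun z => γ z = j) := by
          rw [Finset.mem_filter]; exact ⟨Finset.mem_univ _, by omega⟩
        have hmem := ((hρ (D.src p)).mem_iff (e := p) (Or.inl rfl) true).2 (by simp)
        obtain ⟨ra, rb, hr⟩ := List.append_of_mem hmem
        have hed := (hρ (D.src p)).ed
        rw [hr, ED_append, ED_cons] at hed
        have hrfree : Phi p (FreeGroup.mk (rb ++ ra)) = io (FreeGroup.mk (rb ++ ra)) := by
          apply Phi_mk
          intro x hx
          rcases List.mem_append.1 hx with hx | hx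
          · exact hed.2.1.1 x hx
          · exact hed.2.2 x hx (p, true) (by simp)
        have hσu : IsConj (FreeGroup.of p * FreeGroup.mk (rb ++ ra))
            (FreeGroup.mk (ρ (D.src p))) := by
          rw [hr, mk_append rb, mk_append ra, mk_cons, mk_single_true]
          refine isConj_iff.2 ⟨FreeGroup.mk ra, ?_⟩
          group
        have hσ : ∀ z ∈ Finset.univ.filter (fun z => γ z = j), z ≠ D.src p →
            Phi p (FreeGroup.mk (ρ z)) = io (FreeGroup.mk (ρ z)) := by
          intro z hz hne
          rw [Finset.mem_filter] at hz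
          apply (hρ z).free
          rintro (rfl | rfl)
          · exact hne rfl
          · omega
        obtain ⟨c', hc', hcon'⟩ := edge_start hc hu hrfree hσu hσ (hfree j h1) hcon
          (hpi (j + 1) h2.1 h2.2)
        refine ⟨c', hc', ?_⟩
        rw [mk_cons, mk_single_true]
        exact hcon'
      · rw [if_neg h1, if_neg h2]
        exact ⟨c, hc, hcon⟩
  · intro e he j h1 h2
    by_cases hj : a < j ∧ j ≤ b
    · rw [if_pos hj]
      by_cases hep : e = p
      · subst hep
        rw [List.filter_cons_of_pos (by simp)]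
        have : (seg e (W j)).filter (fun a => a.1 = e) = [] := by
          rw [List.filter_eq_nil_iff]
          intro x hx
          have := (seg_perm e (W j)).mem_iff.1 hx
          rw [List.mem_filter] at this
          simpa using this.2
        rw [this]
      · have heP : e ∈ P := by
          rcases he with rfl | he
          · exact absurd rfl hep
          · exact he
        rw [List.filter_cons_of_neg (by simpa using Ne.symm hep)]
        have h3 := ((seg_perm p (W j)).filter (fun a => decide (a.1 = e)))
        have h4 : (List.filter (fun x => decide (x.1 ≠ p)) (W j)).filter (fun a => decide (a.1 = e)) =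
            (W j).filter (fun a => decide (a.1 = e)) := by
          rw [List.filter_filter]
          apply List.filter_congr
          intro x _
          by_cases hx : x.1 = e
          · simp [hx, hep]
          · simp [hx]
        rw [h4, h.pr e heP j h1 h2] at h3
        exact List.perm_singleton.1 h3
    · rw [if_neg hj]
      have hep : e ≠ p := by
        rintro rfl
        exact hj ⟨h1, h2⟩
      rcases he with rfl | he
      · exact absurd rfl hep
      · exact h.pr e he j h1 h2

theorem St.all [Finite E] (h : St D γ ρ P W) (hρ : ∀ z, IsRot D z (ρ z)) :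
    ∃ W', St D γ ρ Set.univ W' := by
  classical
  have := Fintype.ofFinite E
  have key : ∀ L : List E, ∃ W', St D γ ρ ({e | e ∈ L}) W' := by
    intro L
    induction L with
    | nil => exact ⟨W, h.mem, h.rel, by simp⟩
    | cons e L ih =>
      obtain ⟨W', hW'⟩ := ih
      by_cases he : γ (D.src e) < γ (D.tgt e)
      · obtain ⟨W'', hW''⟩ := hW'.step hρ e he
        refine ⟨W'', hW''.mem, hW''.rel, fun e' he' => hW''.pr e' ?_⟩
        rcases List.mem_cons.1 he' with rfl | h
        · exact Set.mem_insert _ _
        · exact Set.mem_insert_of_mem _ h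
      · refine ⟨W', hW'.mem, hW'.rel, fun e' he' j h1 h2 => ?_⟩
        rcases List.mem_cons.1 he' with rfl | h
        · omega
        · exact hW'.pr e' h j h1 h2
  obtain ⟨W', hW'⟩ := key Finset.univ.toList
  exact ⟨W', hW'.mem, hW'.rel, fun e _ => hW'.pr e (by simp)⟩

theorem stage1 [Finite E] (h : HypH D γ) : ∃ (ρ : V → List (E × Bool)) (W : ℕ → List (E × Bool)),
    (∀ z, IsRot D z (ρ z)) ∧ St D γ ρ Set.univ W := by
  classical
  obtain ⟨ρ, g, hρ, hk, hrel⟩ := h
  refine ⟨ρ, ?_⟩
  have h0 : St D γ ρ ∅ (fun j => ((g j).toWord).filter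
      (fun a => decide (γ (D.src a.1) < j ∧ j ≤ γ (D.tgt a.1)))) := by
    refine ⟨?_, ?_, by simp⟩
    · intro j a ha
      have := List.of_mem_filter ha
      simpa using this
    · intro j
      have hg : ∀ j, (FreeGroup.mk (((g j).toWord).filter
          (fun a => decide (γ (D.src a.1) < j ∧ j ≤ γ (D.tgt a.1)))) : FreeGroup E) = g j := by
        intro j
        have := keep_mk (fun e => γ (D.src e) < j ∧ j ≤ γ (D.tgt e)) (g j).toWord
        rw [FreeGroup.mk_toWord, hk j] at this
        exact this.symm
      simp only [hg]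
      exact hrel j
  obtain ⟨W, hW⟩ := h0.all hρ
  exact ⟨W, hρ, hW⟩

end Stage

end CylB
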