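import Pool.Agent.Lib.MP_c5238b_co.Stage1

/-!
# Stage 2, basics : linear movies, reversal, reduced words, coordinates
-/

namespace CylB

open WG

section MovieLemmas

variable {V E : Type*} {D : Gr V E}

/-- linear bend-free movies -/
inductive Lin (D : Gr V E) : List V → List (E × Bool) → List (E × Bool) → Prop
  | nil {w : List (E × Bool)} : Lin D [] w w
  | cons {z : V} {l : List V} {P x y Q w' : List (E × Bool)} :
      IsRot D z (FreeGroup.invRev x ++ y) → Lin D l (P ++ y ++ Q) w' →
      Lin D (z :: l) (P ++ x ++ Q) w'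

theorem Lin.trans {l l' : List V} {w w' w'' : List (E × Bool)} (h : Lin D l w w')
    (h' : Lin D l' w' w'') : Lin D (l ++ l') w w'' := by
  induction h with
  | nil => simpa using h'
  | cons hr _ ih => exact Lin.cons hr (ih h')

theorem Lin.ctx {l : List V} {w w' : List (E × Bool)} (h : Lin D l w w')
    (A B : List (E × Bool)) : Lin D l (A ++ w ++ B) (A ++ w' ++ B) := by
  induction h with
  | nil => exact Lin.nil
  | @cons z l P x y Q w' hr _ ih =>
    have h1 : A ++ (P ++ x ++ Q) ++ B = (A ++ P) ++ x ++ (Q ++ B) := by simp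
    rw [h1]
    refine Lin.cons hr ?_
    have h2 : (A ++ P) ++ y ++ (Q ++ B) = A ++ (P ++ y ++ Q) ++ B := by simp
    rw [h2]
    exact ih

theorem Lin.single {z : V} {x y : List (E × Bool)} (h : IsRot D z (FreeGroup.invRev x ++ y))
    (P Q : List (E × Bool)) : Lin D [z] (P ++ x ++ Q) (P ++ y ++ Q) := Lin.cons h Lin.nil

theorem Movie.trans {l l' : List V} {w w' w'' : List (E × Bool)} (h : Movie D l w w')
    (h' : Movie D l' w' w'') : Movie D (l ++ l') w w'' := by
  induction h with
  | nil hr =>
    rw [List.nil_append]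
    cases h' with
    | nil hr' => exact Movie.nil (hr.trans hr')
    | cons h1 h2 h3 => exact Movie.cons h1 (hr.trans h2) h3
  | cons h1 h2 _ ih => exact Movie.cons h1 h2 (ih h')

theorem Movie.rotl {l : List V} {w w' w'' : List (E × Bool)} (h : w.IsRotated w')
    (h' : Movie D l w' w'') : Movie D l w w'' := (Movie.nil h).trans h'

theorem Movie.rotr {l : List V} {w w' w'' : List (E × Bool)} (h : Movie D l w w')
    (h' : w'.IsRotated w'') : Movie D l w w'' := by
  simpa using h.trans (Movie.nil h')

theorem Movie.single {z : V} {x y s : List (E × Bool)}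
    (h : IsRot D z (FreeGroup.invRev x ++ y)) : Movie D [z] (x ++ s) (y ++ s) :=
  Movie.cons h (List.IsRotated.refl _) (Movie.nil (List.IsRotated.refl _))

theorem isRotated_append (A B : List (E × Bool)) : (A ++ B).IsRotated (B ++ A) :=
  ⟨A.length, by simp⟩

theorem Lin.movie {l : List V} {w w' : List (E × Bool)} (h : Lin D l w w') : Movie D l w w' := by
  induction h with
  | nil => exact Movie.nil (List.IsRotated.refl _)
  | @cons z l P x y Q w' hr _ ih =>
    refine Movie.cons (x := x) (y := y) (s := Q ++ P) hr ?_ (Movie.rotl ?_ ih)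
    · have := isRotated_append P (x ++ Q)
      simpa using this
    · have := isRotated_append (y ++ Q) P
      simpa using this

/-- reversal of all orientations -/
def Gr.swap (D : Gr V E) : Gr V E := ⟨D.tgt, D.src, fun e => (D.ne e).symm⟩

theorem mem_invRev {a : E × Bool} {L : List (E × Bool)} :
    a ∈ FreeGroup.invRev L ↔ (a.1, !a.2) ∈ L := by
  obtain ⟨e, b⟩ := a
  simp only [FreeGroup.invRev, List.mem_reverse, List.mem_map]
  constructor
  · rintro ⟨⟨e', b'⟩, h1, h2⟩
    simp only [Prod.mk.injEq] at h2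
    obtain ⟨rfl, rfl⟩ := h2
    simpa using h1
  · intro h
    exact ⟨(e, !b), h, by simp⟩

theorem IsRot.swap {z : V} {ρ : List (E × Bool)} (h : IsRot D z ρ) :
    IsRot D.swap z (FreeGroup.invRev ρ) := by
  constructor
  · unfold FreeGroup.invRev
    rw [List.nodup_reverse]
    refine h.1.map ?_
    rintro ⟨e, b⟩ ⟨e', b'⟩ hab
    simp only [Prod.mk.injEq] at hab
    obtain ⟨rfl, hb⟩ := hab
    simp only [Bool.not_inj_iff] at hb
    rw [hb]
  · rintro ⟨e, b⟩
    rw [mem_invRev, h.2]
    simp only [star, Set.mem_ofPred_eq, Gr.swap]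
    cases b <;> simp

theorem Gr.swap_swap (D : Gr V E) : D.swap.swap = D := rfl

theorem invRev_append (L L' : List (E × Bool)) :
    FreeGroup.invRev (L ++ L') = FreeGroup.invRev L' ++ FreeGroup.invRev L := by
  simp [FreeGroup.invRev]

theorem IsRot.swap' {z : V} {x y : List (E × Bool)}
    (h : IsRot D z (FreeGroup.invRev x ++ y)) : IsRot D.swap z (FreeGroup.invRev y ++ x) := by
  have := h.swap
  rwa [invRev_append, FreeGroup.invRev_invRev] at this

theorem Lin.rev {l : List V} {w w' : List (E × Bool)} (h : Lin D l w w') :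
    Lin D.swap l.reverse w' w := by
  induction h with
  | nil => exact Lin.nil
  | @cons z l P x y Q w' hr _ ih =>
    rw [List.reverse_cons]
    exact ih.trans (Lin.single hr.swap' P Q)

theorem Movie.rev {l : List V} {w w' : List (E × Bool)} (h : Movie D l w w') :
    Movie D.swap l.reverse w' w := by
  induction h with
  | nil hr => exact Movie.nil hr.symm
  | cons hr h1 _ ih =>
    rw [List.reverse_cons]
    exact ih.trans ((Movie.single hr.swap').rotr h1.symm)

end MovieLemmas

section Reduced

variable {E : Type*} [DecidableEq E]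

omit [DecidableEq E] in
theorem ED.isReduced {w : List (E × Bool)} (h : ED w) : FreeGroup.IsReduced w := by
  induction w with
  | nil => exact List.IsChain.nil
  | cons a w ih =>
    rw [ED_cons] at h
    cases w with
    | nil => exact List.IsChain.singleton _
    | cons b w =>
      refine List.IsChain.cons_cons ?_ (ih h.2)
      intro hab
      exact absurd hab.symm (h.1 b (by simp))

theorem ED.mk_inj {w w' : List (E × Bool)} (h : ED w) (h' : ED w')
    (he : (FreeGroup.mk w : FreeGroup E) = FreeGroup.mk w') : w = w' := by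
  have := congrArg FreeGroup.toWord he
  rwa [FreeGroup.toWord_mk, FreeGroup.toWord_mk, h.isReduced.reduce_eq,
    h'.isReduced.reduce_eq] at this

theorem IsPi_tt {F : Type*} [Group F] (g : F) : IsPi (tt 1 * io g) g := by
  refine ⟨by simp, 1, 1, fun k hk => ?_, ?_⟩
  · simp only [mul_f, tt_f, tt_n, io_f, one_mul]
    rw [if_neg (by push_cast at hk; omega)]
  · simp [DP]

theorem cycED {w w' : List (E × Bool)} (h : ED w) (h' : ED w')
    (hc : IsConj (FreeGroup.mk w' : FreeGroup E) (FreeGroup.mk w)) : w.IsRotated w' := by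
  cases w with
  | nil =>
    rw [mk_nil, isConj_one_left] at hc
    have : w' = [] := h'.mk_inj (by simp [ED]) hc
    rw [this]
  | cons a u =>
    have h1 : ex a.1 (FreeGroup.mk w') = sg a.2 := by
      rw [ex_isConj hc, ex_of_mem h (by simp)]
    have h2 : ∃ b ∈ w', b.1 = a.1 := by
      by_contra hcon
      push Not at hcon
      rw [ex_eq_zero hcon] at h1
      exact sg_ne _ h1.symm
    obtain ⟨b, hb, hba⟩ := h2
    have h3 : b = a := by
      have h4 := ex_of_mem h' hb
      rw [hba, h1] at h4
      obtain ⟨e, β⟩ := a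
      obtain ⟨e', β'⟩ := b
      simp only at hba
      subst hba
      cases β <;> cases β' <;> simp_all [sg]
    subst h3
    obtain ⟨w1, w2, rfl⟩ := List.append_of_mem hb
    have h5 : (w1 ++ b :: w2).IsRotated (b :: (w2 ++ w1)) := by
      have := isRotated_append w1 (b :: w2)
      simpa using this
    have h6 : IsConj (FreeGroup.mk (b :: (w2 ++ w1)) : FreeGroup E) (FreeGroup.mk (b :: u)) := by
      refine IsConj.trans (isConj_iff.2 ⟨FreeGroup.mk w1, ?_⟩) hc
      rw [← List.cons_append, mk_append, mk_append w1]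
      group
    have hED : ED (b :: (w2 ++ w1)) := h'.perm (by
      have := (List.perm_append_comm (l₁ := w1) (l₂ := b :: w2))
      simpa using this)
    rw [ED_cons] at h hED
    have h7 : (FreeGroup.mk (w2 ++ w1) : FreeGroup E) = FreeGroup.mk u := by
      obtain ⟨e, β⟩ := b
      cases β
      · -- inverse
        have h8 : IsConj (FreeGroup.of e * (FreeGroup.mk (w2 ++ w1))⁻¹)
            (FreeGroup.of e * (FreeGroup.mk u)⁻¹) := by
          obtain ⟨k, hk⟩ := isConj_iff.1 h6
          refine isConj_iff.2 ⟨FreeGroup.mk u * k * (FreeGroup.mk (w2 ++ w1))⁻¹, ?_⟩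
          rw [mk_cons, mk_cons _ u, mk_single_false] at hk
          have h9 : FreeGroup.mk u = FreeGroup.of e * (k * ((FreeGroup.of e)⁻¹ * FreeGroup.mk (w2 ++ w1)) * k⁻¹) := by
            rw [hk]; group
          nth_rewrite 2 [h9]
          rw [h9]
          group
        have h10 : Phi e (FreeGroup.of e * (FreeGroup.mk (w2 ++ w1))⁻¹) =
            tt 1 * io (FreeGroup.mk (w2 ++ w1))⁻¹ := by
          rw [map_mul, map_inv, Phi_of_self, Phi_mk (fun x hx => hED.1 x hx), ← map_inv]
        have h11 : Phi e (FreeGroup.of e * (FreeGroup.mk u)⁻¹) =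
            tt 1 * io (FreeGroup.mk u)⁻¹ := by
          rw [map_mul, map_inv, Phi_of_self, Phi_mk (fun x hx => h.1 x hx), ← map_inv]
        have h12 : IsPi (Phi e (FreeGroup.of e * (FreeGroup.mk (w2 ++ w1))⁻¹))
            (FreeGroup.mk (w2 ++ w1))⁻¹ := by rw [h10]; exact IsPi_tt _
        have h13 := h12.isConj h8
        rw [h11] at h13
        exact inv_injective (h13.unique (IsPi_tt _))
      · have h10 : Phi e (FreeGroup.mk ((e, true) :: (w2 ++ w1))) =
            tt 1 * io (FreeGroup.mk (w2 ++ w1)) := by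
          rw [mk_cons, map_mul, mk_single_true, Phi_of_self, Phi_mk (fun x hx => hED.1 x hx)]
        have h11 : Phi e (FreeGroup.mk ((e, true) :: u)) = tt 1 * io (FreeGroup.mk u) := by
          rw [mk_cons, map_mul, mk_single_true, Phi_of_self, Phi_mk (fun x hx => h.1 x hx)]
        have h12 : IsPi (Phi e (FreeGroup.mk ((e, true) :: (w2 ++ w1))))
            (FreeGroup.mk (w2 ++ w1)) := by rw [h10]; exact IsPi_tt _
        have h13 := h12.isConj h6
        rw [h11] at h13
        exact h13.unique (IsPi_tt _)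
    have h14 : w2 ++ w1 = u := hED.2.mk_inj h.2 h7
    rw [← h14]
    exact h5.symm

end Reduced

section Coord

variable {V E : Type*} [DecidableEq V] [DecidableEq E]

omit [DecidableEq V] in
theorem coord_lin {p : E} {u v b c : FreeGroup E} (β : Bool) (hu : Phi p u = io u)
    (hv : Phi p v = io v) (hb : Phi p b = io b) (k : ℤ) :
    (Phi p (u * FreeGroup.mk [(p, β)] * v * FreeGroup.mk [(p, !β)] * b * c)).f k =
      (if k = 0 then u else 1) * (if k = sg β then v else 1) * (if k = 0 then b else 1) *
        (Phi p c).f k := by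
  have hs : sg (!β) = - sg β := sg_not β
  simp only [map_mul, hu, hv, hb, Phi_single, mul_f, mul_n, io_f, io_n, tt_f, tt_n, hs,
    mul_one, zero_add, add_zero, sub_zero, add_neg_cancel, sub_eq_zero]

omit [DecidableEq E] in
theorem PC.list {σ : V → FreeGroup E} {S : Finset V} {ht : V → ℤ} {κ : ℤ → FreeGroup E}
    (h : ∀ k, PC σ (S.filter (fun z => ht z = k)) (κ k)) (L : List ℤ) (hL : L.Nodup) :
    PC σ (S.filter (fun z => ht z ∈ L)) ((L.map κ).prod) := by
  induction L with
  | nil => simpa using PC.empty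
  | cons k L ih =>
    rw [List.nodup_cons] at hL
    rw [List.map_cons, List.prod_cons]
    refine ((h k).mul (ih hL.2) ?_).cast ?_ rfl
    · rw [Finset.disjoint_left]
      intro z hz hz'
      rw [Finset.mem_filter] at hz hz'
      rw [hz.2] at hz'
      exact hL.1 hz'.2
    · ext z
      simp only [Finset.mem_union, Finset.mem_filter, List.mem_cons]
      tauto

omit [DecidableEq E] in
theorem PC.fold {σ : V → FreeGroup E} {S : Finset V} {ht : V → ℤ} {κ : ℤ → FreeGroup E}
    (h : ∀ k, PC σ (S.filter (fun z => ht z = k)) (κ k)) {a : ℤ} (ha : a ≠ 0)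
    (h1 : ∀ k, k ≠ 0 → k ≠ a → κ k = 1) :
    PC σ (S.filter (fun z => ht z ≠ 0)) (κ a) := by
  have := PC.list h (a :: ((S.image ht).filter (fun k => k ≠ 0 ∧ k ≠ a)).toList)
    (by
      rw [List.nodup_cons]
      refine ⟨?_, Finset.nodup_toList _⟩
      simp)
  refine this.cast ?_ ?_
  · apply Finset.filter_congr
    intro z hz
    simp only [List.mem_cons, Finset.mem_toList, Finset.mem_filter, Finset.mem_image]
    constructor
    · rintro (h | h)
      · rw [h]; exact ha
      · exact h.2.1
    · intro h0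
      by_cases h2 : ht z = a
      · left; exact h2
      · right; exact ⟨⟨z, hz, rfl⟩, h0, h2⟩
  · rw [List.map_cons, List.prod_cons, List.prod_eq_one, mul_one]
    intro x hx
    rw [List.mem_map] at hx
    obtain ⟨k, hk, rfl⟩ := hx
    simp only [Finset.mem_toList, Finset.mem_filter] at hk
    exact h1 k hk.2.1 hk.2.2

omit [DecidableEq E] in
theorem PC.fold2 {σ : V → FreeGroup E} {S : Finset V} {ht : V → ℤ} {κ : ℤ → FreeGroup E}
    (h : ∀ k, PC σ (S.filter (fun z => ht z = k)) (κ k)) {a n : ℤ} (ha : a ≠ 0) (hn : n ≠ 0)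
    (han : a ≠ n) (h1 : ∀ k, k ≠ 0 → k ≠ a → k ≠ n → κ k = 1) :
    PC σ (S.filter (fun z => ht z ≠ 0)) (κ a * κ n) := by
  have := PC.list h (a :: n :: ((S.image ht).filter (fun k => k ≠ 0 ∧ k ≠ a ∧ k ≠ n)).toList)
    (by
      rw [List.nodup_cons, List.nodup_cons]
      refine ⟨?_, ?_, Finset.nodup_toList _⟩
      · simp [han]
      · simp)
  refine this.cast ?_ ?_
  · apply Finset.filter_congr
    intro z hz
    simp only [List.mem_cons, Finset.mem_toList, Finset.mem_filter, Finset.mem_image]
    constructor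
    · rintro (h | h | h)
      · rw [h]; exact ha
      · rw [h]; exact hn
      · exact h.2.1
    · intro h0
      by_cases h2 : ht z = a
      · left; exact h2
      · by_cases h3 : ht z = n
        · right; left; exact h3
        · right; right; exact ⟨⟨z, hz, rfl⟩, h0, h2, h3⟩
  · rw [List.map_cons, List.map_cons, List.prod_cons, List.prod_cons, List.prod_eq_one, mul_one]
    intro x hx
    rw [List.mem_map] at hx
    obtain ⟨k, hk, rfl⟩ := hx
    simp only [Finset.mem_toList, Finset.mem_filter] at hk
    exact h1 k hk.2.1 hk.2.2.1 hk.2.2.2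

end Coord

section Good

variable {V E : Type*} [DecidableEq V] [DecidableEq E]

/-- `e` is incident with `z` -/
def Inc (D : Gr V E) (z : V) (e : E) : Prop := D.src e = z ∨ D.tgt e = z

/-- no edge of `w` has both ends in `S` -/
def NoInt (D : Gr V E) (S : Finset V) (w : List (E × Bool)) : Prop :=
  ∀ a ∈ w, ¬ (D.src a.1 ∈ S ∧ D.tgt a.1 ∈ S)

/-- `l` lists `S` -/
def Lst (l : List V) (S : Finset V) : Prop := l.Nodup ∧ ∀ v, v ∈ l ↔ v ∈ S

theorem Lst.append {l l' : List V} {S T : Finset V} (h : Lst l S) (h' : Lst l' T)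
    (hd : Disjoint S T) : Lst (l ++ l') (S ∪ T) := by
  refine ⟨?_, fun v => by rw [List.mem_append, h.2, h'.2, Finset.mem_union]⟩
  rw [List.nodup_append']
  refine ⟨h.1, h'.1, ?_⟩
  intro v hv hv'
  rw [h.2] at hv
  rw [h'.2] at hv'
  exact Finset.disjoint_left.1 hd hv hv'

theorem Lst.cons {l : List V} {S : Finset V} {z : V} (h : Lst l S) (hz : z ∉ S) :
    Lst (z :: l) (insert z S) := by
  refine ⟨List.nodup_cons.2 ⟨fun h' => hz ((h.2 z).1 h'), h.1⟩, fun v => ?_⟩
  rw [List.mem_cons, h.2, Finset.mem_insert]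

omit [DecidableEq V] in
theorem Lst.cast {l : List V} {S S' : Finset V} (h : Lst l S) (hS : S = S') : Lst l S' := hS ▸ h

omit [DecidableEq V] in
theorem Lst.reverse {l : List V} {S : Finset V} (h : Lst l S) : Lst l.reverse S :=
  ⟨List.nodup_reverse.2 h.1, fun v => by rw [List.mem_reverse, h.2]⟩

omit [DecidableEq E] [DecidableEq V] in
theorem NoInt.swap {D : Gr V E} {S : Finset V} {w : List (E × Bool)} (h : NoInt D S w) :
    NoInt D.swap S w := fun a ha hc => h a ha ⟨hc.2, hc.1⟩

omit [DecidableEq E] [DecidableEq V] in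
theorem NoInt.mono {D : Gr V E} {S S' : Finset V} {w : List (E × Bool)} (h : NoInt D S w)
    (hS : S' ⊆ S) : NoInt D S' w := fun a ha hc => h a ha ⟨hS hc.1, hS hc.2⟩

omit [DecidableEq E] [DecidableEq V] in
theorem NoInt.of_inc {D : Gr V E} {S : Finset V} {z : V} (hz : z ∉ S) {w : List (E × Bool)}
    (h : ∀ a ∈ w, Inc D z a.1) : NoInt D S w := by
  rintro a ha ⟨h1, h2⟩
  rcases h a ha with rfl | rfl
  · exact hz h1
  · exact hz h2

omit [DecidableEq E] in
/-- the other end of an edge at `z` -/
theorem other_not_mem {D : Gr V E} {S : Finset V} {z : V} {e : E}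
    (h : ¬ (D.src e ∈ insert z S ∧ D.tgt e ∈ insert z S)) (hz : Inc D z e) :
    ∀ v ∈ S, v ≠ z → ¬ Inc D v e := by
  rintro v hv hvz (rfl | rfl)
  · rcases hz with h1 | h1
    · exact hvz h1
    · exact h ⟨Finset.mem_insert_of_mem hv, by rw [h1]; exact Finset.mem_insert_self _ _⟩
  · rcases hz with h1 | h1
    · exact h ⟨by rw [h1]; exact Finset.mem_insert_self _ _, Finset.mem_insert_of_mem hv⟩
    · exact hvz h1

theorem ex_rot_eq_zero {D : Gr V E} {v : V} {ρ : List (E × Bool)} (h : IsRot D v ρ) {e : E}
    (he : ¬ Inc D v e) : ex e (FreeGroup.mk ρ) = 0 := by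
  rw [h.ex]
  unfold Inc at he
  push Not at he
  simp [he.1, he.2]

end Good

end CylB
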