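import Pool.Agent.Lib.MP_c5238b_co.T2base

/-!
# Stage 2, linear version
-/

namespace CylB

open WG

section Common

variable {V E : Type*} [DecidableEq V] [DecidableEq E] {D : Gr V E}

theorem PC.exS {ρ : V → List (E × Bool)} {S : Finset V} {c : FreeGroup E}
    (h : PC (fun z => FreeGroup.mk (ρ z)) S c) (hρ : ∀ z ∈ S, IsRot D z (ρ z)) (f : E) :
    CylB.ex f c = (if D.src f ∈ S then 1 else 0) - (if D.tgt f ∈ S then 1 else 0) := by
  rw [h.ex f, Finset.sum_congr rfl (fun z hz => (hρ z hz).ex f), Finset.sum_sub_distrib,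
    Finset.sum_ite_eq, Finset.sum_ite_eq]

theorem exists_first {α : Type*} {P : α → Prop} {L : List α} (h : ∃ a ∈ L, P a) :
    ∃ A m B, L = A ++ m :: B ∧ P m ∧ ∀ a ∈ A, ¬ P a := by
  classical
  induction L with
  | nil => simp at h
  | cons x L ih =>
    by_cases hx : P x
    · exact ⟨[], x, L, rfl, hx, by simp⟩
    · obtain ⟨a, ha, hPa⟩ := h
      have : ∃ a ∈ L, P a := by
        rcases List.mem_cons.1 ha with rfl | ha
        · exact absurd hPa hx
        · exact ⟨a, ha, hPa⟩
      obtain ⟨A, m, B, rfl, hm, hA⟩ := ih this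
      refine ⟨x :: A, m, B, rfl, hm, ?_⟩
      intro a ha
      rcases List.mem_cons.1 ha with rfl | ha
      · exact hx
      · exact hA a ha

theorem leg {z : V} {X r w' : List (E × Bool)} (hrot : IsRot D z (FreeGroup.invRev X ++ r))
    {m : E × Bool} (hinc : Inc D z m.1) (hX : ∀ a ∈ X, a.1 ≠ m.1) (hw' : ED w')
    (hex : ex m.1 (FreeGroup.mk w') = ex m.1 (FreeGroup.mk r) + sg m.2) :
    (m.1, !m.2) ∈ r ∧ ∀ a ∈ w', a.1 ≠ m.1 := by
  have h1 := (hrot.mem_iff hinc (decide (D.src m.1 = z))).2 rfl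
  set β := decide (D.src m.1 = z) with hβ
  have h2 : (m.1, β) ∈ r := by
    rcases List.mem_append.1 h1 with h | h
    · rw [mem_invRev] at h
      exact (hX _ h rfl).elim
    · exact h
  have hr : ED r := hrot.ed.sub (List.sublist_append_right _ _)
  have h3 := ex_of_mem hr h2
  simp only at h3
  rw [h3] at hex
  have h4 := hw'.abs_le m.1
  rw [hex] at h4
  have h5 : β = !m.2 := by
    generalize m.2 = b at h4
    revert h4
    cases β <;> cases b <;> simp [sg]
  refine ⟨h5 ▸ h2, hw'.not_mem ?_⟩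
  rw [hex, h5, sg_not]
  ring

/-- the new word after collecting one more leg is edge-distinct and has no interior edges -/
theorem new_state {z : V} {S S0 : Finset V} {ρ : V → List (E × Bool)}
    {V1 X A B r1 r2 w' : List (E × Bool)} {m : E × Bool} {κ : FreeGroup E}
    (hz : z ∉ S) (hS0 : S0 ⊆ S) (hρ : ∀ v ∈ S, IsRot D v (ρ v))
    (hrot : IsRot D z (FreeGroup.invRev X ++ (r1 ++ (m.1, !m.2) :: r2)))
    (hV1 : ∀ a ∈ V1, ¬ Inc D z a.1) (hED : ED (V1 ++ X ++ (A ++ m :: B)))
    (hNI : NoInt D (insert z S) (V1 ++ X ++ (A ++ m :: B))) (hNI' : NoInt D (insert z S) w')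
    (hw' : ∀ b ∈ B, Inc D z b.1 → ∀ a ∈ w', a.1 ≠ b.1)
    (hκ : PC (fun v => FreeGroup.mk (ρ v)) S0 κ)
    (hex : ∀ e, ex e (FreeGroup.mk w') = ex e (FreeGroup.mk V1) + ex e (FreeGroup.mk r1) +
      ex e (FreeGroup.mk B) + ex e κ) :
    ED (V1 ++ (X ++ FreeGroup.invRev r2 ++ [m]) ++ B) ∧
      NoInt D (insert z S0) (V1 ++ (X ++ FreeGroup.invRev r2 ++ [m]) ++ B) := by
  have hρ0 : ∀ v ∈ S0, IsRot D v (ρ v) := fun v hv => hρ v (hS0 hv)
  have hed := hrot.ed
  have hinc2 : ∀ a ∈ r2, Inc D z a.1 := fun a ha => hrot.inc (by simp [ha])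
  have hNIm : ∀ a ∈ V1 ++ X ++ (A ++ m :: B), ∀ v ∈ S, Inc D z a.1 → ¬ Inc D v a.1 :=
    fun a ha v hv hza => other_not_mem (hNI a ha) hza v hv (by rintro rfl; exact hz hv)
  -- edges of r2 are not in r1
  have hr12 : ∀ a ∈ r1, ∀ b ∈ r2, a.1 ≠ b.1 := by
    intro a ha b hb
    rw [ED_append, ED_append] at hed
    exact hed.2.1.2.2 a ha b (by simp [hb])
  have hB : ∀ b ∈ B, ∀ a ∈ r2, b.1 ≠ a.1 := by
    intro b hb a ha hba
    have hincb : Inc D z b.1 := hba ▸ hinc2 a ha
    have h1 := hex b.1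
    rw [ex_eq_zero (hw' b hb hincb), ex_eq_zero (L := V1) (fun x hx => by
        rintro h; exact hV1 x hx (h ▸ hincb)),
      ex_eq_zero (L := r1) (fun x hx => by rw [hba]; exact hr12 x hx a ha),
      ex_of_mem (hED.sub (((List.sublist_cons_self m B).trans
        (List.sublist_append_right A _)).trans (List.sublist_append_right (V1 ++ X) _))) hb,
      hκ.exS hρ0] at h1
    have h2 : D.src b.1 ∉ S0 := fun h => hNIm b (by simp [hb]) _ (hS0 h) hincb (Or.inl rfl)
    have h3 : D.tgt b.1 ∉ S0 := fun h => hNIm b (by simp [hb]) _ (hS0 h) hincb (Or.inr rfl)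
    rw [if_neg h2, if_neg h3] at h1
    have := sg_ne b.2
    omega
  constructor
  · have hperm : ((V1 ++ X ++ m :: B) ++ FreeGroup.invRev r2).Perm
        (V1 ++ (X ++ FreeGroup.invRev r2 ++ [m]) ++ B) := by
      simp only [List.append_assoc]
      refine List.Perm.append_left _ (List.Perm.append_left _ ?_)
      have h1 : (m :: B ++ FreeGroup.invRev r2).Perm (FreeGroup.invRev r2 ++ m :: B) :=
        List.perm_append_comm
      simpa using h1
    refine ED.perm ?_ hperm
    rw [ED_append]
    refine ⟨hED.sub ?_, ?_, ?_⟩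
    · exact List.Sublist.append_left (List.sublist_append_right A (m :: B)) _
    · rw [ED_invRev]
      refine hed.sub ?_
      exact ((List.sublist_cons_self _ r2).trans (List.sublist_append_right r1 _)).trans
        (List.sublist_append_right _ _)
    · intro a ha b hb hab
      rw [mem_invRev] at hb
      have hincb := hinc2 _ hb
      simp only at hincb
      simp only [List.mem_append, List.mem_cons] at ha
      rcases ha with (ha | ha) | (rfl | ha)
      · exact hV1 a ha (hab ▸ hincb)
      · rw [ED_append] at hed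
        refine hed.2.2 (a.1, !a.2) (by rw [mem_invRev]; simpa using ha) (b.1, !b.2)
          (by simp only [List.mem_append, List.mem_cons]; right; right; exact hb) hab
      · rw [ED_append, ED_append, ED_cons] at hed
        exact hed.2.1.2.1.1 _ hb hab.symm
      · exact hB a ha _ hb hab
  · intro a ha
    have hold : a ∈ V1 ++ X ++ (A ++ m :: B) → ¬(D.src a.1 ∈ insert z S0 ∧ D.tgt a.1 ∈ insert z S0) :=
      fun h hc => hNI a h ⟨Finset.insert_subset_insert _ hS0 hc.1,
        Finset.insert_subset_insert _ hS0 hc.2⟩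
    simp only [List.mem_append, List.mem_singleton] at ha
    rcases ha with (ha | ((ha | ha) | rfl)) | ha
    · exact hold (by simp [ha])
    · exact hold (by simp [ha])
    · -- the interesting case
      rintro ⟨hc1, hc2⟩
      rw [mem_invRev] at ha
      have hinca := hinc2 _ ha
      simp only at hinca
      have hbad : D.src a.1 ∈ insert z S ∧ D.tgt a.1 ∈ insert z S :=
        ⟨Finset.insert_subset_insert _ hS0 hc1, Finset.insert_subset_insert _ hS0 hc2⟩
      have h1 := hex a.1
      rw [ex_eq_zero (L := w') (fun x hx h => hNI' x hx (h ▸ hbad)),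
        ex_eq_zero (L := V1) (fun x hx h => hV1 x hx (h ▸ hinca)),
        ex_eq_zero (L := r1) (fun x hx => hr12 x hx _ ha),
        ex_eq_zero (L := B) (fun x hx => hB x hx _ ha), hκ.exS hρ0] at h1
      have hz0 : z ∉ S0 := fun h => hz (hS0 h)
      have hne := D.ne a.1
      rw [Finset.mem_insert] at hc1 hc2
      rcases hinca with h | h
      · have h2 : D.tgt a.1 ∈ S0 := hc2.resolve_left (fun h' => hne (h.trans h'.symm))
        rw [if_neg (h ▸ hz0), if_pos h2] at h1
        omega
      · have h2 : D.src a.1 ∈ S0 := hc1.resolve_left (fun h' => hne (h'.trans h.symm))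
        rw [if_pos h2, if_neg (h ▸ hz0)] at h1
        omega
    · exact hold (by simp)
    · exact hold (by simp [ha])

end Common

section Linear

variable (V E : Type*) [DecidableEq V] [DecidableEq E]

/-- the linear statement for sets of size at most `n` -/
def T2L (n : ℕ) : Prop :=
  ∀ (D : Gr V E) (S : Finset V), S.card ≤ n → ∀ ρ : V → List (E × Bool),
    (∀ z ∈ S, IsRot D z (ρ z)) → ∀ (w w' : List (E × Bool)) (c : FreeGroup E),
    ED w → ED w' → NoInt D S w → NoInt D S w' → PC (fun z => FreeGroup.mk (ρ z)) S c →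
    FreeGroup.mk w' = FreeGroup.mk w * c → ∃ l, Lst l S ∧ Lin D l w w'

variable {V E}

theorem blockL {n : ℕ} (hT : T2L V E n) (D : Gr V E) (k : ℕ) :
    ∀ (S : Finset V) (z : V) (ρ : V → List (E × Bool)) (V1 X V2 r w' : List (E × Bool))
      (c : FreeGroup E), V2.length ≤ k → S.card ≤ n → z ∉ S → (∀ v ∈ S, IsRot D v (ρ v)) →
      IsRot D z (FreeGroup.invRev X ++ r) → (∀ a ∈ V1, ¬ Inc D z a.1) →
      ED (V1 ++ X ++ V2) → ED w' → NoInt D (insert z S) (V1 ++ X ++ V2) →
      NoInt D (insert z S) w' → PC (fun v => FreeGroup.mk (ρ v)) S c →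
      FreeGroup.mk w' = FreeGroup.mk (V1 ++ r ++ V2) * c →
      ∃ l, Lst l (insert z S) ∧ Lin D l (V1 ++ X ++ V2) w' := by
  induction k using Nat.strong_induction_on with
  | _ k ih =>
  intro S z ρ V1 X V2 r w' c hk hS hz hρ hrot hV1 hED hED' hNI hNI' hc heq
  have hed := hrot.ed
  by_cases hex : ∃ m ∈ V2, Inc D z m.1
  · -- collect one more leg
    obtain ⟨A, m, B, rfl, hm, hA⟩ := exists_first hex
    have hleg : ∀ b ∈ A ++ m :: B, Inc D z b.1 → (b.1, !b.2) ∈ r ∧ ∀ a ∈ w', a.1 ≠ b.1 := by
      intro b hb hinc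
      refine leg hrot hinc ?_ hED' ?_
      · intro a ha
        rw [ED_append] at hED
        exact hED.2.2 a (by simp [ha]) b hb
      · have hoth := other_not_mem (hNI b (List.mem_append_right _ hb)) hinc
        have h2 : D.src b.1 ∉ S := fun h => hoth _ h (by rintro h'; exact hz (h' ▸ h)) (Or.inl rfl)
        have h3 : D.tgt b.1 ∉ S := fun h => hoth _ h (by rintro h'; exact hz (h' ▸ h)) (Or.inr rfl)
        rw [heq, ex_mul, mk_append, mk_append, ex_mul, ex_mul, hc.exS hρ, if_neg h2, if_neg h3,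
          ex_eq_zero (L := V1) (fun x hx h => hV1 x hx (h ▸ hinc)),
          ex_of_mem (hED.sub (List.sublist_append_right _ _)) hb]
        ring
    obtain ⟨hmr, hmw'⟩ := hleg m (by simp) hm
    obtain ⟨r1, r2, rfl⟩ := List.append_of_mem hmr
    obtain ⟨p, β⟩ := m
    simp only at hm hmr hmw'
    -- freeness
    have hfr : (∀ a ∈ r1, a.1 ≠ p) ∧ (∀ a ∈ r2, a.1 ≠ p) := by
      rw [ED_append, ED_append, ED_cons] at hed
      exact ⟨fun a ha => hed.2.1.2.2 a ha (p, !β) (by simp), fun a ha => hed.2.1.2.1.1 a ha⟩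
    have hfA : (∀ a ∈ V1, a.1 ≠ p) ∧ (∀ a ∈ A, a.1 ≠ p) ∧ (∀ a ∈ B, a.1 ≠ p) := by
      refine ⟨fun a ha h => hV1 a ha (h ▸ hm), fun a ha h => hA a ha (h ▸ hm), ?_⟩
      rw [ED_append, ED_append, ED_append, ED_cons] at hED
      exact fun a ha => hED.2.1.2.1.1 a ha
    have hoth := other_not_mem (hNI (p, β) (by simp)) hm
    have hσ : ∀ v ∈ S, Phi p (FreeGroup.mk (ρ v)) = io (FreeGroup.mk (ρ v)) := by
      intro v hv
      exact (hρ v hv).free (hoth v hv (by rintro rfl; exact hz hv))
    -- coordinates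
    have hu : Phi p (FreeGroup.mk (V1 ++ r1)) = io (FreeGroup.mk (V1 ++ r1)) := by
      apply Phi_mk
      intro a ha
      rcases List.mem_append.1 ha with ha | ha
      · exact hfA.1 a ha
      · exact hfr.1 a ha
    have hv : Phi p (FreeGroup.mk (r2 ++ A)) = io (FreeGroup.mk (r2 ++ A)) := by
      apply Phi_mk
      intro a ha
      rcases List.mem_append.1 ha with ha | ha
      · exact hfr.2 a ha
      · exact hfA.2.1 a ha
    have hb : Phi p (FreeGroup.mk B) = io (FreeGroup.mk B) := Phi_mk hfA.2.2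
    have hwf : Phi p (FreeGroup.mk w') = io (FreeGroup.mk w') := Phi_mk hmw'
    have heq2 : (FreeGroup.mk w' : FreeGroup E) = FreeGroup.mk (V1 ++ r1) *
        FreeGroup.mk [(p, !β)] * FreeGroup.mk (r2 ++ A) * FreeGroup.mk [(p, !!β)] *
        FreeGroup.mk B * c := by
      rw [heq, Bool.not_not]
      simp only [← mk_append, List.append_assoc, List.cons_append, List.nil_append]
    have hcoord := coord_lin (c := c) (!β) hu hv hb
    rw [← heq2, hwf] at hcoord
    obtain ⟨-, ht, hPC⟩ := hc.split hσ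
    set κ : ℤ → FreeGroup E := fun k => (Phi p c).f k with hκ
    have ha0 : sg (!β) ≠ 0 := sg_ne _
    have h0 : (FreeGroup.mk w' : FreeGroup E) = FreeGroup.mk (V1 ++ r1 ++ B) * κ 0 := by
      have := hcoord 0
      simp only [io_f, if_true, if_neg (Ne.symm ha0), mul_one] at this
      rw [mk_append (V1 ++ r1)]
      exact this
    have h1 : (FreeGroup.mk (FreeGroup.invRev r2) : FreeGroup E) =
        FreeGroup.mk A * κ (sg (!β)) := by
      have := hcoord (sg (!β))
      simp only [io_f, if_true, if_neg ha0, mul_one, one_mul, mk_append] at this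
      rw [mk_invRev, inv_eq_iff_mul_eq_one, ← mul_assoc]
      exact this.symm
    have h2 : ∀ k, k ≠ 0 → k ≠ sg (!β) → κ k = 1 := by
      intro k hk1 hk2
      have := hcoord k
      simp only [io_f, if_neg hk1, if_neg hk2, mul_one, one_mul] at this
      exact this.symm
    have hP0 := hPC 0
    have hP1 := PC.fold hPC ha0 h2
    have hS0 : S.filter (fun z => ht z = 0) ⊆ S := Finset.filter_subset _ _
    have hS1 : S.filter (fun z => ht z ≠ 0) ⊆ S := Finset.filter_subset _ _
    have hz0 : z ∉ S.filter (fun z => ht z = 0) := fun h => hz (hS0 h)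
    have hz1 : z ∉ S.filter (fun z => ht z ≠ 0) := fun h => hz (hS1 h)
    have hinc2 : ∀ a ∈ r2, Inc D z a.1 := fun a ha => hrot.inc (by simp [ha])
    -- first part: A ⇝ invRev r2
    obtain ⟨l1, hl1, hL1⟩ := hT D _ ((Finset.card_le_card hS1).trans hS) ρ
      (fun v hv => hρ v (hS1 hv)) A (FreeGroup.invRev r2) _
      (hED.sub ((List.sublist_append_left A _).trans (List.sublist_append_right _ _)))
      (by
        rw [ED_invRev]
        exact hed.sub (((List.sublist_cons_self _ r2).trans
          (List.sublist_append_right r1 _)).trans (List.sublist_append_right _ _)))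
      (fun a ha hcc => hNI a (by simp [ha]) ⟨Finset.mem_insert_of_mem (hS1 hcc.1),
        Finset.mem_insert_of_mem (hS1 hcc.2)⟩)
      (NoInt.of_inc hz1 (fun a ha => by
        rw [mem_invRev] at ha
        exact hinc2 (a.1, !a.2) ha)) hP1 h1
    -- new state
    have hns := new_state hz hS0 hρ hrot hV1 hED hNI hNI'
      (fun b hb hinc => (hleg b (by simp [hb]) hinc).2) hP0 (by
        intro e
        have h3 := congrArg (ex e) h0
        rw [ex_mul, mk_append, mk_append, ex_mul, ex_mul] at h3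
        exact h3)
    have hrot' : IsRot D z (FreeGroup.invRev (X ++ FreeGroup.invRev r2 ++ [(p, β)]) ++ r1) := by
      refine hrot.perm ?_
      rw [invRev_append, invRev_append, FreeGroup.invRev_invRev]
      have h3 : FreeGroup.invRev [(p, β)] = [(p, !β)] := rfl
      rw [h3]
      have h4 : (FreeGroup.invRev X ++ (r1 ++ (p, !β) :: r2)).Perm
          ((r1 ++ (p, !β) :: r2) ++ FreeGroup.invRev X) := List.perm_append_comm
      refine h4.trans ?_
      rw [List.append_assoc]
      refine List.perm_append_comm.trans ?_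
      simp
    obtain ⟨l2, hl2, hL2⟩ := ih B.length (by
        have := hk
        rw [List.length_append, List.length_cons] at this
        omega) _ z ρ V1 (X ++ FreeGroup.invRev r2 ++ [(p, β)]) B r1 w' _ le_rfl
      ((Finset.card_le_card hS0).trans hS) hz0 (fun v hv => hρ v (hS0 hv)) hrot' hV1 hns.1 hED'
      hns.2 (hNI'.mono (Finset.insert_subset_insert _ hS0)) hP0 h0
    refine ⟨l1 ++ l2, (hl1.append hl2 ?_).cast ?_, ?_⟩
    · rw [Finset.disjoint_insert_right]
      refine ⟨hz1, ?_⟩
      rw [Finset.disjoint_left]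
      intro v hv hv'
      rw [Finset.mem_filter] at hv hv'
      exact hv.2 hv'.2
    · ext v
      simp only [Finset.mem_union, Finset.mem_insert, Finset.mem_filter]
      tauto
    · refine Lin.trans ?_ hL2
      have := hL1.ctx (V1 ++ X) ((p, β) :: B)
      simpa using this
  · -- no more legs: event
    push Not at hex
    have hincr : ∀ a ∈ r, Inc D z a.1 := fun a ha => hrot.inc (by simp [ha])
    obtain ⟨l, hl, hL⟩ := hT D S hS ρ hρ (V1 ++ r ++ V2) w' c (by
        have h1 : ED ((V1 ++ V2) ++ r) := by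
          rw [ED_append]
          refine ⟨hED.sub ?_, hed.sub (List.sublist_append_right _ _), ?_⟩
          · rw [List.append_assoc]
            exact List.Sublist.append_left (List.sublist_append_right X V2) _
          · intro a ha b hb hab
            rcases List.mem_append.1 ha with ha | ha
            · exact hV1 a ha (hab ▸ hincr b hb)
            · exact hex a ha (hab ▸ hincr b hb)
        refine h1.perm ?_
        rw [List.append_assoc, List.append_assoc]
        exact List.Perm.append_left _ List.perm_append_comm) hED'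
      (by
        intro a ha hcc
        simp only [List.mem_append] at ha
        rcases ha with (ha | ha) | ha
        · exact hNI a (by simp [ha]) ⟨Finset.mem_insert_of_mem hcc.1, Finset.mem_insert_of_mem hcc.2⟩
        · exact NoInt.of_inc hz hincr a ha hcc
        · exact hNI a (by simp [ha]) ⟨Finset.mem_insert_of_mem hcc.1, Finset.mem_insert_of_mem hcc.2⟩)
      (hNI'.mono (Finset.subset_insert _ _)) hc heq
    exact ⟨z :: l, hl.cons hz, Lin.cons hrot hL⟩

/-- the substitution used to pull the vertex `z` onto a leg -/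
theorem pull {D : Gr V E} {S : Finset V} {z : V} {ρ : V → List (E × Bool)} {c : FreeGroup E}
    (hz : z ∈ S) (hρ : ∀ v ∈ S, IsRot D v (ρ v)) (hc : PC (fun v => FreeGroup.mk (ρ v)) S c)
    {p : E} {b : Bool} {ra rb : List (E × Bool)} (hr : ρ z = ra ++ (p, !b) :: rb)
    (hoth : ∀ v ∈ S, v ≠ z → ¬ Inc D v p) :
    ∃ v : FreeGroup E, subst p v (FreeGroup.mk [(p, b)]) = FreeGroup.mk (rb ++ ra) ∧
      PC (fun v => FreeGroup.mk (ρ v)) (S.erase z) (subst p v c) := by
  refine ⟨if b then FreeGroup.mk (rb ++ ra) else (FreeGroup.mk (rb ++ ra))⁻¹, ?_⟩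
  set v : FreeGroup E := if b then FreeGroup.mk (rb ++ ra) else (FreeGroup.mk (rb ++ ra))⁻¹
    with hv
  have h1 : subst p v (FreeGroup.mk [(p, b)]) = FreeGroup.mk (rb ++ ra) := by
    cases b
    · rw [mk_single_false, map_inv, subst_self, hv]; simp
    · rw [mk_single_true, subst_self, hv]; simp
  refine ⟨h1, ?_⟩
  have hed := (hρ z hz).ed
  rw [hr, ED_append, ED_cons] at hed
  have h2 : subst p v (FreeGroup.mk (ρ z)) = 1 := by
    rw [hr, mk_append, mk_cons, mk_single_not, map_mul, map_mul, map_inv, h1,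
      subst_mk p v (fun a ha => hed.2.2 a ha (p, !b) (by simp)),
      subst_mk p v (fun a ha => hed.2.1.1 a ha), mk_append]
    group
  obtain ⟨g, d, hd, hcd⟩ := (hc.map (subst p v)).erase hz
  rw [h2] at hcd
  rw [hcd]
  simp only [mul_one, mul_inv_cancel, one_mul]
  refine hd.congr' ?_
  intro u hu
  apply subst_mk
  rintro a ha rfl
  exact hoth u (Finset.mem_of_mem_erase hu) (Finset.ne_of_mem_erase hu)
    ((hρ u (Finset.mem_of_mem_erase hu)).inc ha)

theorem caseL {n : ℕ} (hT : T2L V E n) (D : Gr V E) (S : Finset V) (hS : S.card ≤ n + 1)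
    (ρ : V → List (E × Bool)) (hρ : ∀ z ∈ S, IsRot D z (ρ z)) (w w' : List (E × Bool))
    (c : FreeGroup E) (hED : ED w) (hED' : ED w') (hNI : NoInt D S w) (hNI' : NoInt D S w')
    (hc : PC (fun z => FreeGroup.mk (ρ z)) S c) (heq : FreeGroup.mk w' = FreeGroup.mk w * c)
    (hex : ∃ z ∈ S, ∃ a ∈ w, Inc D z a.1) : ∃ l, Lst l S ∧ Lin D l w w' := by
  obtain ⟨z, hz, hex⟩ := hex
  obtain ⟨V1, ⟨p, b⟩, V2, rfl, hm, hV1⟩ := exists_first hex
  simp only at hm
  have hins : insert z (S.erase z) = S := Finset.insert_erase hz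
  have hoth : ∀ v ∈ S, v ≠ z → ¬ Inc D v p := by
    intro v hv hvz
    refine other_not_mem (S := S.erase z) (z := z) ?_ hm v (Finset.mem_erase.2 ⟨hvz, hv⟩) hvz
    rw [hins]
    exact hNI (p, b) (by simp)
  have hexc : ex p c = ex p (FreeGroup.mk (ρ z)) := by
    rw [hc.exS hρ, (hρ z hz).ex]
    have h1 : D.src p ∈ S ↔ D.src p = z := by
      constructor
      · intro h
        by_contra hcon
        exact hoth _ h hcon (Or.inl rfl)
      · rintro rfl; exact hz
    have h2 : D.tgt p ∈ S ↔ D.tgt p = z := by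
      constructor
      · intro h
        by_contra hcon
        exact hoth _ h hcon (Or.inr rfl)
      · rintro rfl; exact hz
    simp only [h1, h2]
  obtain ⟨hmr, hmw'⟩ := leg (D := D) (z := z) (X := []) (r := ρ z) (m := (p, b)) (w' := w')
    (by simpa using hρ z hz) hm (by simp) hED' (by
      rw [heq, ex_mul, hexc, ex_of_mem hED (a := (p, b)) (by simp)]
      ring)
  simp only at hmr hmw'
  obtain ⟨ra, rb, hr⟩ := List.append_of_mem hmr
  obtain ⟨v, hv1, hv2⟩ := pull hz hρ hc hr hoth
  rw [ED_append, ED_cons] at hED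
  have hV1p : ∀ a ∈ V1, a.1 ≠ p := fun a ha => hED.2.2 a ha (p, b) (by simp)
  have heq2 : (FreeGroup.mk w' : FreeGroup E) =
      FreeGroup.mk (V1 ++ (rb ++ ra) ++ V2) * subst p v c := by
    have h3 := congrArg (subst p v) heq
    rw [subst_mk p v hmw', map_mul, mk_append, mk_cons, map_mul, map_mul, hv1,
      subst_mk p v hV1p, subst_mk p v (fun a ha => hED.2.1.1 a ha)] at h3
    rw [h3, mk_append (V1 ++ (rb ++ ra)) V2, mk_append V1 (rb ++ ra)]
    group
  obtain ⟨l, hl, hL⟩ := blockL hT D V2.length (S.erase z) z ρ V1 [(p, b)] V2 (rb ++ ra) w'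
    (subst p v c) le_rfl (by rw [Finset.card_erase_of_mem hz]; omega) (Finset.notMem_erase z S)
    (fun v hv => hρ v (Finset.mem_of_mem_erase hv))
    ((hρ z hz).perm (by
      rw [hr]
      have h3 : FreeGroup.invRev [(p, b)] = [(p, !b)] := rfl
      rw [h3]
      refine List.perm_append_comm.trans ?_
      simp)) hV1
    (by
      rw [List.append_assoc, List.singleton_append, ED_append, ED_cons]
      exact hED) hED' (by rw [hins]; simpa using hNI) (by rw [hins]; exact hNI') hv2 heq2
  refine ⟨l, hl.cast hins, by simpa using hL⟩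

omit [DecidableEq E] in
theorem closed_core {n : ℕ} (hT : T2L V E n) (D : Gr V E) (S : Finset V) (hS : S.card ≤ n + 1)
    (ρ : V → List (E × Bool)) (hρ : ∀ z ∈ S, IsRot D z (ρ z))
    (hc : PC (fun z => (FreeGroup.mk (ρ z) : FreeGroup E)) S 1) :
    ∃ l, Lst l S ∧ Lin D l [] [] := by
  rcases S.eq_empty_or_nonempty with rfl | ⟨z, hz⟩
  · exact ⟨[], ⟨List.nodup_nil, by simp⟩, Lin.nil⟩
  · obtain ⟨g, d, hd, h1⟩ := hc.erase hz
    obtain ⟨l, hl, hL⟩ := hT D (S.erase z) (by rw [Finset.card_erase_of_mem hz]; omega) ρ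
      (fun v hv => hρ v (Finset.mem_of_mem_erase hv)) (ρ z) [] (g⁻¹ * d * g) (hρ z hz).ed
      (by simp [ED]) (NoInt.of_inc (Finset.notMem_erase z S) (fun a ha => (hρ z hz).inc ha))
      (by intro a ha; simp at ha) (by simpa using hd.conj g⁻¹) (by
        have h2 : d = (g * FreeGroup.mk (ρ z) * g⁻¹)⁻¹ := by
          rw [eq_inv_iff_mul_eq_one]
          have h3 : g * FreeGroup.mk (ρ z) * g⁻¹ = d⁻¹ := by
            rw [eq_inv_iff_mul_eq_one]; exact h1.symm
          rw [h3]; simp
        rw [h2, mk_nil]; group)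
    refine ⟨z :: l, (hl.cons (Finset.notMem_erase z S)).cast (Finset.insert_erase hz), ?_⟩
    exact Lin.cons (P := []) (x := []) (y := ρ z) (Q := []) (by simpa using hρ z hz)
      (by simpa using hL)

omit [DecidableEq V] [DecidableEq E] in
theorem keep_closed {D : Gr V E} {S : Finset V} {ρ : V → List (E × Bool)} (P : E → Prop)
    [DecidablePred P] (hP : ∀ e, P e → ∀ z ∈ S, ¬ Inc D z e) (hρ : ∀ z ∈ S, IsRot D z (ρ z)) :
    ∀ z ∈ S, keep P (FreeGroup.mk (ρ z)) = 1 := by
  intro z hz
  apply keep_eq_one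
  intro a ha hPa
  exact hP _ hPa z hz ((hρ z hz).inc ha)

theorem T2L_zero : T2L V E 0 := by
  intro D S hS ρ hρ w w' c hED hED' _ _ hc heq
  have hS0 : S = ∅ := Finset.card_eq_zero.1 (by omega)
  subst hS0
  have hc1 : c = 1 := hc.eq_one (by simp)
  rw [hc1, mul_one] at heq
  rw [hED'.mk_inj hED heq]
  exact ⟨[], ⟨List.nodup_nil, by simp⟩, Lin.nil⟩

theorem T2L_all (n : ℕ) : T2L V E n := by
  classical
  induction n with
  | zero => exact T2L_zero
  | succ n ih =>
    intro D S hS ρ hρ w w' c hED hED' hNI hNI' hc heq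
    by_cases hL : ∃ z ∈ S, ∃ a ∈ w, Inc D z a.1
    · exact caseL ih D S hS ρ hρ w w' c hED hED' hNI hNI' hc heq hL
    by_cases hR : ∃ z ∈ S, ∃ a ∈ w', Inc D z a.1
    · obtain ⟨l, hl, hLin⟩ := caseL ih D.swap S hS (fun z => FreeGroup.invRev (ρ z))
        (fun z hz => (hρ z hz).swap) w' w c⁻¹ hED' hED hNI'.swap hNI.swap
        (hc.inv.congr' (fun z _ => (mk_invRev _).symm)) (by rw [heq]; group)
        (by
          obtain ⟨z, hz, a, ha, h⟩ := hR
          exact ⟨z, hz, a, ha, h.symm⟩)
      exact ⟨l.reverse, hl.reverse, hLin.rev⟩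
    · push Not at hL hR
      have hk := keep_closed (D := D) (S := S) (ρ := ρ) (fun e => ∀ z ∈ S, ¬ Inc D z e)
        (fun e h => h) hρ
      have h1 := congrArg (keep (fun e => ∀ z ∈ S, ¬ Inc D z e)) heq
      rw [map_mul, (hc.map _).eq_one hk, mul_one,
        keep_eq_self _ (fun a ha z hz => hR z hz a ha),
        keep_eq_self _ (fun a ha z hz => hL z hz a ha)] at h1
      have h2 : w' = w := hED'.mk_inj hED h1
      subst h2
      have hc1 : c = 1 := by
        have : FreeGroup.mk w' * c = FreeGroup.mk w' * 1 := by rw [← heq, mul_one]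
        exact mul_left_cancel this
      subst hc1
      obtain ⟨l, hl, hLin⟩ := closed_core ih D S hS ρ hρ hc
      refine ⟨l, hl, ?_⟩
      simpa using hLin.ctx w' []

end Linear

end CylB
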