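import Pool.Agent.Lib.MP_c5238b_co.PCLib

/-!
# The descending product of an element of exponent one
-/

namespace CylB

open WG

section DP

variable {F : Type*} [Group F]

/-- descending product `φ (a+n-1) ⋯ φ a` -/
def DP (φ : ℤ → F) (a : ℤ) : ℕ → F
  | 0 => 1
  | n + 1 => φ (a + n) * DP φ a n

theorem DP_succ (φ : ℤ → F) (a : ℤ) (n : ℕ) : DP φ a (n + 1) = φ (a + n) * DP φ a n := rfl

theorem DP_congr {φ ψ : ℤ → F} {a : ℤ} {n : ℕ} (h : ∀ k, a ≤ k → k < a + n → φ k = ψ k) :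
    DP φ a n = DP ψ a n := by
  induction n with
  | zero => rfl
  | succ n ih =>
    rw [DP_succ, DP_succ, h _ (by omega) (by push_cast; omega),
      ih fun k h1 h2 => h k h1 (by push_cast; omega)]

theorem DP_shift (φ : ℤ → F) (m a : ℤ) (n : ℕ) :
    DP (fun k => φ (k - m)) a n = DP φ (a - m) n := by
  induction n with
  | zero => rfl
  | succ n ih => rw [DP_succ, DP_succ, ih]; congr 2; ring

theorem DP_one {φ : ℤ → F} {a : ℤ} {n : ℕ} (h : ∀ k, a ≤ k → k < a + n → φ k = 1) :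
    DP φ a n = 1 := by
  induction n with
  | zero => rfl
  | succ n ih =>
    rw [DP_succ, h _ (by omega) (by push_cast; omega),
      ih fun k h1 h2 => h k h1 (by push_cast; omega), one_mul]

theorem DP_add (φ : ℤ → F) (a : ℤ) (m n : ℕ) :
    DP φ a (m + n) = DP φ (a + m) n * DP φ a m := by
  induction n with
  | zero => simp [DP]
  | succ n ih =>
    rw [← add_assoc, DP_succ, DP_succ, ih, mul_assoc]
    congr 2; push_cast; ring

theorem DP_ext {φ : ℤ → F} {a a' : ℤ} {n n' : ℕ} (h : ∀ k, (k < a ∨ a + n ≤ k) → φ k = 1)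
    (h1 : a' ≤ a) (h2 : a + n ≤ a' + n') : DP φ a' n' = DP φ a n := by
  obtain ⟨i, hi⟩ : ∃ i : ℕ, a = a' + i := ⟨(a - a').toNat, by omega⟩
  obtain ⟨j, hj⟩ : ∃ j : ℕ, n' = i + n + j := ⟨n' - i - n, by omega⟩
  subst hi; subst hj
  rw [DP_add, DP_add, DP_one (n := j) (fun k hk1 hk2 => h k (by right; push_cast at hk1; omega)),
    DP_one (n := i) (fun k hk1 hk2 => h k (by left; omega))]
  simp

theorem DP_unique {φ : ℤ → F} {a a' : ℤ} {n n' : ℕ} (h : ∀ k, (k < a ∨ a + n ≤ k) → φ k = 1)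
    (h' : ∀ k, (k < a' ∨ a' + n' ≤ k) → φ k = 1) : DP φ a n = DP φ a' n' := by
  rw [← DP_ext (a' := min a a') (n' := (max (a + n) (a' + n') - min a a').toNat) h (by omega)
      (by omega),
    ← DP_ext (a' := min a a') (n' := (max (a + n) (a' + n') - min a a').toNat) h' (by omega)
      (by omega)]

theorem DP_tele (φ ψ : ℤ → F) (a : ℤ) (n : ℕ) :
    DP (fun k => ψ k * φ k * (ψ (k - 1))⁻¹) a n = ψ (a + n - 1) * DP φ a n * (ψ (a - 1))⁻¹ := by
  induction n with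
  | zero => simp [DP]
  | succ n ih =>
    rw [DP_succ, DP_succ, ih]
    have : a + ((n + 1 : ℕ) : ℤ) - 1 = a + n := by push_cast; ring
    rw [this]
    group

theorem DP_insert (φ : ℤ → F) (w : F) (h a : ℤ) (n : ℕ) (h1 : a ≤ h) (h2 : h < a + n) :
    DP (fun k => φ k * (if k = h then w else 1)) a n =
      DP φ a n * ((DP φ a (h - a).toNat)⁻¹ * w * DP φ a (h - a).toNat) := by
  induction n with
  | zero => simp at h2; omega
  | succ n ih =>
    rw [DP_succ, DP_succ]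
    by_cases hh : h = a + n
    · have h3 : (h - a).toNat = n := by omega
      rw [h3, if_pos hh.symm,
        DP_congr (ψ := φ) (n := n) (fun k hk1 hk2 => by rw [if_neg (by omega), mul_one])]
      group
    · rw [if_neg (by omega), ih (by push_cast at h2; omega)]
      group

/-- `q` is the descending product of the exponent one element `x` -/
def IsPi (x : WG F) (q : F) : Prop :=
  x.n = 1 ∧ ∃ (a : ℤ) (n : ℕ), (∀ k, (k < a ∨ a + n ≤ k) → x.f k = 1) ∧ DP x.f a n = q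

theorem IsPi.unique {x : WG F} {q q' : F} (h : IsPi x q) (h' : IsPi x q') : q = q' := by
  obtain ⟨_, a, n, h1, rfl⟩ := h
  obtain ⟨_, a', n', h1', rfl⟩ := h'
  exact DP_unique h1 h1'

theorem IsPi.exists {x : WG F} (h : FS x) (hn : x.n = 1) : ∃ q, IsPi x q := by
  obtain ⟨B, hB⟩ := h
  exact ⟨_, hn, -B, 2 * B, fun k hk => hB k (by omega), rfl⟩

theorem IsPi.FS {x : WG F} {q : F} (h : IsPi x q) : FS x := by
  obtain ⟨_, a, n, h1, _⟩ := h
  exact ⟨a.natAbs + n, fun k hk => h1 k (by omega)⟩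

/-- enlarge the support interval -/
theorem IsPi.enlarge {x : WG F} {q : F} (h : IsPi x q) (B : ℕ) :
    ∃ m : ℕ, B ≤ m ∧ (∀ k : ℤ, (k < -(m : ℤ) ∨ (m : ℤ) ≤ k) → x.f k = 1) ∧
      DP x.f (-(m : ℤ)) (2 * m) = q := by
  obtain ⟨_, a, n, h1, h2⟩ := h
  refine ⟨B + a.natAbs + n, by omega, fun k hk => h1 k (by omega), ?_⟩
  rw [← h2]
  exact DP_ext h1 (by omega) (by omega)

theorem IsPi.of_sym {x : WG F} {q : F} (hn : x.n = 1) (m : ℕ)
    (h : ∀ k : ℤ, (k < -(m : ℤ) ∨ (m : ℤ) ≤ k) → x.f k = 1)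
    (hq : DP x.f (-(m : ℤ)) (2 * m) = q) : IsPi x q :=
  ⟨hn, -m, 2 * m, fun k hk => h k (by omega), hq⟩

theorem IsPi.conj {x y : WG F} {q : F} (h : IsPi x q) (hy : WG.FS y) : IsPi (y * x * y⁻¹) q := by
  obtain ⟨hn, a, n, h1, h2⟩ := h
  obtain ⟨C, hC⟩ := hy
  refine ⟨by simp [hn], a + y.n - (C + a.natAbs + n + y.n.natAbs + 1 : ℕ),
    n + 2 * (C + a.natAbs + n + y.n.natAbs + 1), ?_, ?_⟩
  · intro k hk
    simp only [mul_f, mul_n, inv_f, hn]
    rw [hC k (by omega), h1 _ (by omega),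
      hC _ (by omega)]
    simp
  · have hf : (y * x * y⁻¹).f = fun k => y.f k * (fun k => x.f (k - y.n)) k * (y.f (k - 1))⁻¹ := by
      funext k
      simp only [mul_f, mul_n, inv_f, hn]
      congr 3; ring
    rw [hf, DP_tele, DP_shift, hC _ (by omega), hC _ (by omega), ← h2]
    rw [DP_ext h1 (by omega) (by omega)]
    simp

theorem IsPi.mul_conj {x y : WG F} {q : F} (h : IsPi x q) (s : F) :
    ∃ u, IsPi (x * (y * io s * y⁻¹)) (q * (u * s * u⁻¹)) := by
  obtain ⟨m, hm, h1, h2⟩ := h.enlarge (y.n.natAbs + 2)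
  have hn := h.1
  have hf : (x * (y * io s * y⁻¹)).f = fun k => x.f k *
      (if k = y.n + 1 then y.f y.n * s * (y.f y.n)⁻¹ else 1) := by
    funext k
    simp only [mul_f, mul_n, inv_f, io_f, io_n, hn]
    by_cases hk : k = y.n + 1
    · subst hk
      simp
    · have : ¬ (k - 1 - y.n = 0) := by omega
      have h3 : k - 1 - (y.n + 0) + y.n = k - 1 := by ring
      simp [hk, this]
  refine ⟨(DP x.f (-(m : ℤ)) (y.n + 1 - (-(m : ℤ))).toNat)⁻¹ * y.f y.n,
    IsPi.of_sym (by simp [hn]) m ?_ ?_⟩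
  · intro k hk
    rw [hf]
    simp only
    rw [h1 k hk, if_neg (by omega), one_mul]
  · rw [hf, DP_insert _ _ _ _ _ (by omega) (by push_cast; omega), h2]
    group

end DP

section Edge

variable {V E : Type*} [DecidableEq V] [DecidableEq E] {p : E}

theorem IsPi.isConj {g h : FreeGroup E} (hgh : IsConj g h) {q : FreeGroup E}
    (hq : IsPi (Phi p g) q) : IsPi (Phi p h) q := by
  obtain ⟨k, rfl⟩ := isConj_iff.1 hgh
  rw [map_mul, map_mul, map_inv]
  exact hq.conj (Phi_FS p k)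

theorem IsPi.mul_PC {σ : V → FreeGroup E} {S : Finset V} {c : FreeGroup E} (hc : PC σ S c)
    (hσ : ∀ z ∈ S, Phi p (σ z) = io (σ z)) {x : WG (FreeGroup E)} {q : FreeGroup E}
    (hq : IsPi x q) : ∃ q', PC σ S q' ∧ IsPi (x * Phi p c) (q * q') := by
  induction hc generalizing x q with
  | empty => exact ⟨1, PC.empty, by simpa using hq⟩
  | @insert z S c g hz hc ih =>
    obtain ⟨u, hu⟩ := hq.mul_conj (y := Phi p g) (σ z)
    obtain ⟨q', hq', hi⟩ := ih (fun z hz => hσ z (Finset.mem_insert_of_mem hz)) hu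
    refine ⟨u * σ z * u⁻¹ * q', PC.insert _ hz hq', ?_⟩
    have h1 : Phi p (g * σ z * g⁻¹ * c) =
        (Phi p g * io (σ z) * (Phi p g)⁻¹) * Phi p c := by
      rw [map_mul, map_mul, map_mul, map_inv, hσ z (Finset.mem_insert_self _ _)]
    rw [h1, ← mul_assoc x, ← mul_assoc q]
    exact hi

theorem edge_mid {σ : V → FreeGroup E} {S : Finset V} {c : FreeGroup E} (hc : PC σ S c)
    (hσ : ∀ z ∈ S, Phi p (σ z) = io (σ z)) {W W' q q' : FreeGroup E}
    (hW : IsConj W' (W * c)) (hq : IsPi (Phi p W) q) (hq' : IsPi (Phi p W') q') :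
    ∃ c', PC σ S c' ∧ q' = q * c' := by
  obtain ⟨c', hc', h⟩ := hq.mul_PC hc hσ
  refine ⟨c', hc', ?_⟩
  rw [← map_mul] at h
  exact hq'.unique (h.isConj hW.symm)

/-- two spikes -/
theorem IsPi.two {F : Type*} [Group F] (y : WG F) (w r : F) :
    ∃ v, IsPi (y * io w * y⁻¹ * (tt 1 * io r)) (v * w * v⁻¹ * r) ∨
      IsPi (y * io w * y⁻¹ * (tt 1 * io r)) (r * (v * w * v⁻¹)) := by
  set h := y.n with hh
  set w' := y.f h * w * (y.f h)⁻¹ with hw'
  have hf : (y * io w * y⁻¹ * (tt 1 * io r)).f = fun k =>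
      (fun k => if k = h then w' else 1) k * (if k = 1 then r else 1) := by
    funext k
    simp only [mul_f, mul_n, inv_f, inv_n, io_f, io_n, tt_f, tt_n, ← hh]
    by_cases hk : k = h
    · have h3 : h - (h + 0) + h = h := by ring
      have h4 : (h - (h + 0 + -h) - 1 = 0) ↔ h = 1 := by omega
      subst hk
      simp only [sub_self, if_true, h3, h4, one_mul]
      rfl
    · have h2 : ¬ (k - h = 0) := by omega
      have h3 : k - (h + 0) + h = k := by ring
      have h4 : (k - (h + 0 + -h) - 1 = 0) ↔ k = 1 := by omega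
      simp only [h2, hk, if_false, h3, h4, one_mul, mul_one]
      simp
  have hn : (y * io w * y⁻¹ * (tt 1 * io r)).n = 1 := by simp
  set m : ℕ := h.natAbs + 2 with hm
  have hsup : ∀ k : ℤ, (k < -(m : ℤ) ∨ (m : ℤ) ≤ k) →
      (y * io w * y⁻¹ * (tt 1 * io r)).f k = 1 := by
    intro k hk
    rw [hf]
    simp only
    rw [if_neg (by omega), if_neg (by omega), one_mul]
  have hsp : ∀ (a : ℤ) (n : ℕ), a ≤ h → h < a + n → DP (fun k => if k = h then w' else 1) a n = w' := by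
    intro a n h1 h2
    have := DP_insert (fun _ => (1 : F)) w' h a n h1 h2
    rw [DP_one (n := n) (fun _ _ _ => rfl), DP_one (n := (h - a).toNat) (fun _ _ _ => rfl)] at this
    simpa using this
  refine ⟨y.f h, ?_⟩
  by_cases h1 : 1 ≤ h
  · left
    refine IsPi.of_sym hn m hsup ?_
    rw [hf, DP_insert _ _ _ _ _ (by omega) (by push_cast; omega), hsp _ _ (by omega) (by push_cast; omega),
      DP_one (n := (1 - (-(m : ℤ))).toNat) (fun k hk1 hk2 => by rw [if_neg (by omega)])]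
    simp [hw']
  · right
    refine IsPi.of_sym hn m hsup ?_
    rw [hf, DP_insert _ _ _ _ _ (by omega) (by push_cast; omega), hsp _ _ (by omega) (by push_cast; omega),
      hsp _ _ (by omega) (by omega)]
    rw [← hw']
    group

theorem edge_start {σ : V → FreeGroup E} {S : Finset V} {c : FreeGroup E} (hc : PC σ S c)
    {u : V} (hu : u ∈ S) {r : FreeGroup E} (hr : Phi p r = io r)
    (hσu : IsConj (FreeGroup.of p * r) (σ u))
    (hσ : ∀ z ∈ S, z ≠ u → Phi p (σ z) = io (σ z))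
    {g0 W q : FreeGroup E} (hg0 : Phi p g0 = io g0)
    (hW : IsConj W (g0 * c)) (hq : IsPi (Phi p W) q) :
    ∃ c', PC σ S c' ∧ IsConj (FreeGroup.of p * q) (g0 * c') := by
  obtain ⟨g, d, hd, rfl⟩ := hc.erase hu
  obtain ⟨k, hk⟩ := isConj_iff.1 hσu
  -- conjugate by `y⁻¹`
  obtain ⟨y, hy⟩ : ∃ y, y = g * k := ⟨_, rfl⟩
  have h1 : IsConj W ((y⁻¹ * g0 * y) * (FreeGroup.of p * r) * (y⁻¹ * d * y)) := by
    refine hW.trans (isConj_iff.2 ⟨y⁻¹, ?_⟩)
    rw [← hk, hy]; group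
  have hd' : PC σ (S.erase u) (y⁻¹ * d * y) := by simpa using hd.conj y⁻¹
  have hPhi : Phi p ((y⁻¹ * g0 * y) * (FreeGroup.of p * r)) =
      (Phi p y)⁻¹ * io g0 * ((Phi p y)⁻¹)⁻¹ * (tt 1 * io r) := by
    rw [map_mul, map_mul, map_mul, map_mul, map_inv, hg0, hr, Phi_of_self, inv_inv]
  have hσ' : ∀ z ∈ S.erase u, Phi p (σ z) = io (σ z) := fun z hz =>
    hσ z (Finset.mem_of_mem_erase hz) (Finset.ne_of_mem_erase hz)
  have hins : insert u (S.erase u) = S := Finset.insert_erase hu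
  have hdis : Disjoint (S.erase u) ({u} : Finset V) := by simp
  obtain ⟨v, hv⟩ := IsPi.two (Phi p y)⁻¹ g0 r
  rw [← hPhi] at hv
  rcases hv with hv | hv
  · obtain ⟨d', hd'', hi⟩ := hv.mul_PC hd' hσ'
    rw [← map_mul] at hi
    have hqq : q = v * g0 * v⁻¹ * r * d' := hq.unique (hi.isConj h1.symm)
    -- p w' r d' ~ w' (r p) (p⁻¹ d' p)
    have hP : PC σ S ((FreeGroup.of p)⁻¹ * (FreeGroup.of p * r) * FreeGroup.of p *
        ((FreeGroup.of p)⁻¹ * d' * FreeGroup.of p)) := by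
      have hh1 : (FreeGroup.of p)⁻¹ * (FreeGroup.of p * r) * FreeGroup.of p =
          ((FreeGroup.of p)⁻¹ * k⁻¹) * σ u * ((FreeGroup.of p)⁻¹ * k⁻¹)⁻¹ := by
        rw [← hk]; group
      rw [hh1]
      have := PC.insert (σ := σ) ((FreeGroup.of p)⁻¹ * k⁻¹) (Finset.notMem_erase u S)
        (hd''.conj (FreeGroup.of p)⁻¹)
      rw [hins] at this
      simpa using this
    refine ⟨v⁻¹ * ((FreeGroup.of p)⁻¹ * (FreeGroup.of p * r) * FreeGroup.of p *
        ((FreeGroup.of p)⁻¹ * d' * FreeGroup.of p)) * v, by simpa using hP.conj v⁻¹, ?_⟩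
    refine isConj_iff.2 ⟨v⁻¹ * (FreeGroup.of p)⁻¹, ?_⟩
    rw [hqq]; group
  · obtain ⟨d', hd'', hi⟩ := hv.mul_PC hd' hσ'
    rw [← map_mul] at hi
    have hqq : q = r * (v * g0 * v⁻¹) * d' := hq.unique (hi.isConj h1.symm)
    have hP : PC σ S (d' * (FreeGroup.of p * r)) := by
      have hh1 : FreeGroup.of p * r = k⁻¹ * σ u * (k⁻¹)⁻¹ := by rw [← hk]; group
      rw [hh1]
      have := hd''.mul (PC.single (σ := σ) u k⁻¹) hdis
      refine this.cast ?_ rfl
      rw [Finset.union_comm, ← Finset.insert_eq, hins]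
    refine ⟨v⁻¹ * (d' * (FreeGroup.of p * r)) * v, by simpa using hP.conj v⁻¹, ?_⟩
    refine isConj_iff.2 ⟨v⁻¹ * (FreeGroup.of p * r)⁻¹, ?_⟩
    rw [hqq]; group

theorem edge_end {σ : V → FreeGroup E} {S : Finset V} {c : FreeGroup E} (hc : PC σ S c)
    {u : V} (hu : u ∈ S) {r : FreeGroup E} (hr : Phi p r = io r)
    (hσu : IsConj (FreeGroup.of p * r) (σ u)⁻¹)
    (hσ : ∀ z ∈ S, z ≠ u → Phi p (σ z) = io (σ z))
    {g1 W q : FreeGroup E} (hg1 : Phi p g1 = io g1)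
    (hW : IsConj g1 (W * c)) (hq : IsPi (Phi p W) q) :
    ∃ c', PC σ S c' ∧ IsConj g1 (FreeGroup.of p * q * c') := by
  obtain ⟨h, hh⟩ := isConj_iff.1 hW
  have hW' : IsConj W (g1 * (h⁻¹ * c⁻¹ * h)) := by
    refine isConj_iff.2 ⟨h⁻¹, ?_⟩
    have : W = h * g1 * h⁻¹ * c⁻¹ := by rw [hh]; group
    rw [this]; group
  have hc' : PC (fun z => (σ z)⁻¹) S (h⁻¹ * c⁻¹ * h) := by simpa using hc.inv.conj h⁻¹
  obtain ⟨c', hc'', hcon⟩ := edge_start hc' hu hr hσu
    (fun z hz hzu => by rw [map_inv, hσ z hz hzu, map_inv]) hg1 hW' hq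
  obtain ⟨k, hk⟩ := isConj_iff.1 hcon
  have h2 := hc''.inv
  simp only [inv_inv] at h2
  refine ⟨k⁻¹ * c'⁻¹ * k, by simpa using h2.conj k⁻¹, ?_⟩
  refine isConj_iff.2 ⟨k⁻¹, ?_⟩
  have : g1 = k * (FreeGroup.of p * q) * k⁻¹ * c'⁻¹ := by rw [hk]; group
  nth_rewrite 1 [this]; group

end Edge

end CylB
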